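import Mathlib

set_option autoImplicit false
set_option linter.unusedSectionVars false
open Pointwise Equiv Equiv.Perm

namespace Pool.Agent.H794Z.Alt

variable {α : Type} [Fintype α] [DecidableEq α]

/-- Sets closed under the three-cycles of `E`. -/
def Cl (E : Subgroup (Perm α)) (B : Set α) : Prop :=
  ∀ γ ∈ E, γ.IsThreeCycle → ∀ p ∈ B, γ p ∈ B

/-- Points linked by three-cycles of `E`. -/
def Lk (E : Subgroup (Perm α)) (p q : α) : Prop := ∀ B, Cl E B → (p ∈ B ↔ q ∈ B)

lemma Lk.refl (E : Subgroup (Perm α)) (p : α) : Lk E p p := fun _ _ => Iff.rfl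
lemma Lk.symm {E : Subgroup (Perm α)} {p q : α} (h : Lk E p q) : Lk E q p :=
  fun B hB => (h B hB).symm
lemma Lk.trans {E : Subgroup (Perm α)} {p q r : α} (h : Lk E p q) (h' : Lk E q r) : Lk E p r :=
  fun B hB => (h B hB).trans (h' B hB)

lemma lk_apply {E : Subgroup (Perm α)} {γ : Perm α} (hγ : γ ∈ E) (h3 : γ.IsThreeCycle) (p : α) :
    Lk E p (γ p) := by
  intro B hB
  refine ⟨hB γ hγ h3 p, fun h => ?_⟩
  simpa using hB γ⁻¹ (E.inv_mem hγ) h3.inv _ h

lemma isThreeCycle_conj {γ : Perm α} (h3 : γ.IsThreeCycle) (g : Perm α) :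
    (g * γ * g⁻¹).IsThreeCycle := by
  unfold IsThreeCycle at *
  rw [cycleType_conj, h3]

lemma Lk.conj {E : Subgroup (Perm α)} {p q : α} (h : Lk E p q) (g : Perm α)
    (hg : ∀ γ ∈ E, g * γ * g⁻¹ ∈ E) : Lk E (g p) (g q) := by
  intro B hB
  refine h (g ⁻¹' B) ?_
  intro γ hγ h3 x hx
  have := hB _ (hg γ hγ) (isThreeCycle_conj h3 g) _ hx
  simpa using this

theorem alt_le_of_lk (E : Subgroup (Perm α)) {γ0 : Perm α} (h0 : γ0 ∈ E) (h3 : γ0.IsThreeCycle)
    (h : ∀ p q, Lk E p q) : alternatingGroup α ≤ E := by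
  have htr : MulAction.IsPretransitive E α := by
    refine ⟨fun x y => ?_⟩
    have := (h x y (MulAction.orbit E x) (by
      intro γ hγ _ p hp
      obtain ⟨g, rfl⟩ := hp
      exact ⟨⟨γ, hγ⟩ * g, rfl⟩)).1 (MulAction.mem_orbit_self x)
    exact this
  refine alternatingGroup_le_of_isPreprimitive_of_isThreeCycle_mem ?_ h3 h0
  refine { toIsPretransitive := htr, isTrivialBlock_of_isBlock := ?_ }
  intro B hB
  by_cases hs : B.Subsingleton
  · exact Or.inl hs
  right
  rw [Set.not_subsingleton_iff] at hs
  obtain ⟨p, hp, q, hq, hpq⟩ := hs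
  have hcl : Cl E B := by
    intro γ hγ h3 x hx
    by_contra hcon
    have hdis : ∀ y ∈ B, γ y ∉ B := by
      intro y hy hy'
      have := (MulAction.isBlock_iff_smul_eq_of_mem.1 hB) (g := ⟨γ, hγ⟩) hy hy'
      apply hcon
      rw [← this]
      exact Set.smul_mem_smul_set hx
    have hsub : ({p, q, γ p, γ q} : Finset α) ⊆ γ.support := by
      intro z hz
      simp only [Finset.mem_insert, Finset.mem_singleton] at hz
      have e1 : γ p ≠ p := fun h => hdis p hp (by rwa [h])
      have e2 : γ q ≠ q := fun h => hdis q hq (by rwa [h])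
      rcases hz with rfl | rfl | rfl | rfl
      · exact mem_support.2 e1
      · exact mem_support.2 e2
      · exact apply_mem_support.2 (mem_support.2 e1)
      · exact apply_mem_support.2 (mem_support.2 e2)
    have hc := Finset.card_le_card hsub
    rw [h3.card_support] at hc
    have a1 : p ≠ γ p := fun h => hdis p hp (by rwa [← h])
    have a2 : p ≠ γ q := fun h => hdis q hq (by rwa [← h])
    have a3 : q ≠ γ p := fun h => hdis p hp (by rwa [← h])
    have a4 : q ≠ γ q := fun h => hdis q hq (by rwa [← h])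
    have a5 : γ p ≠ γ q := fun h => hpq (γ.injective h)
    rw [Finset.card_insert_of_notMem (by simp [hpq, a1, a2]),
      Finset.card_insert_of_notMem (by simp [a3, a4]),
      Finset.card_insert_of_notMem (by simp [a5]), Finset.card_singleton] at hc
    omega
  exact Set.eq_univ_of_forall fun z => (h p z B hcl).1 hp

lemma alt_two_trans (h4 : 4 ≤ Fintype.card α) {p q p' q' : α} (h : p ≠ q) (h' : p' ≠ q') :
    ∃ g ∈ alternatingGroup α, g p = p' ∧ g q = q' := by
  have h2 : MulAction.IsMultiplyPretransitive (alternatingGroup α) α 2 := by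
    let := alternatingGroup.isMultiplyPretransitive α
    apply MulAction.isMultiplyPretransitive_of_le (n := Nat.card α - 2) _ (Nat.sub_le _ _)
    rw [Nat.card_eq_fintype_card]; omega
  obtain ⟨g, h1, h2⟩ := MulAction.is_two_pretransitive_iff.1 h2 h h'
  exact ⟨g, g.2, h1, h2⟩

/-- A permutation supported in a finite set. -/
def Supp (s : Finset α) (q : Perm α) : Prop := ∀ x, x ∉ s → q x = x

lemma Supp.one (s : Finset α) : Supp s 1 := fun _ _ => rfl

lemma Supp.mul {s : Finset α} {p q : Perm α} (hp : Supp s p) (hq : Supp s q) : Supp s (p * q) :=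
  fun x hx => by rw [Perm.mul_apply, hq x hx, hp x hx]

lemma Supp.inv {s : Finset α} {p : Perm α} (hp : Supp s p) : Supp s p⁻¹ :=
  fun x hx => by rw [Perm.inv_eq_iff_eq, hp x hx]

lemma Supp.mem {s : Finset α} {p : Perm α} (hp : Supp s p) {x : α} (hx : x ∈ s) : p x ∈ s := by
  by_contra h
  have := hp _ h
  rw [p.injective this] at h
  exact h hx

lemma card_supp (s : Finset α) :
    (Finset.univ.filter fun q : Perm α => ∀ x, x ∉ s → q x = x).card ≤ s.card ^ s.card := by
  have := Finset.card_le_card_of_injOn (s := Finset.univ.filter fun q : Perm α => ∀ x, x ∉ s → q x = x)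
    (t := Fintype.piFinset fun _ : s => s) (fun q x => q x) (by
      intro q hq
      have hq' : Supp s q := by simpa [Supp] using hq
      simpa using fun a ha => hq'.mem ha) (by
      intro q hq q' hq' h
      have h1 : Supp s q := by simpa [Supp] using hq
      have h2 : Supp s q' := by simpa [Supp] using hq'
      ext x
      by_cases hx : x ∈ s
      · exact congrFun h ⟨x, hx⟩
      · rw [h1 x hx, h2 x hx])
  simpa using this

lemma commutator_le_of_gen {G : Type} [Group G] {S : Set G} (hS : Subgroup.closure S = ⊤)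
    (N : Subgroup G) [N.Normal] (h : ∀ s ∈ S, ∀ t ∈ S, s * t * s⁻¹ * t⁻¹ ∈ N) :
    commutator G ≤ N := by
  have key : ∀ x y : G, Commute (QuotientGroup.mk' N x) (QuotientGroup.mk' N y) := by
    intro x y
    have hx : x ∈ Subgroup.closure S := by rw [hS]; trivial
    have hy : y ∈ Subgroup.closure S := by rw [hS]; trivial
    induction hx, hy using Subgroup.closure_induction₂ with
    | mem s t hs ht =>
      rw [← commutatorElement_eq_one_iff_commute, ← map_commutatorElement]
      exact (QuotientGroup.eq_one_iff _).2 (h s hs t ht)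
    | one_left => simp
    | one_right => simp
    | mul_left _ _ _ _ _ _ h1 h2 => rw [map_mul]; exact h1.mul_left h2
    | mul_right _ _ _ _ _ _ h1 h2 => rw [map_mul]; exact h1.mul_right h2
    | inv_left _ _ _ _ h1 => rw [map_inv]; exact h1.inv_left
    | inv_right _ _ _ _ h1 => rw [map_inv]; exact h1.inv_right
  rw [commutator_def, Subgroup.commutator_le]
  intro x _ y _
  rw [← QuotientGroup.eq_one_iff]
  change QuotientGroup.mk' N _ = 1
  rw [map_commutatorElement, commutatorElement_eq_one_iff_commute]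
  exact key x y

end Pool.Agent.H794Z.Alt
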