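import Mathlib

set_option autoImplicit false
set_option linter.unusedSectionVars false
open Pointwise

namespace Pool.Agent.H794Z

/-- Unrestricted permutational wreath product. -/
@[ext] structure SW (A X Q : Type) where
  fn : X → A
  top : Q

namespace SW
variable {A X Q : Type} [Group A] [Group Q] [MulAction Q X]

instance : Mul (SW A X Q) := ⟨fun u v => ⟨fun x => u.fn x * v.fn (u.top⁻¹ • x), u.top * v.top⟩⟩
instance : One (SW A X Q) := ⟨⟨fun _ => 1, 1⟩⟩
instance : Inv (SW A X Q) := ⟨fun u => ⟨fun x => (u.fn (u.top • x))⁻¹, u.top⁻¹⟩⟩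

@[simp] lemma mul_fn (u v : SW A X Q) (x : X) : (u * v).fn x = u.fn x * v.fn (u.top⁻¹ • x) := rfl
@[simp] lemma mul_top (u v : SW A X Q) : (u * v).top = u.top * v.top := rfl
@[simp] lemma one_fn (x : X) : (1 : SW A X Q).fn x = 1 := rfl
@[simp] lemma one_top : (1 : SW A X Q).top = 1 := rfl
@[simp] lemma inv_fn (u : SW A X Q) (x : X) : u⁻¹.fn x = (u.fn (u.top • x))⁻¹ := rfl
@[simp] lemma inv_top (u : SW A X Q) : u⁻¹.top = u.top⁻¹ := rfl

instance : Group (SW A X Q) where
  mul_assoc u v w := by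
    ext x
    · simp [mul_assoc, mul_smul]
    · simp [mul_assoc]
  one_mul u := by ext x <;> simp
  mul_one u := by ext x <;> simp
  inv_mul_cancel u := by ext x <;> simp

/-- The top projection. -/
def topHom : SW A X Q →* Q where
  toFun := SW.top
  map_one' := rfl
  map_mul' _ _ := rfl

@[simp] lemma topHom_apply (u : SW A X Q) : topHom u = u.top := rfl

/-- Rooted elements. -/
def rt : Q →* SW A X Q where
  toFun q := ⟨fun _ => 1, q⟩
  map_one' := rfl
  map_mul' p q := by ext x <;> simp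

@[simp] lemma rt_fn (q : Q) (x : X) : (rt q : SW A X Q).fn x = 1 := rfl
@[simp] lemma rt_top (q : Q) : (rt q : SW A X Q).top = q := rfl

/-- Base elements. -/
def bs : (X → A) →* SW A X Q where
  toFun f := ⟨f, 1⟩
  map_one' := rfl
  map_mul' f g := by ext x <;> simp

@[simp] lemma bs_fn (f : X → A) (x : X) : (bs f : SW A X Q).fn x = f x := rfl
@[simp] lemma bs_top (f : X → A) : (bs f : SW A X Q).top = 1 := rfl

lemma bs_mul_rt (u : SW A X Q) : bs u.fn * rt u.top = u := by ext x <;> simp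

lemma rt_mul_bs (q : Q) (f : X → A) :
    (rt q : SW A X Q) * bs f * (rt q)⁻¹ = bs (fun x => f (q⁻¹ • x)) := by
  ext x <;> simp

lemma conj_bs (u : SW A X Q) (f : X → A) :
    u * bs f * u⁻¹ = bs (fun x => u.fn x * f (u.top⁻¹ • x) * (u.fn x)⁻¹) := by
  ext x <;> simp

/-- Functoriality in the lamp group. -/
def mapA {B : Type} [Group B] (φ : A →* B) : SW A X Q →* SW B X Q where
  toFun u := ⟨fun x => φ (u.fn x), u.top⟩
  map_one' := by ext x <;> simp
  map_mul' u v := by ext x <;> simp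

@[simp] lemma mapA_fn {B : Type} [Group B] (φ : A →* B) (u : SW A X Q) (x : X) :
    (mapA φ u).fn x = φ (u.fn x) := rfl
@[simp] lemma mapA_top {B : Type} [Group B] (φ : A →* B) (u : SW A X Q) :
    (mapA φ u).top = u.top := rfl

lemma mapA_injective {B : Type} [Group B] (φ : A →* B) (h : Function.Injective φ) :
    Function.Injective (mapA φ : SW A X Q →* SW B X Q) := by
  intro u v huv
  ext x
  · exact h (by simpa using congrArg (fun w => w.fn x) huv)
  · simpa using congrArg SW.top huv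

end SW

abbrev Wr (A X : Type) := SW A X (Equiv.Perm X)

section Balls
variable {G : Type} [Group G]

lemma mem_pow_iff_list (U : Set G) (n : ℕ) (g : G) :
    g ∈ U ^ n ↔ ∃ l : List G, l.length = n ∧ (∀ x ∈ l, x ∈ U) ∧ l.prod = g := by
  induction n generalizing g with
  | zero =>
    simp only [pow_zero, Set.mem_one, List.length_eq_zero_iff]
    constructor
    · rintro rfl; exact ⟨[], rfl, by simp, rfl⟩
    · rintro ⟨l, rfl, -, rfl⟩; rfl
  | succ n ih =>
    rw [pow_succ']
    constructor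
    · rintro ⟨a, ha, b, hb, rfl⟩
      obtain ⟨l, hl, hU, rfl⟩ := (ih b).1 hb
      refine ⟨a :: l, by simp [hl], ?_, by simp⟩
      intro x hx
      rcases List.mem_cons.1 hx with rfl | hx
      · exact ha
      · exact hU x hx
    · rintro ⟨l, hl, hU, rfl⟩
      cases l with
      | nil => simp at hl
      | cons a l =>
        refine ⟨a, hU a (by simp), l.prod, (ih _).2 ⟨l, by simpa using hl, ?_, rfl⟩, by simp⟩
        intro x hx; exact hU x (by simp [hx])

lemma prod_mem_pow {U : Set G} (h1 : (1 : G) ∈ U) {l : List G} (hl : ∀ x ∈ l, x ∈ U) {n : ℕ}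
    (hn : l.length ≤ n) : l.prod ∈ U ^ n :=
  Set.pow_subset_pow_right h1 hn ((mem_pow_iff_list U _ _).2 ⟨l, rfl, hl, rfl⟩)

lemma ncard_mul_le' {U V : Set G} (hU : U.Finite) (hV : V.Finite) :
    (U * V).ncard ≤ U.ncard * V.ncard := by
  classical
  lift U to Finset G using hU
  lift V to Finset G using hV
  rw [← Finset.coe_mul, Set.ncard_coe_finset, Set.ncard_coe_finset, Set.ncard_coe_finset]
  exact Finset.card_mul_le

lemma fin_pow {U : Set G} (hU : U.Finite) (k : ℕ) : (U ^ k).Finite := by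
  induction k with
  | zero => rw [pow_zero]; exact Set.finite_one
  | succ k ih => rw [pow_succ]; exact Set.Finite.mul ih hU

lemma ncard_pow_le {U : Set G} (hU : U.Finite) (k : ℕ) : (U ^ k).ncard ≤ U.ncard ^ k := by
  induction k with
  | zero => rw [pow_zero, pow_zero, ← Set.singleton_one, Set.ncard_singleton]
  | succ k ih =>
    rw [pow_succ, pow_succ]
    exact (ncard_mul_le' (fin_pow hU k) hU).trans (Nat.mul_le_mul_right _ ih)

lemma ncard_pow_mul_le {U : Set G} (hU : U.Finite) (n k : ℕ) :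
    (U ^ (n * k)).ncard ≤ (U ^ n).ncard ^ k := by
  rw [pow_mul]; exact ncard_pow_le (fin_pow hU n) k

lemma ncard_pow_mono {U : Set G} (hU : U.Finite) (h1 : (1 : G) ∈ U) {m n : ℕ} (h : m ≤ n) :
    (U ^ m).ncard ≤ (U ^ n).ncard :=
  Set.ncard_le_ncard (Set.pow_subset_pow_right h1 h) (fin_pow hU n)

/-- The symmetric generating set attached to a set. -/
def sy (S : Set G) : Set G := S ∪ S⁻¹ ∪ {1}

lemma one_mem_sy (S : Set G) : (1 : G) ∈ sy S := by simp [sy]

lemma inv_mem_sy {S : Set G} {g : G} (h : g ∈ sy S) : g⁻¹ ∈ sy S := by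
  simp only [sy, Set.mem_union, Set.mem_inv, Set.mem_singleton_iff, inv_inv, inv_eq_one] at h ⊢
  tauto

lemma sy_finite {S : Set G} (h : S.Finite) : (sy S).Finite :=
  (h.union h.inv).union (Set.finite_singleton _)

lemma subset_sy (S : Set G) : S ⊆ sy S := fun _ h => Or.inl (Or.inl h)

lemma inv_mem_pow {U : Set G} (hU : ∀ g ∈ U, g⁻¹ ∈ U) {n : ℕ} {g : G} (h : g ∈ U ^ n) :
    g⁻¹ ∈ U ^ n := by
  have : U⁻¹ = U := by
    ext x; constructor
    · intro hx; simpa using hU _ hx
    · intro hx; exact hU _ hx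
  rw [← this, inv_pow]; simpa using h

lemma mul_mem_pow {U : Set G} {m n : ℕ} {g h : G} (hg : g ∈ U ^ m) (hh : h ∈ U ^ n) :
    g * h ∈ U ^ (m + n) := by
  rw [pow_add]; exact Set.mul_mem_mul hg hh

lemma exists_mem_pow {S : Set G} {g : G} (hg : g ∈ Subgroup.closure S) : ∃ n, g ∈ sy S ^ n := by
  induction hg using Subgroup.closure_induction with
  | mem x hx => exact ⟨1, by simpa using subset_sy S hx⟩
  | one => exact ⟨0, by simp⟩
  | mul x y _ _ hx hy =>
    obtain ⟨m, hm⟩ := hx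
    obtain ⟨n, hn⟩ := hy
    exact ⟨m + n, mul_mem_pow hm hn⟩
  | inv x _ hx =>
    obtain ⟨m, hm⟩ := hx
    exact ⟨m, inv_mem_pow (fun g => inv_mem_sy) hm⟩

lemma map_mem_pow {H : Type} [Group H] (φ : G →* H) {U : Set G} {V : Set H} {L : ℕ}
    (h : ∀ u ∈ U, φ u ∈ V ^ L) {n : ℕ} {g : G} (hg : g ∈ U ^ n) : φ g ∈ V ^ (L * n) := by
  induction n generalizing g with
  | zero => simp only [pow_zero, Set.mem_one] at hg; subst hg; simp
  | succ n ih =>
    rw [pow_succ] at hg
    obtain ⟨a, ha, b, hb, rfl⟩ := hg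
    rw [map_mul, Nat.mul_succ]
    exact mul_mem_pow (ih ha) (h b hb)

lemma exists_uniform_pow {U : Set G} (hU : U.Finite) {V : Set G} (h1 : (1 : G) ∈ V)
    (h : ∀ u ∈ U, ∃ n, u ∈ V ^ n) : ∃ L, ∀ u ∈ U, u ∈ V ^ L := by
  induction U, hU using Set.Finite.induction_on with
  | empty => exact ⟨0, by simp⟩
  | @insert a s _ _ ih =>
    obtain ⟨L, hL⟩ := ih (fun u hu => h u (Set.mem_insert_of_mem _ hu))
    obtain ⟨n, hn⟩ := h a (Set.mem_insert _ _)
    refine ⟨max L n, ?_⟩
    rintro u (rfl | hu)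
    · exact Set.pow_subset_pow_right h1 (le_max_right _ _) hn
    · exact Set.pow_subset_pow_right h1 (le_max_left _ _) (hL u hu)

/-- Growth at most `C * c ^ n`. -/
def Rate (U : Set G) (c : ℝ) : Prop := ∃ C : ℝ, ∀ n : ℕ, ((U ^ n).ncard : ℝ) ≤ C * c ^ n

lemma rate_of_ball {U : Set G} (hU : U.Finite) (h1 : (1 : G) ∈ U) {b : ℝ} (hb : 1 ≤ b) {R : ℕ}
    (hR : 0 < R) (h : ((U ^ R).ncard : ℝ) ≤ b ^ R) : Rate U b := by
  refine ⟨b ^ R, fun n => ?_⟩
  have h2 : n ≤ R * (n / R + 1) := by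
    have := Nat.div_add_mod n R
    have := Nat.mod_lt n hR
    nlinarith
  have h3 : R * (n / R + 1) ≤ n + R := by
    have := Nat.mul_div_le n R
    nlinarith
  calc ((U ^ n).ncard : ℝ) ≤ (U ^ (R * (n / R + 1))).ncard := by
        exact_mod_cast ncard_pow_mono hU h1 h2
    _ ≤ ((U ^ R).ncard : ℝ) ^ (n / R + 1) := by exact_mod_cast ncard_pow_mul_le hU _ _
    _ ≤ (b ^ R) ^ (n / R + 1) := by gcongr
    _ = b ^ (R * (n / R + 1)) := by rw [← pow_mul]
    _ ≤ b ^ (n + R) := pow_le_pow_right₀ hb h3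
    _ = b ^ R * b ^ n := by ring

end Balls

end Pool.Agent.H794Z
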