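import Pool.Agent.H794Z.Gens

set_option autoImplicit false
set_option linter.unusedSectionVars false
open Pointwise Equiv Equiv.Perm

namespace Pool.Agent.H794Z.Gad
open Grig Alt

variable {n : ℕ}

/-- Pointer positions over a set. -/
def SP (A2 : Finset (X n)) : Finset (Pn n) := Finset.univ ×ˢ A2
/-- Constant states over a set. -/
def SQ (A2 : Finset (X n)) : Finset (Pn n × Fin 9) := SP A2 ×ˢ Finset.univ

@[simp] lemma mem_SP {A2 : Finset (X n)} {π : Pn n} : π ∈ SP A2 ↔ π.2 ∈ A2 := by simp [SP]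
@[simp] lemma mem_SQ {A2 : Finset (X n)} {s : Pn n × Fin 9} : s ∈ SQ A2 ↔ s.1.2 ∈ A2 := by simp [SQ]

/-- Admissible recolouring patterns. -/
def Adm (A1 : Finset (X n)) (F : Pn n → X n → Fin 9) : Prop :=
  ∀ π y, F π y ≠ 0 → π = (false, y) ∧ y ∈ A1

/-- Normal forms. -/
def Nf (A1 A2 : Finset (X n)) : Set (Perm (Om n)) :=
  {e | ∃ q p F, Supp (SQ A2) q ∧ Supp (SP A2) p ∧ Adm A1 F ∧ e = cst q * ptr p * lmp F}

lemma one_mem_Nf (A1 A2 : Finset (X n)) : 1 ∈ Nf A1 A2 :=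
  ⟨1, 1, 0, Supp.one _, Supp.one _, fun _ _ h => absurd rfl h, by simp [lmp_zero]⟩

/-- Pointer action on constant states. -/
def pq (p : Perm (Pn n)) : Perm (Pn n × Fin 9) := Equiv.prodCongr p (Equiv.refl _)

lemma conj_cst (e : Perm (Om n)) (p : Perm (Pn n)) (h : ∀ s, e (iota s) = iota (pq p s))
    (q : Perm (Pn n × Fin 9)) : e * cst q * e⁻¹ = cst (pq p * q * (pq p)⁻¹) := by
  rw [mul_inv_eq_iff_eq_mul]
  refine Equiv.ext fun s => ?_
  simp only [Perm.mul_apply]
  by_cases hs : s ∈ Set.range iota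
  · obtain ⟨t, rfl⟩ := hs
    rw [cst_iota, h, h, cst_iota]; simp
  · rw [cst_not _ _ hs, cst_not]
    rintro ⟨t, ht⟩
    apply hs
    refine ⟨(pq p)⁻¹ t, e.injective ?_⟩
    rw [h, ← ht]; simp

lemma supp_conj {α : Type} [Fintype α] [DecidableEq α] {s t : Finset α} {q : Perm α}
    (hq : Supp s q) (g : Perm α) (hg : ∀ x ∈ s, g x ∈ t) : Supp t (g * q * g⁻¹) := by
  intro x hx
  have : g⁻¹ x ∉ s := fun h => hx (by simpa using hg _ h)
  simp only [Perm.mul_apply]
  rw [hq _ this]; simp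

section
variable {A1 A2 : Finset (X n)} (hd : Disjoint A1 A2)
include hd

lemma adm_zero {F : Pn n → X n → Fin 9} (hF : Adm A1 F) {π : Pn n} (h : π.2 ∈ A2) : F π = 0 := by
  funext y
  by_contra hy
  obtain ⟨rfl, h2⟩ := hF π y hy
  exact Finset.disjoint_left.1 hd h2 h

lemma mul_ptr {e : Perm (Om n)} (he : e ∈ Nf A1 A2) {σ : Perm (Pn n)} (hσ : Supp (SP A2) σ) :
    e * ptr σ ∈ Nf A1 A2 := by
  obtain ⟨q, p, F, hq, hp, hF, rfl⟩ := he
  refine ⟨q, p * σ, F, hq, hp.mul hσ, hF, ?_⟩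
  have : lmp F * ptr σ = ptr σ * lmp F := by
    refine Equiv.ext ?_; rintro ⟨π, ω⟩
    simp only [Perm.mul_apply, ptr_apply, lmp_apply]
    by_cases h : π ∈ SP A2
    · rw [adm_zero hd hF (mem_SP.1 h), adm_zero hd hF (mem_SP.1 (hσ.mem h))]
    · rw [hσ π h]
  rw [mul_assoc, this, map_mul]; simp only [mul_assoc]

lemma mul_cst {e : Perm (Om n)} (he : e ∈ Nf A1 A2) {r : Perm (Pn n × Fin 9)}
    (hr : Supp (SQ A2) r) : e * cst r ∈ Nf A1 A2 := by
  obtain ⟨q, p, F, hq, hp, hF, rfl⟩ := he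
  have fix : ∀ s : Om n, s.1.2 ∉ A2 → cst r s = s := by
    intro s hs
    by_cases h : s ∈ Set.range iota
    · obtain ⟨t, rfl⟩ := h
      rw [cst_iota, hr t (fun h => hs (mem_SQ.1 h))]
    · exact cst_not _ _ h
  have reg : ∀ s : Om n, s.1.2 ∈ A2 → (cst r s).1.2 ∈ A2 := by
    intro s hs
    by_cases h : s ∈ Set.range iota
    · obtain ⟨t, rfl⟩ := h
      rw [cst_iota]
      exact mem_SQ.1 (hr.mem (mem_SQ.2 hs))
    · rwa [cst_not _ _ h]
  have l0 : ∀ s : Om n, s.1.2 ∈ A2 → lmp F s = s := by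
    rintro ⟨π, ω⟩ hs
    rw [lmp_apply, adm_zero hd hF hs, add_zero]
  have c1 : lmp F * cst r = cst r * lmp F := by
    refine Equiv.ext fun s => ?_
    simp only [Perm.mul_apply]
    by_cases h : s.1.2 ∈ A2
    · rw [l0 s h, l0 _ (reg s h)]
    · rw [fix s h, fix (lmp F s) h]
  have c2 := conj_cst (ptr p) p (fun _ => rfl) r
  refine ⟨q * (pq p * r * (pq p)⁻¹), p, F, hq.mul (supp_conj hr _ ?_), hp, hF, ?_⟩
  · intro x hx
    exact mem_SQ.2 (mem_SP.1 (hp.mem (mem_SP.2 (mem_SQ.1 hx))))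
  · rw [map_mul, ← c2, mul_assoc, c1]; simp only [mul_assoc, inv_mul_cancel_left]

omit hd in
lemma mul_lmp {e : Perm (Om n)} (he : e ∈ Nf A1 A2) {F' : Pn n → X n → Fin 9}
    (hF' : Adm A1 F') : e * lmp F' ∈ Nf A1 A2 := by
  obtain ⟨q, p, F, hq, hp, hF, rfl⟩ := he
  refine ⟨q, p, F + F', hq, hp, ?_, by rw [lmp_add]; simp only [mul_assoc]⟩
  intro π y h
  by_cases h1 : F π y = 0
  · exact hF' π y (by simpa [h1] using h)
  · exact hF π y h1

/-- Rooted parts of local generators. -/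
def LocSet (n : ℕ) : Set (Perm (Om n)) :=
  {e | e = 1 ∨ ∃ j : Fin 9, 5 ≤ j.val ∧ (e = root n j ∨ e = (root n j)⁻¹)}

lemma mul_loc {e : Perm (Om n)} (he : e ∈ Nf A1 A2) (g : Perm (X n)) (h1 : g (x1 n) ∈ A1)
    (h2 : g (x2 n) ∈ A2) (h3 : g (act n L.a (x2 n)) ∈ A2) {r : Perm (Om n)} (hr : r ∈ LocSet n) :
    e * (mv g * r * (mv g)⁻¹) ∈ Nf A1 A2 := by
  have hs : ∀ π ∈ ({u1 n, u2 n, u3 n} : Finset (Pn n)), mvP g π ∈ SP A2 := by
    intro π hπ
    simp only [Finset.mem_insert, Finset.mem_singleton] at hπ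
    rcases hπ with rfl | rfl | rfl <;> simpa [u1, u2, u3]
  have hs' : ∀ s ∈ ({u1 n, u2 n, u3 n} : Finset (Pn n)) ×ˢ (Finset.univ : Finset (Fin 9)),
      pq (mvP g) s ∈ SQ A2 := by
    intro s hs1
    exact mem_SQ.2 (mem_SP.1 (hs _ (Finset.mem_product.1 hs1).1))
  have s1 : Supp {u1 n, u2 n, u3 n} (sig n) := by
    intro x hx
    simp only [Finset.mem_insert, Finset.mem_singleton, not_or] at hx
    rw [sig, Perm.mul_apply, swap_apply_of_ne_of_ne hx.1 hx.2.2, swap_apply_of_ne_of_ne hx.1 hx.2.1]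
  have s2 : ∀ k : Perm (Fin 9 ⊕ Bool), Supp (({u1 n, u2 n, u3 n} : Finset (Pn n)) ×ˢ
      (Finset.univ : Finset (Fin 9))) (viaEmbeddingHom (eps n) k) := by
    intro k x hx
    refine viaEmbedding_apply_of_notMem _ _ _ ?_
    rintro ⟨y | y, rfl⟩
    · exact hx (by simp [eps])
    · cases y <;> exact hx (by simp [eps])
  have hc : ∀ q, mv g * cst q * (mv g)⁻¹ = cst (pq (mvP g) * q * (pq (mvP g))⁻¹) :=
    conj_cst _ _ (fun _ => rfl)
  have ad : Adm A1 (pat (false, g (x1 n)) (g (x1 n))) := by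
    intro π y h
    by_cases hπ : π = (false, g (x1 n))
    · subst hπ
      simp only [pat, Pi.single_eq_same] at h
      by_cases hy : y = g (x1 n)
      · subst hy; exact ⟨rfl, h1⟩
      · exact absurd (Pi.single_eq_of_ne hy _) h
    · simp [pat, Pi.single_eq_of_ne hπ] at h
  rcases hr with rfl | ⟨j, hj, rfl | rfl⟩
  · simpa using he
  · fin_cases j
    all_goals first | (exfalso; revert hj; decide) | skip
    · change e * (mv g * ptr (sig n) * (mv g)⁻¹) ∈ _
      rw [mv_conj_ptr]; exact mul_ptr hd he (supp_conj s1 _ hs)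
    · change e * (mv g * lmp _ * (mv g)⁻¹) ∈ _
      rw [mv_conj_pat]; exact mul_lmp he ad
    · change e * (mv g * cst _ * (mv g)⁻¹) ∈ _
      rw [hc]; exact mul_cst hd he (supp_conj (s2 _) _ hs')
    · change e * (mv g * cst _ * (mv g)⁻¹) ∈ _
      rw [hc]; exact mul_cst hd he (supp_conj (s2 _) _ hs')
  · fin_cases j
    all_goals first | (exfalso; revert hj; decide) | skip
    · change e * (mv g * (ptr (sig n))⁻¹ * (mv g)⁻¹) ∈ _
      rw [← map_inv ptr, mv_conj_ptr]; exact mul_ptr hd he (supp_conj s1.inv _ hs)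
    · change e * (mv g * (lmp _)⁻¹ * (mv g)⁻¹) ∈ _
      rw [← conj_inv, mv_conj_pat, ← lmp_neg]
      exact mul_lmp he (fun π y h => ad π y (by simpa using h))
    · change e * (mv g * (cst _)⁻¹ * (mv g)⁻¹) ∈ _
      rw [← map_inv cst, hc]; exact mul_cst hd he (supp_conj (s2 _).inv _ hs')
    · change e * (mv g * (cst _)⁻¹ * (mv g)⁻¹) ∈ _
      rw [← map_inv cst, hc]; exact mul_cst hd he (supp_conj (s2 _).inv _ hs')

end

lemma ncard_Nf (A1 A2 : Finset (X n)) (M : ℕ) (hM : 1 ≤ M) (h1 : A1.card ≤ M) (h2 : A2.card ≤ M) :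
    (Nf A1 A2).ncard ≤ (18 * M) ^ (21 * M) := by
  classical
  let Fq := Finset.univ.filter fun q : Perm (Pn n × Fin 9) => ∀ x, x ∉ SQ A2 → q x = x
  let Fp := Finset.univ.filter fun q : Perm (Pn n) => ∀ x, x ∉ SP A2 → q x = x
  let FF := Finset.univ.filter fun F : Pn n → X n → Fin 9 => Adm A1 F
  have cq : Fq.card ≤ (18 * M) ^ (18 * M) := by
    refine (card_supp _).trans ?_
    have : (SQ A2).card ≤ 18 * M := by simp [SQ, SP]; omega
    exact (Nat.pow_le_pow_left this _).trans (Nat.pow_le_pow_right (by omega) this)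
  have cp : Fp.card ≤ (18 * M) ^ (2 * M) := by
    refine (card_supp _).trans ?_
    have : (SP A2).card ≤ 2 * M := by simp [SP]; omega
    exact (Nat.pow_le_pow_left (by omega) _).trans (Nat.pow_le_pow_right (by omega) this)
  have cF : FF.card ≤ (18 * M) ^ M := by
    have := Finset.card_le_card_of_injOn (s := FF) (t := (Finset.univ : Finset (A1 → Fin 9)))
      (fun F y => F (false, y) y) (by simp) (by
        intro F hF F' hF' h
        have a1 : Adm A1 F := by simpa [FF] using hF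
        have a2 : Adm A1 F' := by simpa [FF] using hF'
        funext π y
        by_cases hh : π = (false, y) ∧ y ∈ A1
        · obtain ⟨rfl, hy⟩ := hh
          exact congrFun h ⟨y, hy⟩
        · have b1 : F π y = 0 := by by_contra hc; exact hh (a1 π y hc)
          have b2 : F' π y = 0 := by by_contra hc; exact hh (a2 π y hc)
          rw [b1, b2])
    simp only [Finset.card_univ, Fintype.card_fun, Fintype.card_fin, Fintype.card_coe] at this
    exact this.trans ((Nat.pow_le_pow_left (by omega) _).trans (Nat.pow_le_pow_right (by omega) h1))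
  have hsub : Nf A1 A2 ⊆ ((Fq ×ˢ Fp ×ˢ FF).image fun t => cst t.1 * ptr t.2.1 * lmp t.2.2 :
      Finset (Perm (Om n))) := by
    rintro _ ⟨q, p, F, hq, hp, hF, rfl⟩
    refine Finset.mem_coe.2 (Finset.mem_image.2 ⟨(q, p, F), ?_, rfl⟩)
    simp only [Finset.mem_product, Fq, Fp, FF, Finset.mem_filter, Finset.mem_univ, true_and]
    exact ⟨hq, hp, hF⟩
  refine (Set.ncard_le_ncard hsub (Finset.finite_toSet _)).trans ?_
  rw [Set.ncard_coe_finset]
  refine Finset.card_image_le.trans ?_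
  rw [Finset.card_product, Finset.card_product,
    show 21 * M = 18 * M + (2 * M + M) by ring, pow_add, pow_add]
  exact Nat.mul_le_mul cq (Nat.mul_le_mul cp cF)

end Pool.Agent.H794Z.Gad
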