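import Pool.Agent.H794Z.Basic

set_option autoImplicit false
set_option linter.unusedSectionVars false
open Pointwise

namespace Pool.Agent.H794Z.UEG

variable {G W : Type} [Group G] [Group W] [DecidableEq G]

/-- Translation of a function. -/
def tr (g : G) (m : G → ZMod 2) : G → ZMod 2 := fun h => m (g⁻¹ * h)

lemma tr_add (g : G) (m m' : G → ZMod 2) : tr g (m + m') = tr g m + tr g m' := rfl
lemma tr_tr (g g' : G) (m : G → ZMod 2) : tr g (tr g' m) = tr (g * g') m := by
  funext h; simp [tr, mul_assoc]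
lemma tr_one (m : G → ZMod 2) : tr 1 m = m := by funext h; simp [tr]
lemma tr_zero (g : G) : tr g (0 : G → ZMod 2) = 0 := rfl

lemma two {α : Type} (v : α → ZMod 2) : v + v = 0 := by
  funext a; exact CharTwo.add_self_eq_zero (v a)

/-- Indicator of a point. -/
def dl (x : G) : G → ZMod 2 := Pi.single x 1

lemma tr_dl (g x : G) : tr g (dl x) = dl (g * x) := by
  funext h
  simp only [tr, dl, Pi.single_apply]
  congr 1
  apply propext
  constructor
  · rintro rfl; simp
  · rintro rfl; simp

section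
variable (π : W →* G) (D : W → G → ZMod 2) (hD : ∀ u v, D (u * v) = D u + tr (π u) (D v))
variable (U : Set W) (hU : ∀ u ∈ U, u⁻¹ ∈ U)
include hD

lemma D_one : D 1 = 0 := by
  have := hD 1 1
  rw [mul_one, map_one, tr_one, two] at this
  exact this

lemma D_inv (u : W) : tr (π u) (D u⁻¹) = D u := by
  have := hD u u⁻¹
  rw [mul_inv_cancel, D_one π D hD] at this
  have h2 := two (D u)
  rw [this] at h2
  exact (add_left_cancel h2).symm

include hU in
lemma trail {ι : Type} [DecidableEq ι] (src : ι → G) (lab : ι → W) (n : ℕ) :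
    ∀ (F : Finset ι), F.card = n → (∀ e ∈ F, lab e ∈ U) → ∀ x y : G,
      ∑ e ∈ F, (dl (src e) + dl (src e * π (lab e))) = dl x + dl y →
      ∃ (l : List W) (F' : Finset ι), F' ⊆ F ∧ (∀ u ∈ l, u ∈ U) ∧ l.length + F'.card ≤ F.card ∧
        x * π l.prod = y ∧ ∑ e ∈ F', (dl (src e) + dl (src e * π (lab e))) = 0 ∧
        ∑ e ∈ F, tr (src e) (D (lab e)) = tr x (D l.prod) + ∑ e ∈ F', tr (src e) (D (lab e)) := by
  induction n with
  | zero =>
    intro F hF _ x y h
    rw [Finset.card_eq_zero] at hF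
    subst hF
    have hxy : x = y := by
      by_contra hne
      have := congrFun h x
      simp [dl, hne] at this
    subst hxy
    exact ⟨[], ∅, by simp, by simp, by simp, by simp, by simp, by simp [D_one π D hD, tr_zero]⟩
  | succ n ih =>
    intro F hF hl x y h
    by_cases hxy : x = y
    · subst hxy
      exact ⟨[], F, by simp, by simp, by simp, by simp, by rw [h, two],
        by simp [D_one π D hD, tr_zero]⟩
    · have h1 : (∑ e ∈ F, (dl (src e) + dl (src e * π (lab e)))) x ≠ 0 := by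
        rw [h]; simp [dl, hxy]
      rw [Finset.sum_apply] at h1
      obtain ⟨e, he, hne⟩ := Finset.exists_ne_zero_of_sum_ne_zero h1
      have hs : ∀ f : ι → G → ZMod 2, ∑ e ∈ F, f e = f e + ∑ e ∈ F.erase e, f e :=
        fun f => (Finset.add_sum_erase F f he).symm
      have hc : (F.erase e).card = n := by rw [Finset.card_erase_of_mem he]; omega
      have hl' : ∀ e' ∈ F.erase e, lab e' ∈ U := fun e' h' => hl e' (Finset.mem_of_mem_erase h')
      have hb : ∑ e ∈ F.erase e, (dl (src e) + dl (src e * π (lab e)))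
          = (dl (src e) + dl (src e * π (lab e))) + (dl x + dl y) := by
        rw [← h, hs, ← add_assoc, two, zero_add]
      by_cases hx : src e = x
      · obtain ⟨l, F', h1, h2, h3, h4, h5, h6⟩ := ih (F.erase e) hc hl' (x * π (lab e)) y (by
          rw [hb, hx]
          have := two (dl x)
          linear_combination this)
        refine ⟨lab e :: l, F', h1.trans (Finset.erase_subset _ _), ?_, ?_, ?_, h5, ?_⟩
        · intro u hu
          rcases List.mem_cons.1 hu with rfl | hu
          · exact hl e he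
          · exact h2 u hu
        · simp only [List.length_cons]; omega
        · rw [List.prod_cons, map_mul, ← mul_assoc, h4]
        · rw [hs, h6, List.prod_cons, hD, tr_add, tr_tr, hx, add_assoc]
      · have hx' : src e * π (lab e) = x := by
          by_contra hx'
          apply hne
          simp [dl, Ne.symm hx, Ne.symm hx']
        obtain ⟨l, F', h1, h2, h3, h4, h5, h6⟩ := ih (F.erase e) hc hl' (src e) y (by
          rw [hb, hx']
          have := two (dl x)
          linear_combination this)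
        refine ⟨(lab e)⁻¹ :: l, F', h1.trans (Finset.erase_subset _ _), ?_, ?_, ?_, h5, ?_⟩
        · intro u hu
          rcases List.mem_cons.1 hu with rfl | hu
          · exact hU _ (hl e he)
          · exact h2 u hu
        · simp only [List.length_cons]; omega
        · rw [List.prod_cons, map_mul, ← mul_assoc, ← hx', map_inv, mul_inv_cancel_right, h4]
        · rw [hs, h6, List.prod_cons, hD, tr_add, tr_tr, ← hx', ← tr_tr, D_inv π D hD, map_inv,
            mul_inv_cancel_right, add_assoc]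

omit hD in
/-- A tour through all points of `Q`. -/
def Tour (Q : Set G) (L : ℕ) (d : G → ZMod 2) : Prop :=
  ∃ t : List W, (∀ u ∈ t, u ∈ U) ∧ t.length ≤ L ∧
    (∀ g ∈ Q, ∃ t1 t2, t = t1 ++ t2 ∧ π t1.prod = g) ∧ D t.prod = d

lemma tour_insert {Q Q' : Set G} {L : ℕ} {d : G → ZMod 2} (h : Tour π D U Q L d) {g : G}
    (hg : g ∈ Q) (c : List W) (hc : ∀ u ∈ c, u ∈ U) (hc1 : π c.prod = 1)
    (hQ : ∀ g' ∈ Q', g' ∈ Q ∨ ∃ c1 c2, c = c1 ++ c2 ∧ g * π c1.prod = g') :
    Tour π D U Q' (L + c.length) (d + tr g (D c.prod)) := by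
  obtain ⟨t, h1, h2, h3, h4⟩ := h
  obtain ⟨t1, t2, rfl, hg1⟩ := h3 g hg
  refine ⟨t1 ++ c ++ t2, ?_, ?_, ?_, ?_⟩
  · intro u hu
    simp only [List.mem_append] at hu h1
    rcases hu with (hu | hu) | hu
    · exact h1 u (Or.inl hu)
    · exact hc u hu
    · exact h1 u (Or.inr hu)
  · simp only [List.length_append] at h2 ⊢; omega
  · intro g' hg'
    rcases hQ g' hg' with hq | ⟨c1, c2, rfl, rfl⟩
    · obtain ⟨s1, s2, hs, rfl⟩ := h3 g' hq
      rcases List.append_eq_append_iff.1 hs with ⟨a, rfl, rfl⟩ | ⟨a, rfl, rfl⟩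
      · exact ⟨t1 ++ c ++ a, s2, by simp, by simp [hc1]⟩
      · exact ⟨s1, a ++ c ++ t2, by simp, rfl⟩
    · exact ⟨t1 ++ c1, c2 ++ t2, by simp, by simp [hg1]⟩
  · rw [← h4]
    simp only [List.prod_append, mul_assoc, hD, hg1, hc1, tr_one, tr_add]
    abel

include hU in
lemma tour_even {ι : Type} [DecidableEq ι] (src : ι → G) (lab : ι → W) (Q : Set G) (n : ℕ) :
    ∀ (F : Finset ι) (L : ℕ) (d : G → ZMod 2), F.card ≤ n → (∀ e ∈ F, lab e ∈ U) →
      (∀ e ∈ F, src e ∈ Q) → ∑ e ∈ F, (dl (src e) + dl (src e * π (lab e))) = 0 →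
      Tour π D U Q L d → Tour π D U Q (L + F.card) (d + ∑ e ∈ F, tr (src e) (D (lab e))) := by
  induction n with
  | zero =>
    intro F L d hF _ _ _ h
    rw [Nat.le_zero, Finset.card_eq_zero] at hF
    subst hF
    simpa using h
  | succ n ih =>
    intro F L d hF hl hs hb h
    rcases F.eq_empty_or_nonempty with rfl | ⟨e, he⟩
    · simpa using h
    have hs' : ∀ f : ι → G → ZMod 2, ∑ e ∈ F, f e = f e + ∑ e ∈ F.erase e, f e :=
      fun f => (Finset.add_sum_erase F f he).symm
    have hc : (F.erase e).card + 1 = F.card := Finset.card_erase_add_one he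
    obtain ⟨l, F', h1, h2, h3, h4, h5, h6⟩ := trail π D hD U hU src lab _ (F.erase e) rfl
      (fun e' h' => hl e' (Finset.mem_of_mem_erase h')) (src e * π (lab e)) (src e) (by
        rw [hs'] at hb
        have h1 := two (dl (src e))
        have h2 := two (dl (src e * π (lab e)))
        linear_combination hb - h1 - h2)
    have hsub : F' ⊆ F := h1.trans (Finset.erase_subset _ _)
    have t1 := tour_insert π D hD U h (hs e he) (lab e :: l) (by
        intro u hu
        rcases List.mem_cons.1 hu with rfl | hu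
        · exact hl e he
        · exact h2 u hu) (by
        rw [List.prod_cons, map_mul]
        rw [mul_assoc] at h4
        exact mul_eq_left.1 h4) (Q' := Q) (fun g' hg' => Or.inl hg')
    have t2 := ih F' _ _ (by omega) (fun e' h' => hl e' (hsub h')) (fun e' h' => hs e' (hsub h')) h5 t1
    obtain ⟨t, a1, a2, a3, a4⟩ := t2
    refine ⟨t, a1, ?_, a3, ?_⟩
    · simp only [List.length_cons] at a2; omega
    · rw [a4, hs', h6, List.prod_cons, hD, tr_add, tr_tr]
      abel

include hU in
lemma tour_ball (hfin : U.Finite) (h1 : (1 : W) ∈ U) (m : ℕ) :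
    ∃ d, Tour π D U ((π '' U) ^ m) (2 * ((π '' U) ^ m).ncard) d := by
  have hV : (π '' U).Finite := hfin.image _
  have hV1 : (1 : G) ∈ π '' U := ⟨1, h1, map_one π⟩
  induction m with
  | zero =>
    refine ⟨_, [], by simp, by simp, ?_, rfl⟩
    intro g hg
    rw [pow_zero, Set.mem_one] at hg
    exact ⟨[], [], rfl, by simp [hg]⟩
  | succ m ih =>
    have key : ∀ R : Set G, R.Finite → R ⊆ (π '' U) ^ (m + 1) →
        ∃ d, Tour π D U ((π '' U) ^ m ∪ R) (2 * ((π '' U) ^ m).ncard + 2 * R.ncard) d := by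
      intro R hR
      induction R, hR using Set.Finite.induction_on with
      | empty => intro _; simpa using ih
      | @insert a s has hs ih2 =>
        intro hsub
        obtain ⟨d, hd⟩ := ih2 ((Set.subset_insert _ _).trans hsub)
        have ha := hsub (Set.mem_insert _ _)
        rw [pow_succ] at ha
        obtain ⟨g, hg, _, ⟨u, hu, rfl⟩, rfl⟩ := ha
        have := tour_insert π D hD U hd (g := g) (Or.inl hg) [u, u⁻¹] (by
            intro v hv
            simp only [List.mem_cons, List.not_mem_nil, or_false] at hv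
            rcases hv with rfl | rfl
            · exact hu
            · exact hU _ hu) (by simp) (Q' := (π '' U) ^ m ∪ insert (g * π u) s) (by
            rintro g' (h | rfl | h)
            · exact Or.inl (Or.inl h)
            · exact Or.inr ⟨[u], [u⁻¹], rfl, by simp⟩
            · exact Or.inl (Or.inr h))
        rw [Set.ncard_insert_of_notMem has hs]
        exact ⟨_, by simpa [mul_add, add_assoc] using this⟩
    have hsub : (π '' U) ^ m ⊆ (π '' U) ^ (m + 1) := Set.pow_subset_pow_right hV1 (Nat.le_succ m)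
    obtain ⟨d, hd⟩ := key ((π '' U) ^ (m + 1) \ (π '' U) ^ m) ((fin_pow hV _).sdiff)
      Set.sdiff_subset
    rw [Set.union_sdiff_cancel hsub, ← mul_add, add_comm ((π '' U) ^ m).ncard,
      Set.ncard_sdiff_add_ncard_of_subset hsub (fin_pow hV _)] at hd
    exact ⟨d, hd⟩

include hU in
lemma two_pow_le (hfin : U.Finite) (h1 : (1 : W) ∈ U) (δ : W) (hδ1 : π δ = 1) (hδ : D δ = dl 1)
    (ρ r : ℕ) (hρ : δ ∈ U ^ ρ)
    (hr : ((π '' U) ^ (r + ρ)).ncard ≤ 2 * ((π '' U) ^ r).ncard) :
    2 ^ ((π '' U) ^ r).ncard ≤ (U ^ (7 * ((π '' U) ^ r).ncard)).ncard := by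
  classical
  have hV : (π '' U).Finite := hfin.image _
  have hV1 : (1 : G) ∈ π '' U := ⟨1, h1, map_one π⟩
  set V := π '' U with hVdef
  let P : Finset G := (fin_pow hV (r + ρ)).toFinset
  let P0 : Finset G := (fin_pow hV r).toFinset
  have hP : P.card = (V ^ (r + ρ)).ncard := (Set.ncard_eq_toFinset_card _ _).symm
  have hP0 : P0.card = (V ^ r).ncard := (Set.ncard_eq_toFinset_card _ _).symm
  let res : ((G → ZMod 2) × (G → ZMod 2)) →ₗ[ZMod 2] ((P → ZMod 2) × (P0 → ZMod 2)) :=
    (LinearMap.funLeft (ZMod 2) (ZMod 2) (Subtype.val : P → G)).prodMap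
      (LinearMap.funLeft (ZMod 2) (ZMod 2) (Subtype.val : P0 → G))
  let φ : G × W → (P → ZMod 2) × (P0 → ZMod 2) :=
    fun e => res (dl e.1 + dl (e.1 * π e.2), tr e.1 (D e.2))
  let E : Set (G × W) := {e | e.1 ∈ V ^ (r + ρ) ∧ e.2 ∈ U ∧ e.1 * π e.2 ∈ V ^ (r + ρ)}
  have walk : ∀ (l : List W) (j : ℕ) (g : G), (∀ u ∈ l, u ∈ U) → g ∈ V ^ j →
      j + l.length ≤ r + ρ →
      res (dl g + dl (g * π l.prod), tr g (D l.prod)) ∈ Submodule.span (ZMod 2) (φ '' E) := by
    intro l
    induction l with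
    | nil =>
      intro j g _ _ _
      simp only [List.prod_nil, map_one, mul_one, two, D_one π D hD, tr_zero]
      exact (map_zero res).symm ▸ Submodule.zero_mem _
    | cons u l ih =>
      intro j g hl hg hj
      simp only [List.length_cons] at hj
      have hu : u ∈ U := hl u (by simp)
      have hg' : g * π u ∈ V ^ (j + 1) := by
        rw [pow_succ]; exact Set.mul_mem_mul hg ⟨u, hu, rfl⟩
      have e1 := ih (j + 1) (g * π u) (fun v hv => hl v (by simp [hv])) hg' (by omega)
      have e2 : φ (g, u) ∈ Submodule.span (ZMod 2) (φ '' E) :=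
        Submodule.subset_span ⟨(g, u), ⟨Set.pow_subset_pow_right hV1 (by omega) hg, hu,
          Set.pow_subset_pow_right hV1 (by omega) hg'⟩, rfl⟩
      have := Submodule.add_mem _ e2 e1
      convert this using 1
      simp only [φ]
      rw [← map_add]
      congr 1
      rw [Prod.mk_add_mk, List.prod_cons, hD, tr_add, tr_tr, map_mul, ← mul_assoc]
      congr 1
      have := two (dl (g * π u))
      linear_combination -this
  have target : ∀ m : P0 → ZMod 2, ((0 : P → ZMod 2), m) ∈ Submodule.span (ZMod 2) (φ '' E) := by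
    intro m
    obtain ⟨l, hl1, hl2, hl3⟩ := (mem_pow_iff_list U ρ δ).1 hρ
    have hs : ((0 : P → ZMod 2), m) = ∑ h : P0, m h • ((0 : P → ZMod 2), Pi.single h (1 : ZMod 2)) := by
      ext x
      · simp [Prod.fst_sum]
      · simp [Prod.snd_sum, Finset.sum_apply, Pi.single_apply]
    rw [hs]
    refine Submodule.sum_mem _ fun h _ => Submodule.smul_mem _ _ ?_
    have := walk l r h hl2 ((Set.Finite.mem_toFinset _).1 h.2) (by omega)
    rw [hl3, hδ1, mul_one, two, hδ, tr_dl, mul_one] at this
    convert this using 1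
    ext x
    · simp [res]
    · change (Pi.single h (1 : ZMod 2) : P0 → ZMod 2) x = (Pi.single (h : G) (1 : ZMod 2) : G → ZMod 2) x
      by_cases hx : x = h
      · subst hx; simp
      · rw [Pi.single_eq_of_ne hx, Pi.single_eq_of_ne (fun h' => hx (Subtype.ext h'))]
  obtain ⟨b, hbE, hspan, hli⟩ := exists_linearIndependent (ZMod 2) (φ '' E)
  have : Fintype b := Fintype.ofFinite b
  have hcard : Fintype.card b ≤ P.card + P0.card := by
    have := hli.fintype_card_le_finrank
    simpa [Module.finrank_prod] using this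
  choose e he hφ using fun v : b => hbE v.2
  obtain ⟨d0, hd0⟩ := tour_ball π D hD U hU hfin h1 (r + ρ)
  have main : ∀ m : P0 → ZMod 2, ∃ w ∈ U ^ (7 * (V ^ r).ncard),
      ∀ h : P0, D w h = d0 h + m h := by
    intro m
    have hm := target m
    rw [← hspan] at hm
    have hr' : b = Set.range (Subtype.val : b → _) := by simp
    rw [hr'] at hm
    obtain ⟨c, hc⟩ := (Submodule.mem_span_range_iff_exists_fun (ZMod 2)).1 hm
    let F : Finset b := Finset.univ.filter fun v => c v = 1
    have hF : ∑ v ∈ F, φ (e v) = (0, m) := by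
      rw [← hc, Finset.sum_filter]
      refine Finset.sum_congr rfl fun v _ => ?_
      rw [hφ]
      have : ∀ z : ZMod 2, z = 0 ∨ z = 1 := by decide
      rcases this (c v) with h | h <;> simp [h]
    have hF' : res (∑ v ∈ F, (dl (e v).1 + dl ((e v).1 * π (e v).2)),
        ∑ v ∈ F, tr (e v).1 (D (e v).2)) = (0, m) := by
      rw [← hF, ← map_sum, ← prod_mk_sum]
    have hb0 : ∑ v ∈ F, (dl (e v).1 + dl ((e v).1 * π (e v).2)) = 0 := by
      funext x
      by_cases hx : x ∈ P
      · have := congrFun (congrArg Prod.fst hF') ⟨x, hx⟩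
        simpa [res, LinearMap.funLeft_apply] using this
      · rw [Finset.sum_apply]
        refine Finset.sum_eq_zero fun v _ => ?_
        have h1 : x ≠ (e v).1 := by
          rintro rfl; exact hx (by simpa [P] using (he v).1)
        have h2 : x ≠ (e v).1 * π (e v).2 := by
          rintro rfl; exact hx (by simpa [P] using (he v).2.2)
        simp [dl, h1, h2]
    obtain ⟨t, a1, a2, _, a4⟩ := tour_even π D hD U hU (fun v : b => (e v).1) (fun v => (e v).2)
      (V ^ (r + ρ)) _ F _ _ le_rfl (fun v _ => (he v).2.1) (fun v _ => (he v).1) hb0 hd0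
    refine ⟨t.prod, prod_mem_pow h1 a1 ?_, fun h => ?_⟩
    · have : F.card ≤ Fintype.card b := Finset.card_le_univ F
      have a2' : t.length ≤ 2 * (V ^ (r + ρ)).ncard + F.card := a2
      omega
    · rw [a4]
      have := congrFun (congrArg Prod.snd hF') h
      simp only [res, LinearMap.prodMap_apply, LinearMap.funLeft_apply] at this
      rw [Pi.add_apply, this]
  choose w hw hw' using main
  have hinj : Function.Injective w := by
    intro m m' h
    funext x
    have e1 := hw' m x
    rw [h, hw' m' x] at e1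
    exact (add_left_cancel e1).symm
  calc 2 ^ (V ^ r).ncard = (Set.range w).ncard := by
        rw [Set.ncard_range_of_injective hinj, Nat.card_eq_fintype_card]
        simp [hP0]
    _ ≤ _ := Set.ncard_le_ncard (by rintro _ ⟨m, rfl⟩; exact hw m) (fin_pow hfin _)

end

/-- In an infinite group of subexponential growth, there are arbitrarily large Folner balls. -/
lemma folner [Infinite G] {V : Set G} (hV : V.Finite) (h1 : (1 : G) ∈ V)
    (hgen : ∀ g : G, ∃ n, g ∈ V ^ n) (hsub : ∀ c : ℝ, 1 < c → Rate V c) (ρ N : ℕ) :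
    ∃ r, N ≤ (V ^ r).ncard ∧ (V ^ (r + ρ)).ncard ≤ 2 * (V ^ r).ncard := by
  obtain ⟨s, hs⟩ := Infinite.exists_subset_card_eq G N
  obtain ⟨r0, hr0⟩ := exists_uniform_pow s.finite_toSet h1 (fun u _ => hgen u)
  have hN : N ≤ (V ^ r0).ncard := by
    rw [← hs, ← Set.ncard_coe_finset]
    exact Set.ncard_le_ncard hr0 (fin_pow hV _)
  by_contra hcon
  push Not at hcon
  have key : ∀ k : ℕ, 2 ^ k ≤ (V ^ (r0 + k * ρ)).ncard := by
    intro k
    induction k with
    | zero =>
      simp only [pow_zero]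
      exact (Set.ncard_pos (fin_pow hV _)).2 ⟨1, Set.one_mem_pow h1⟩
    | succ k ih =>
      have := hcon (r0 + k * ρ) (hN.trans (ncard_pow_mono hV h1 (by omega)))
      rw [Nat.succ_mul, ← add_assoc, pow_succ]
      omega
  have hc : (1 : ℝ) < (3 / 2 : ℝ) ^ (1 / ((ρ : ℝ) + 1)) :=
    Real.one_lt_rpow (by norm_num) (by positivity)
  set c := (3 / 2 : ℝ) ^ (1 / ((ρ : ℝ) + 1)) with hcdef
  have hc2 : c ^ ρ ≤ 3 / 2 := by
    have : c ^ (ρ + 1) = 3 / 2 := by
      rw [hcdef, ← Real.rpow_natCast, ← Real.rpow_mul (by norm_num)]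
      push_cast
      rw [one_div_mul_cancel (by positivity), Real.rpow_one]
    rw [← this]
    exact pow_le_pow_right₀ hc.le (Nat.le_succ _)
  obtain ⟨C, hC⟩ := hsub c hc
  have hC0 : 0 ≤ C := by
    have := hC 0
    simp only [pow_zero, mul_one] at this
    exact le_trans (by positivity) this
  have hk : ∀ k : ℕ, (4 / 3 : ℝ) ^ k ≤ C * c ^ r0 := by
    intro k
    have e1 : (2 : ℝ) ^ k ≤ C * c ^ (r0 + k * ρ) := by
      refine le_trans ?_ (hC _)
      exact_mod_cast key k
    have e2 : c ^ (r0 + k * ρ) ≤ c ^ r0 * (3 / 2) ^ k := by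
      rw [pow_add, mul_comm k, pow_mul]
      gcongr
    have e3 : (2 : ℝ) ^ k = (4 / 3) ^ k * (3 / 2) ^ k := by rw [← mul_pow]; norm_num
    have e4 : (0 : ℝ) < (3 / 2) ^ k := by positivity
    have : (4 / 3 : ℝ) ^ k * (3 / 2) ^ k ≤ (C * c ^ r0) * (3 / 2) ^ k := by
      rw [← e3, mul_assoc]
      exact e1.trans (mul_le_mul_of_nonneg_left e2 hC0)
    exact le_of_mul_le_mul_right this e4
  obtain ⟨k, hk'⟩ := pow_unbounded_of_one_lt (C * c ^ r0) (by norm_num : (1 : ℝ) < 4 / 3)
  exact absurd (hk k) (not_le.2 hk')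

theorem ueg [Infinite G] (π : W →* G) (hπ : Function.Surjective π) (D : W → G → ZMod 2)
    (hD : ∀ u v, D (u * v) = D u + tr (π u) (D v)) (δ : W) (hδ1 : π δ = 1) (hδ : D δ = dl 1)
    (hsub : ∀ V : Set G, V.Finite → ∀ c : ℝ, 1 < c → Rate V c)
    (S : Set W) (hS : S.Finite) (hgen : Subgroup.closure S = ⊤) (n : ℕ) :
    ((2 : ℝ) ^ (1 / 8 : ℝ)) ^ n ≤ ((sy S ^ n).ncard : ℝ) := by
  have hfin := sy_finite hS
  have h1 := one_mem_sy S
  have hall : ∀ w : W, ∃ n, w ∈ sy S ^ n := fun w => exists_mem_pow (by rw [hgen]; trivial)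
  obtain ⟨ρ, hρ⟩ := hall δ
  rcases Nat.eq_zero_or_pos n with rfl | hn
  · rw [pow_zero, pow_zero, ← Set.singleton_one, Set.ncard_singleton]; simp
  obtain ⟨r, hr1, hr2⟩ := folner (V := π '' sy S) (hfin.image _) ⟨1, h1, map_one π⟩ (by
    intro g
    obtain ⟨w, rfl⟩ := hπ g
    obtain ⟨m, hm⟩ := hall w
    refine ⟨1 * m, map_mem_pow π (fun u hu => ?_) hm⟩
    rw [pow_one]; exact ⟨u, hu, rfl⟩) (hsub _ (hfin.image _)) ρ n
  have key := two_pow_le π D hD (sy S) (fun u => inv_mem_sy) hfin h1 δ hδ1 hδ ρ r hρ hr2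
  set p := ((π '' sy S) ^ r).ncard
  set c := (2 : ℝ) ^ (1 / 8 : ℝ) with hc
  have hc1 : 1 ≤ c := Real.one_le_rpow (by norm_num) (by norm_num)
  have hc8 : c ^ 8 = 2 := by
    rw [hc, ← Real.rpow_natCast, ← Real.rpow_mul (by norm_num)]; norm_num
  by_contra hcon
  push Not at hcon
  set k := 7 * p / n + 1 with hk
  have h2 : 7 * p ≤ n * k := by
    have := Nat.div_add_mod (7 * p) n
    have := Nat.mod_lt (7 * p) hn
    rw [hk]; nlinarith
  have h3 : n * k ≤ 8 * p := by
    have := Nat.mul_div_le (7 * p) n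
    rw [hk]; nlinarith
  have e1 : (2 : ℝ) ^ p ≤ ((sy S ^ n).ncard : ℝ) ^ k := by
    exact_mod_cast key.trans ((ncard_pow_mono hfin h1 h2).trans (ncard_pow_mul_le hfin n k))
  have e2 : ((sy S ^ n).ncard : ℝ) ^ k < (c ^ n) ^ k :=
    pow_lt_pow_left₀ hcon (by positivity) (Nat.succ_ne_zero _)
  have e3 : (c ^ n) ^ k ≤ 2 ^ p := by
    rw [← pow_mul, ← hc8, ← pow_mul]
    exact pow_le_pow_right₀ hc1 h3
  linarith

end Pool.Agent.H794Z.UEG
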