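import Pool.Agent.H794Z.Tower
import Pool.Agent.H794Z.UEG

set_option autoImplicit false
set_option linter.unusedSectionVars false
open Pointwise

namespace Pool.Agent.H794Z

variable {A B G : Type} [Group A] [Group B] [Group G] [DecidableEq G]

/-- A lamp at the identity. -/
def lampAt (G : Type) [Group G] [DecidableEq G] (a : A) : LL A G :=
  ⟨SW.bs (Pi.mulSingle 1 a), (Set.finite_singleton (1 : G)).subset Pi.mulSupport_mulSingle_subset⟩

/-- The standard generating set of a lamplighter group. -/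
def std (A : Type) [Group A] (T : Set G) : Set (LL A G) := Set.range (lampAt G) ∪ inl A G '' T

lemma std_finite [Finite A] {T : Set G} (hT : T.Finite) : (std A T).Finite :=
  (Set.finite_range _).union (hT.image _)

lemma std_gen {T : Set G} (hT : Subgroup.closure T = ⊤) : Subgroup.closure (std A T) = ⊤ := by
  refine LL_top _ (fun g => ?_) fun a => ⟨lampAt G a, Subgroup.subset_closure (Or.inl ⟨a, rfl⟩), rfl⟩
  have : Subgroup.closure T ≤ (Subgroup.closure (std A T)).comap (inl A G) := by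
    rw [Subgroup.closure_le]
    intro t ht
    exact Subgroup.subset_closure (Or.inr ⟨t, ht, rfl⟩)
  exact this (by rw [hT]; trivial)

/-- Relabelling the lamps. -/
def tf (e : A → B) (he : e 1 = 1) (w : LL A G) : LL B G :=
  ⟨⟨fun x => e (w.1.fn x), w.1.top⟩, w.2.subset fun x hx h => hx (by
    change e (w.1.fn x) = 1
    rw [h, he])⟩

lemma tf_lamp (e : A → B) (he : e 1 = 1) (w : LL A G) (a : A) :
    tf e he (w * lampAt G a)
      = tf e he w * lampAt G ((e (w.1.fn w.1.top))⁻¹ * e (w.1.fn w.1.top * a)) := by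
  refine Subtype.ext (SW.ext (funext fun x => ?_) rfl)
  change e (w.1.fn x * Pi.mulSingle (M := fun _ => A) (1 : G) a (w.1.top⁻¹ * x))
    = e (w.1.fn x) * Pi.mulSingle (M := fun _ => B) (1 : G) _ (w.1.top⁻¹ * x)
  by_cases h : w.1.top⁻¹ * x = 1
  · rw [h, Pi.mulSingle_eq_same, Pi.mulSingle_eq_same]
    rw [inv_mul_eq_one] at h
    rw [← h]; simp
  · rw [Pi.mulSingle_eq_of_ne h, Pi.mulSingle_eq_of_ne h, mul_one, mul_one]

lemma tf_inl (e : A → B) (he : e 1 = 1) (w : LL A G) (g : G) :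
    tf e he (w * inl A G g) = tf e he w * inl B G g := by
  refine Subtype.ext (SW.ext (funext fun x => ?_) rfl)
  change e (w.1.fn x * 1) = e (w.1.fn x) * 1
  rw [mul_one, mul_one]

lemma lampAt_inv (a : A) : (lampAt G a)⁻¹ = lampAt G a⁻¹ := by
  refine Subtype.ext ?_
  change (SW.bs (Pi.mulSingle (1 : G) a) : SW A G G)⁻¹ = SW.bs (Pi.mulSingle 1 a⁻¹)
  rw [← map_inv, Pi.mulSingle_inv]

lemma tf_step (e : A → B) (he : e 1 = 1) (T : Set G) (w u : LL A G) (hu : u ∈ sy (std A T)) :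
    ∃ u' ∈ sy (std B T), tf e he (w * u) = tf e he w * u' := by
  rcases hu with ((⟨a, rfl⟩ | ⟨t, ht, rfl⟩) | (⟨a, h⟩ | ⟨t, ht, h⟩)) | h
  · exact ⟨_, subset_sy _ (Or.inl ⟨_, rfl⟩), tf_lamp e he w a⟩
  · exact ⟨_, subset_sy _ (Or.inr ⟨t, ht, rfl⟩), tf_inl e he w t⟩
  · have : u = lampAt G a⁻¹ := by rw [← lampAt_inv, h, inv_inv]
    subst this
    exact ⟨_, subset_sy _ (Or.inl ⟨_, rfl⟩), tf_lamp e he w _⟩
  · have : u = inl A G t⁻¹ := by rw [map_inv, h, inv_inv]
    subst this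
    refine ⟨_, ?_, tf_inl e he w _⟩
    rw [map_inv]
    exact inv_mem_sy (subset_sy _ (Or.inr ⟨t, ht, rfl⟩))
  · rw [Set.mem_singleton_iff] at h
    subst h
    exact ⟨1, one_mem_sy _, by rw [mul_one, mul_one]⟩

lemma tf_ball (e : A → B) (he : e 1 = 1) (T : Set G) (g : LL A G) (n : ℕ) :
    ∀ g' : LL A G, g⁻¹ * g' ∈ sy (std A T) ^ n →
      (tf e he g)⁻¹ * tf e he g' ∈ sy (std B T) ^ n := by
  induction n with
  | zero =>
    intro g' h
    rw [pow_zero, Set.mem_one, inv_mul_eq_one] at h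
    subst h
    simp
  | succ n ih =>
    intro g' h
    rw [pow_succ] at h ⊢
    obtain ⟨a, ha, u, hu, h⟩ := h
    have e1 : g' = g * a * u := by
      simp only at h
      rw [mul_assoc, h]; simp
    obtain ⟨u', hu', h'⟩ := tf_step e he T (g * a) u hu
    rw [e1, h', ← mul_assoc]
    exact Set.mul_mem_mul (ih _ (by simpa using ha)) hu'

lemma tf_tf (e : A → B) (he : e 1 = 1) (e' : B → A) (he' : e' 1 = 1) (h : ∀ a, e' (e a) = a)
    (w : LL A G) : tf e' he' (tf e he w) = w :=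
  Subtype.ext (SW.ext (funext fun _ => h _) rfl)

lemma tf_one (e : A → B) (he : e 1 = 1) : tf e he (1 : LL A G) = 1 :=
  Subtype.ext (SW.ext (funext fun _ => he) rfl)

theorem ueg_lamp [Infinite G] (hsub : ∀ V : Set G, V.Finite → ∀ c : ℝ, 1 < c → Rate V c)
    (S : Set (LL (Multiplicative (ZMod 60)) G)) (hS : S.Finite) (hgen : Subgroup.closure S = ⊤)
    (n : ℕ) : ((2 : ℝ) ^ (1 / 8 : ℝ)) ^ n ≤ ((sy S ^ n).ncard : ℝ) := by
  let φ : ZMod 60 →+* ZMod 2 := ZMod.castHom (by norm_num) _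
  refine UEG.ueg (SW.topHom.comp (LL (Multiplicative (ZMod 60)) G).subtype)
    (fun g => ⟨inl _ G g, rfl⟩) (fun w h => φ (Multiplicative.toAdd (w.1.fn h))) (fun u v => ?_)
    (lampAt G (Multiplicative.ofAdd 1)) rfl ?_ hsub S hS hgen n
  · funext h
    change φ (Multiplicative.toAdd (u.1.fn h * v.1.fn (u.1.top⁻¹ * h))) = _
    rw [toAdd_mul, map_add]
    rfl
  · funext h
    change φ (Multiplicative.toAdd (Pi.mulSingle (M := fun _ => Multiplicative (ZMod 60)) (1 : G)
      (Multiplicative.ofAdd 1) h)) = Pi.single (M := fun _ => ZMod 2) (1 : G) 1 h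
    by_cases hh : h = 1
    · subst hh; simp
    · rw [Pi.mulSingle_eq_of_ne hh, Pi.single_eq_of_ne hh]; simp

lemma exists_equiv : ∃ e : Multiplicative (ZMod 60) ≃ alternatingGroup (Fin 5), e 1 = 1 := by
  classical
  have : Fintype.card (Multiplicative (ZMod 60)) = Fintype.card (alternatingGroup (Fin 5)) := by
    rw [card_alternatingGroup]; rfl
  let e := Fintype.equivOfCardEq this
  exact ⟨e.trans (Equiv.swap (e 1) 1), by simp⟩

end Pool.Agent.H794Z
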