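import Mathlib

set_option autoImplicit false
set_option linter.unusedSectionVars false

namespace Pool.Agent.H794Z.Grig

/-- The four generators. -/
inductive L : Type
  | a | b | c | d
  deriving DecidableEq

instance : Fintype L := ⟨{L.a, L.b, L.c, L.d}, fun x => by cases x <;> simp⟩

lemma card_L : Fintype.card L = 4 := rfl

/-- Binary words of length `n + 1`. -/
def X : ℕ → Type
  | 0 => Bool
  | n + 1 => Bool × X n

instance instDec : ∀ n, DecidableEq (X n)
  | 0 => inferInstanceAs (DecidableEq Bool)
  | n + 1 => @instDecidableEqProd Bool (X n) _ (instDec n)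

instance instFin : ∀ n, Fintype (X n)
  | 0 => inferInstanceAs (Fintype Bool)
  | n + 1 => @instFintypeProd Bool (X n) _ (instFin n)

/-- The action of the generators. -/
def act : ∀ n, L → X n → X n
  | 0, L.a, x => (!(x : Bool) : Bool)
  | 0, L.b, x => x
  | 0, L.c, x => x
  | 0, L.d, x => x
  | _ + 1, L.a, (e, x) => (!e, x)
  | n + 1, L.b, (false, x) => (false, act n L.a x)
  | n + 1, L.b, (true, x) => (true, act n L.c x)
  | n + 1, L.c, (false, x) => (false, act n L.a x)
  | n + 1, L.c, (true, x) => (true, act n L.d x)
  | _ + 1, L.d, (false, x) => (false, x)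
  | n + 1, L.d, (true, x) => (true, act n L.b x)

lemma act_invol : ∀ n s, Function.Involutive (act n s) := by
  intro n
  induction n with
  | zero => intro s x; cases s <;> cases x <;> rfl
  | succ n ih =>
    rintro s ⟨e, x⟩
    cases s <;> cases e <;> simp only [act, Bool.not_not] <;> first | rfl | rw [ih]

/-- Generators as permutations. -/
def gen (n : ℕ) (s : L) : Equiv.Perm (X n) := (act_invol n s).toPerm

lemma gen_apply (n : ℕ) (s : L) (x : X n) : gen n s x = act n s x := rfl

lemma gen_mul_self (n : ℕ) (s : L) : gen n s * gen n s = 1 := by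
  ext x; exact act_invol n s x

lemma gen_inv (n : ℕ) (s : L) : (gen n s)⁻¹ = gen n s :=
  inv_eq_of_mul_eq_one_right (gen_mul_self n s)

/-- Value of a word. -/
def ev (n : ℕ) (w : List L) : Equiv.Perm (X n) := (w.map (gen n)).prod

@[simp] lemma ev_nil (n : ℕ) : ev n [] = 1 := rfl
lemma ev_cons (n : ℕ) (s : L) (w : List L) : ev n (s :: w) = gen n s * ev n w := by simp [ev]
lemma ev_append (n : ℕ) (w w' : List L) : ev n (w ++ w') = ev n w * ev n w' := by simp [ev]
lemma ev_cons_apply (n : ℕ) (s : L) (w : List L) (x : X n) :
    ev n (s :: w) x = act n s (ev n w x) := by rw [ev_cons]; rfl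

lemma ev_reverse (n : ℕ) (w : List L) : ev n w.reverse = (ev n w)⁻¹ := by
  induction w with
  | nil => simp
  | cons s w ih => rw [List.reverse_cons, ev_append, ih, ev_cons, ev_cons, mul_inv_rev, gen_inv]; simp

/-- Section of a letter. -/
def sc : L → Bool → List L
  | L.a, _ => []
  | L.b, false => [L.a]
  | L.b, true => [L.c]
  | L.c, false => [L.a]
  | L.c, true => [L.d]
  | L.d, false => []
  | L.d, true => [L.b]

/-- Whether a letter is `a`. -/
def isA : L → Bool
  | L.a => true
  | _ => false

/-- Parity of the number of `a`s. -/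
def par : List L → Bool
  | [] => false
  | s :: w => xor (isA s) (par w)

/-- Section of a word. -/
def sec : Bool → List L → List L
  | _, [] => []
  | t, s :: w => sc s t ++ sec (xor t (isA s)) w

lemma ev_succ (n : ℕ) (w : List L) (e : Bool) (x : X n) :
    ev (n + 1) w (e, x) = (xor e (par w), ev n (sec (xor e (par w)) w) x) := by
  induction w with
  | nil => simp [par, sec]
  | cons s w ih =>
    rw [ev_cons_apply, ih]
    cases s <;> cases e <;> cases h : par w <;>
      simp [act, par, sec, sc, isA, h, ev_cons_apply]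

lemma sec_append (t : Bool) (w w' : List L) :
    sec t (w ++ w') = sec t w ++ sec (xor t (par w)) w' := by
  induction w generalizing t with
  | nil => simp [sec, par]
  | cons s w ih => simp [sec, par, ih]

/-- `y` is in the inverted orbit of `x` under `w`. -/
def Pt (n : ℕ) (w : List L) (x y : X n) : Prop := ∃ w1 w2, w = w1 ++ w2 ∧ ev n w1 x = y

lemma pt_self (n : ℕ) (w : List L) (x : X n) : Pt n w x x := ⟨[], w, rfl, rfl⟩

lemma pt_cons {n : ℕ} {s : L} {w : List L} {x y : X n} :
    Pt n (s :: w) x y ↔ y = x ∨ ∃ y', Pt n w x y' ∧ act n s y' = y := by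
  constructor
  · rintro ⟨w1, w2, h, rfl⟩
    cases w1 with
    | nil => exact Or.inl rfl
    | cons s' w1 =>
      simp only [List.cons_append, List.cons.injEq] at h
      obtain ⟨rfl, rfl⟩ := h
      exact Or.inr ⟨_, ⟨w1, w2, rfl, rfl⟩, (ev_cons_apply _ _ _ _).symm⟩
  · rintro (rfl | ⟨y', ⟨w1, w2, rfl, rfl⟩, rfl⟩)
    · exact pt_self _ _ _
    · exact ⟨s :: w1, w2, rfl, ev_cons_apply _ _ _ _⟩

lemma pt_sec {n : ℕ} {w : List L} {e t : Bool} {x y : X n}
    (h : Pt (n + 1) w (e, x) (t, y)) : Pt n (sec t w) x y := by
  obtain ⟨w1, w2, rfl, h⟩ := h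
  rw [ev_succ] at h
  obtain ⟨h1, h2⟩ := Prod.mk.inj h
  rw [h1] at h2
  exact ⟨_, _, sec_append _ _ _, h2⟩

/-- Product of two letters different from `a`. -/
def km : L → L → List L
  | L.b, L.c => [L.d]
  | L.c, L.b => [L.d]
  | L.b, L.d => [L.c]
  | L.d, L.b => [L.c]
  | L.c, L.d => [L.b]
  | L.d, L.c => [L.b]
  | _, _ => []

lemma act_km : ∀ (n : ℕ) (s t : L), s ≠ L.a → t ≠ L.a → ∀ x : X n,
    act n s (act n t x) = ev n (km s t) x := by
  intro n
  induction n with
  | zero => intro s t hs ht x; cases s <;> cases t <;> first | rfl | contradiction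
  | succ n ih =>
    rintro s t hs ht ⟨e, x⟩
    have h1 := ih L.c L.d (by decide) (by decide) x
    have h2 := ih L.d L.c (by decide) (by decide) x
    have h3 := ih L.c L.b (by decide) (by decide) x
    have h4 := ih L.b L.c (by decide) (by decide) x
    have h5 := ih L.d L.b (by decide) (by decide) x
    have h6 := ih L.b L.d (by decide) (by decide) x
    have i1 := act_invol n L.a x
    have i2 := act_invol n L.b x
    have i3 := act_invol n L.c x
    have i4 := act_invol n L.d x
    simp only [km, ev_cons_apply, ev_nil, Equiv.Perm.coe_one, id] at h1 h2 h3 h4 h5 h6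
    cases s <;> cases t <;> cases e <;>
      first
      | contradiction
      | simp only [km, ev_cons_apply, ev_nil, Equiv.Perm.coe_one, id, act, *]

/-- Adding a letter with reduction. -/
def cs (s : L) : List L → List L
  | [] => [s]
  | t :: r => if s = L.a ∨ t = L.a then s :: t :: r else km s t ++ r

/-- Reduction. -/
def red : List L → List L
  | [] => []
  | s :: w => cs s (red w)

lemma ev_cs (n : ℕ) (s : L) (r : List L) : ev n (cs s r) = gen n s * ev n r := by
  cases r with
  | nil => simp [cs, ev_cons]
  | cons t r =>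
    simp only [cs]
    split_ifs with h
    · rw [ev_cons]
    · push Not at h
      ext x
      rw [ev_append, ev_cons]
      exact (act_km n s t h.1 h.2 _).symm

lemma ev_red (n : ℕ) (w : List L) : ev n (red w) = ev n w := by
  induction w with
  | nil => rfl
  | cons s w ih => rw [red, ev_cs, ih, ev_cons]

/-- Fixed by `b, c, d`. -/
def KFix (n : ℕ) (x : X n) : Prop := ∀ s, s ≠ L.a → act n s x = x

lemma pt_red {n : ℕ} {x : X n} (hx : KFix n x) {w : List L} {y : X n} (h : Pt n w x y) :
    Pt n (red w) x y := by
  induction w generalizing y with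
  | nil => exact h
  | cons s w ih =>
    rcases pt_cons.1 h with rfl | ⟨y', h', rfl⟩
    · exact pt_self _ _ _
    · have h2 := ih h'
      rw [red]
      cases hr : red w with
      | nil => rw [hr] at h2; exact pt_cons.2 (Or.inr ⟨y', h2, rfl⟩)
      | cons t r =>
        rw [hr] at h2
        simp only [cs]
        split_ifs with hc
        · exact pt_cons.2 (Or.inr ⟨y', h2, rfl⟩)
        · push Not at hc
          rcases pt_cons.1 h2 with rfl | ⟨y'', ⟨w1, w2, rfl, rfl⟩, rfl⟩
          · rw [hx s hc.1]; exact pt_self _ _ _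
          · refine ⟨km s t ++ w1, w2, by simp, ?_⟩
            rw [act_km n s t hc.1 hc.2, ev_append]; rfl

/-- Weight of a letter. -/
def wl : L → ℕ
  | L.a => 7
  | L.b => 8
  | L.c => 5
  | L.d => 3

/-- Weight of a word. -/
def wt (w : List L) : ℕ := (w.map wl).sum

@[simp] lemma wt_nil : wt [] = 0 := rfl
@[simp] lemma wt_cons (s : L) (w : List L) : wt (s :: w) = wl s + wt w := by simp [wt]
@[simp] lemma wt_append (w w' : List L) : wt (w ++ w') = wt w + wt w' := by simp [wt]

lemma wt_le (w : List L) : wt w ≤ 8 * w.length := by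
  induction w with
  | nil => simp
  | cons s w ih => cases s <;> simp [wl] <;> omega

lemma length_le_wt (w : List L) : w.length ≤ wt w := by
  induction w with
  | nil => simp
  | cons s w ih => cases s <;> simp [wl] <;> omega

lemma wt_red (w : List L) : wt (red w) ≤ wt w := by
  induction w with
  | nil => rfl
  | cons s w ih =>
    rw [red]
    cases hr : red w with
    | nil => simp [cs]
    | cons t r =>
      rw [hr] at ih
      simp only [cs]
      split_ifs with hc
      · simp only [wt_cons] at ih ⊢; omega
      · cases s <;> cases t <;> simp [km, wl] at ih hc ⊢ <;> omega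

/-- Reduced words. -/
def IsRed (w : List L) : Prop := List.IsChain (fun s t => s = L.a ∨ t = L.a) w

lemma isRed_red (w : List L) : IsRed (red w) := by
  induction w with
  | nil => exact List.IsChain.nil
  | cons s w ih =>
    rw [red]
    cases hr : red w with
    | nil => exact List.IsChain.singleton _
    | cons t r =>
      rw [hr] at ih
      simp only [cs]
      split_ifs with hc
      · exact List.IsChain.cons_cons hc ih
      · push Not at hc
        cases r with
        | nil => cases s <;> cases t <;> simp [km, IsRed]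
        | cons u r =>
          have h1 := List.isChain_cons_cons.1 ih
          have hu : u = L.a := h1.1.resolve_left hc.2
          subst hu
          cases s <;> cases t <;> simp [km, IsRed, h1.2]

lemma contraction (w : List L) (h : IsRed w) :
    6 * (wt (sec false w) + wt (sec true w)) ≤ 5 * wt w + 35 ∧
    (w.head? = none ∨ w.head? = some L.a → 6 * (wt (sec false w) + wt (sec true w)) ≤ 5 * wt w) := by
  induction w with
  | nil => simp [sec]
  | cons s w ih =>
    have ih' := ih (List.IsChain.tail h)
    have hh : s ≠ L.a → (w.head? = none ∨ w.head? = some L.a) := by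
      intro hs
      cases w with
      | nil => simp
      | cons t w =>
        have := (List.isChain_cons_cons.1 h).1.resolve_left hs
        simp [this]
    cases s
    · simp [sec, sc, isA, wl]; omega
    · have := ih'.2 (hh (by decide)); simp [sec, sc, isA, wl]; omega
    · have := ih'.2 (hh (by decide)); simp [sec, sc, isA, wl]; omega
    · have := ih'.2 (hh (by decide)); simp [sec, sc, isA, wl]; omega

/-- The two end points of the line. -/
def ep : ∀ n, Bool → X n
  | 0, β => β
  | n + 1, β => (true, ep n β)

lemma kfix_ep (n : ℕ) (β : Bool) : KFix n (ep n β) := by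
  induction n with
  | zero => intro s hs; cases s <;> first | rfl | contradiction
  | succ n ih =>
    intro s hs
    cases s
    · contradiction
    · simp only [ep, act]; rw [ih _ (by decide)]
    · simp only [ep, act]; rw [ih _ (by decide)]
    · simp only [ep, act]; rw [ih _ (by decide)]

lemma ep_ne (n : ℕ) : ep n false ≠ ep n true := by
  induction n with
  | zero => exact Bool.false_ne_true
  | succ n ih => intro h; exact ih (Prod.mk.inj h).2

lemma act_a_ne (n : ℕ) (x : X n) : act n L.a x ≠ x := by
  cases n with
  | zero => cases x <;> exact fun h => Bool.noConfusion h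
  | succ n => obtain ⟨e, x⟩ := x; intro h; have := (Prod.mk.inj h).1; cases e <;> simp at this

lemma length_sec (t : Bool) (w : List L) : (sec t w).length ≤ w.length ∧
    (L.a ∈ w → (sec t w).length < w.length) := by
  induction w generalizing t with
  | nil => simp [sec]
  | cons s w ih =>
    have h1 := (ih (xor t (isA s))).1
    have h2 := (ih (xor t (isA s))).2
    have h3 : (sc s t).length ≤ 1 := by cases s <;> cases t <;> simp [sc]
    simp only [sec, List.length_append, List.length_cons, List.mem_cons]
    refine ⟨by omega, ?_⟩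
    rintro (rfl | h)
    · have : (sc L.a t).length = 0 := rfl
      omega
    · have := h2 h
      omega

lemma far (n : ℕ) (w : List L) (h : ev n w (ep n false) = ep n true) : n < w.length := by
  have ha : ∀ (n : ℕ) (w : List L), ev n w (ep n false) = ep n true → L.a ∈ w := by
    intro n w h
    by_contra hw
    have : ev n w (ep n false) = ep n false := by
      clear h
      induction w with
      | nil => rfl
      | cons s w ih =>
        simp only [List.mem_cons, not_or] at hw
        rw [ev_cons_apply, ih hw.2, kfix_ep n false s (Ne.symm hw.1)]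
    exact ep_ne n (this.symm.trans h)
  induction n generalizing w with
  | zero => exact List.length_pos_of_mem (ha 0 w h)
  | succ n ih =>
    have h1 := ha _ w h
    simp only [ep] at h
    rw [ev_succ] at h
    have := ih _ (Prod.mk.inj h).2
    have := (length_sec (xor true (par w)) w).2 h1
    omega

lemma trans (n : ℕ) (x y : X n) : ∃ w, ev n w x = y := by
  induction n with
  | zero =>
    by_cases h : x = y
    · exact ⟨[], h⟩
    · refine ⟨[L.a], ?_⟩
      cases x <;> cases y <;> first | rfl | exact absurd rfl h
  | succ n ih =>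
    have lift : ∀ (w : List L), ∃ w', ∀ x : X n, ev (n + 1) w' (false, x) = (false, ev n w x) := by
      intro w
      induction w with
      | nil => exact ⟨[], fun _ => rfl⟩
      | cons s w ih2 =>
        obtain ⟨w', hw'⟩ := ih2
        cases s
        · exact ⟨L.b :: w', fun x => by simp [ev_cons_apply, hw', act]⟩
        · exact ⟨L.a :: L.d :: L.a :: w', fun x => by simp [ev_cons_apply, hw', act]⟩
        · exact ⟨L.a :: L.b :: L.a :: w', fun x => by simp [ev_cons_apply, hw', act]⟩
        · exact ⟨L.a :: L.c :: L.a :: w', fun x => by simp [ev_cons_apply, hw', act]⟩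
    obtain ⟨e, x⟩ := x
    obtain ⟨f, y⟩ := y
    obtain ⟨w, rfl⟩ := ih x y
    obtain ⟨w', hw'⟩ := lift w
    cases e <;> cases f
    · exact ⟨w', hw' x⟩
    · exact ⟨L.a :: w', by rw [ev_cons_apply, hw']; rfl⟩
    · exact ⟨w' ++ [L.a], by rw [ev_append]; exact hw' x⟩
    · exact ⟨L.a :: (w' ++ [L.a]), by
        rw [ev_cons_apply, ev_append]
        exact congrArg (act (n + 1) L.a) (hw' x)⟩

/-- The inverted orbit as a finite set. -/
def orb (n : ℕ) (x : X n) : List L → Finset (X n)
  | [] => {x}
  | s :: w => insert x ((orb n x w).image (act n s))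

lemma mem_orb {n : ℕ} {w : List L} {x y : X n} (h : Pt n w x y) : y ∈ orb n x w := by
  induction w generalizing y with
  | nil =>
    obtain ⟨w1, w2, h, rfl⟩ := h
    have : w1 = [] := (List.append_eq_nil_iff.1 h.symm).1
    subst this
    simp [orb]
  | cons s w ih =>
    rcases pt_cons.1 h with rfl | ⟨y', h', rfl⟩
    · simp [orb]
    · exact Finset.mem_insert_of_mem (Finset.mem_image_of_mem _ (ih h'))

lemma card_orb (n : ℕ) (x : X n) (w : List L) : (orb n x w).card ≤ w.length + 1 := by
  induction w with
  | nil => simp [orb]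
  | cons s w ih =>
    refine (Finset.card_insert_le _ _).trans ?_
    have := Finset.card_image_le (s := orb n x w) (f := act n s)
    simp only [List.length_cons]; omega

/-- Codes of depth `k`. -/
def Code : ℕ → Type
  | 0 => List L
  | k + 1 => Bool × Code k × Code k

/-- Size of a code. -/
def size : ∀ k, Code k → ℕ
  | 0, w => List.length w
  | k + 1, (_, c0, c1) => size k c0 + size k c1

/-- The code of a word. -/
def enc : ∀ k, List L → Code k
  | 0, w => w
  | k + 1, w => (par (red w), enc k (sec false (red w)), enc k (sec true (red w)))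

/-- A superset of the inverted orbits read from a code. -/
def dec (n : ℕ) : ∀ k, Code k → Finset (X (n + k))
  | 0, w => orb n (ep n false) w ∪ orb n (ep n true) w
  | k + 1, (_, c0, c1) =>
    ((dec n k c0).image (fun y => ((false, y) : Bool × X (n + k))) ∪
      (dec n k c1).image (fun y => ((true, y) : Bool × X (n + k))) : Finset (Bool × X (n + k)))

lemma ev_eq_of_enc (n k : ℕ) (w w' : List L) (h : enc k w = enc k w') :
    ev (n + k) w = ev (n + k) w' := by
  induction k generalizing w w' with
  | zero => exact congrArg (ev n) h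
  | succ k ih =>
    simp only [enc] at h
    obtain ⟨h1, h2⟩ := Prod.mk.inj h
    obtain ⟨h2, h3⟩ := Prod.mk.inj h2
    rw [← ev_red _ w, ← ev_red _ w']
    ext ⟨e, x⟩
    refine (ev_succ (n + k) _ e x).trans (Eq.trans ?_ (ev_succ (n + k) _ e x).symm)
    rw [← h1]
    cases xor e (par (red w))
    · rw [ih _ _ h2]
    · rw [ih _ _ h3]

lemma mem_dec (n k : ℕ) (β : Bool) (w : List L) (y : X (n + k))
    (h : Pt (n + k) w (ep (n + k) β) y) : y ∈ dec n k (enc k w) := by
  induction k generalizing w with
  | zero =>
    cases β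
    · exact Finset.mem_union_left _ (mem_orb h)
    · exact Finset.mem_union_right _ (mem_orb h)
  | succ k ih =>
    obtain ⟨t, y⟩ := y
    have h1 := pt_red (kfix_ep _ β) h
    have h2 := ih _ y (pt_sec (n := n + k) h1)
    cases t
    · exact Finset.mem_union_left _ (Finset.mem_image_of_mem _ h2)
    · exact Finset.mem_union_right _ (Finset.mem_image_of_mem _ h2)

lemma card_dec (n k : ℕ) (c : Code k) : (dec n k c).card ≤ 2 * size k c + 2 * 2 ^ k := by
  induction k with
  | zero =>
    refine (Finset.card_union_le _ _).trans ?_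
    have h1 := card_orb n (ep n false) c
    have h2 := card_orb n (ep n true) c
    simp only [size]; omega
  | succ k ih =>
    obtain ⟨p, c0, c1⟩ := c
    refine (Finset.card_union_le _ _).trans ?_
    refine (Nat.add_le_add (Finset.card_image_le.trans (ih c0))
      (Finset.card_image_le.trans (ih c1))).trans ?_
    simp only [size, pow_succ]; omega

lemma size_enc (k : ℕ) (w : List L) :
    6 ^ k * (size k (enc k w) + 6) ≤ 5 ^ k * wt w + 6 * 12 ^ k := by
  induction k generalizing w with
  | zero => have := length_le_wt w; simp only [size, enc]; omega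
  | succ k ih =>
    have h0 := ih (sec false (red w))
    have h1 := ih (sec true (red w))
    have h2 := (contraction _ (isRed_red w)).1
    have h3 := wt_red w
    have h4 : 5 ^ k ≤ 6 ^ k := Nat.pow_le_pow_left (by norm_num) k
    simp only [size, enc, pow_succ]
    set A := 5 ^ k
    set B := 6 ^ k
    set s0 := size k (enc k (sec false (red w)))
    set s1 := size k (enc k (sec true (red w)))
    have h5 : A * (6 * (wt (sec false (red w)) + wt (sec true (red w)))) ≤ A * (5 * wt w + 35) :=
      Nat.mul_le_mul_left _ (by omega)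
    nlinarith

lemma gf_list (m : ℕ) (S : Finset (List L)) (hS : ∀ w ∈ S, w.length ≤ m) :
    ∑ w ∈ S, (1 / 5 : ℝ) ^ w.length ≤ 5 := by
  induction m generalizing S with
  | zero =>
    have : S ⊆ {[]} := fun w hw => by simpa using hS w hw
    refine (Finset.sum_le_sum_of_subset_of_nonneg this (fun _ _ _ => by positivity)).trans ?_
    simp
  | succ m ih =>
    let T : Finset (List L) := S.image List.tail
    have hT := ih T (by
      intro w hw
      obtain ⟨v, hv, rfl⟩ := Finset.mem_image.1 hw
      have := hS v hv
      simp; omega)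
    have hsub : S ⊆ insert [] ((Finset.univ ×ˢ T).image fun p : L × List L => p.1 :: p.2) := by
      intro w hw
      cases w with
      | nil => simp
      | cons s w =>
        refine Finset.mem_insert_of_mem (Finset.mem_image.2 ⟨(s, w), ?_, rfl⟩)
        exact Finset.mem_product.2 ⟨Finset.mem_univ _, Finset.mem_image.2 ⟨_, hw, rfl⟩⟩
    refine (Finset.sum_le_sum_of_subset_of_nonneg hsub (fun _ _ _ => by positivity)).trans ?_
    rw [Finset.sum_insert (by simp), Finset.sum_image (by
      rintro ⟨s1, u⟩ _ ⟨s2, v⟩ _ h
      simpa using h), Finset.sum_product]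
    simp only [List.length_nil, pow_zero, List.length_cons, pow_succ, ← Finset.sum_mul,
      Finset.sum_const, Finset.card_univ, card_L, nsmul_eq_mul]
    push_cast
    linarith

lemma gf_code (k : ℕ) (S : Finset (Code k)) :
    2 * ∑ c ∈ S, (1 / 5 : ℝ) ^ size k c ≤ 10 ^ 2 ^ k := by
  classical
  induction k with
  | zero =>
    have := gf_list (S.sup List.length) S (fun w hw => Finset.le_sup (f := List.length) hw)
    have e : ∑ c ∈ S, (1 / 5 : ℝ) ^ size 0 c ≤ 5 := this
    have : (10 : ℝ) ^ 2 ^ 0 = 10 := by norm_num
    linarith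
  | succ k ih =>
    let S' : Finset (Bool × Code k × Code k) := S
    let T0 : Finset (Code k) := S'.image fun c => c.2.1
    let T1 : Finset (Code k) := S'.image fun c => c.2.2
    have hsub : S' ⊆ Finset.univ ×ˢ T0 ×ˢ T1 := by
      intro c hc
      simp only [Finset.mem_product, Finset.mem_univ, true_and]
      exact ⟨Finset.mem_image_of_mem _ hc, Finset.mem_image_of_mem _ hc⟩
    have h0 := ih T0
    have h1 := ih T1
    have e : ∑ c ∈ S, (1 / 5 : ℝ) ^ size (k + 1) c
        = ∑ c ∈ S', (1 / 5 : ℝ) ^ size k c.2.1 * (1 / 5 : ℝ) ^ size k c.2.2 := by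
      refine Finset.sum_congr rfl ?_
      rintro ⟨p, c0, c1⟩ _
      simp only [size, pow_add]
    have e2 := Finset.sum_le_sum_of_subset_of_nonneg
      (f := fun c : Bool × Code k × Code k => (1 / 5 : ℝ) ^ size k c.2.1 * (1 / 5 : ℝ) ^ size k c.2.2)
      hsub (fun _ _ _ => by positivity)
    rw [Finset.sum_product] at e2
    simp only [Finset.sum_product, Finset.sum_const, Finset.card_univ, Fintype.card_bool,
      nsmul_eq_mul, ← Finset.sum_mul_sum] at e2
    rw [e, pow_succ, pow_mul]
    have p0 : 0 ≤ ∑ c ∈ T0, (1 / 5 : ℝ) ^ size k c := Finset.sum_nonneg fun _ _ => by positivity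
    have p1 : 0 ≤ ∑ c ∈ T1, (1 / 5 : ℝ) ^ size k c := Finset.sum_nonneg fun _ _ => by positivity
    push_cast at e2
    have := mul_le_mul h0 h1 (by positivity) (by positivity)
    nlinarith

lemma codes (k m : ℕ) : ∃ T : Finset (Code k), (∀ c, size k c ≤ m → c ∈ T) ∧
    T.card ≤ 10 ^ 2 ^ k * 5 ^ m ∧ ∀ c ∈ T, size k c ≤ m := by
  have key : ∀ S : Finset (Code k), (∀ c ∈ S, size k c ≤ m) → S.card ≤ 10 ^ 2 ^ k * 5 ^ m := by
    intro S hS
    have h1 := gf_code k S
    have h2 : ∑ _c ∈ S, (1 / 5 : ℝ) ^ m ≤ ∑ c ∈ S, (1 / 5 : ℝ) ^ size k c :=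
      Finset.sum_le_sum fun c hc => pow_le_pow_of_le_one (by norm_num) (by norm_num) (hS c hc)
    rw [Finset.sum_const, nsmul_eq_mul] at h2
    have h3 : (1 / 5 : ℝ) ^ m * 5 ^ m = 1 := by rw [← mul_pow]; norm_num
    have h4 : (0 : ℝ) < 5 ^ m := by positivity
    have h5 : (0 : ℝ) ≤ S.card * (1 / 5 : ℝ) ^ m := by positivity
    have : (S.card : ℝ) ≤ 10 ^ 2 ^ k * 5 ^ m := by
      calc (S.card : ℝ) = (S.card * (1 / 5 : ℝ) ^ m) * 5 ^ m := by rw [mul_assoc, h3, mul_one]
        _ ≤ 10 ^ 2 ^ k * 5 ^ m := by gcongr; linarith
    exact_mod_cast this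
  have hfin : {c : Code k | size k c ≤ m}.Finite := by
    by_contra hinf
    obtain ⟨S, hS, hc⟩ := Set.Infinite.exists_subset_card_eq hinf (10 ^ 2 ^ k * 5 ^ m + 1)
    have := key S (fun c hc => hS hc)
    omega
  exact ⟨hfin.toFinset, fun c hc => by simpa using hc, key _ (fun c hc => by simpa using hc),
    fun c hc => by simpa using hc⟩

end Pool.Agent.H794Z.Grig
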