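import Pool.Agent.H794Z.Basic
import Pool.Agent.H794Z.Grig
import Pool.Agent.H794Z.Alt

set_option autoImplicit false
set_option linter.unusedSectionVars false
open Pointwise Equiv Equiv.Perm

namespace Pool.Agent.H794Z.Gad
open Grig Alt

/-- Pointer positions. -/
abbrev Pn (n : ℕ) := Bool × X n
/-- States. -/
abbrev Om (n : ℕ) := Pn n × (X n → Fin 9)

variable {n : ℕ}

/-- Diagonal action on pointer positions. -/
def mvP : Perm (X n) →* Perm (Pn n) where
  toFun g := Equiv.prodCongr (Equiv.refl _) g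
  map_one' := by ext x <;> simp
  map_mul' g h := by ext x <;> simp

@[simp] lemma mvP_apply (g : Perm (X n)) (β : Bool) (p : X n) : mvP g (β, p) = (β, g p) := rfl

/-- Action on colourings. -/
def mvC (g : Perm (X n)) : Perm (X n → Fin 9) where
  toFun ω := fun y => ω (g⁻¹ y)
  invFun ω := fun y => ω (g y)
  left_inv ω := by funext y; simp
  right_inv ω := by funext y; simp

/-- Diagonal action on states. -/
def mv : Perm (X n) →* Perm (Om n) where
  toFun g := Equiv.prodCongr (mvP g) (mvC g)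
  map_one' := by
    refine Equiv.ext ?_
    rintro ⟨⟨β, p⟩, ω⟩; rfl
  map_mul' g h := by
    refine Equiv.ext ?_
    rintro ⟨⟨β, p⟩, ω⟩; rfl

lemma mv_apply (g : Perm (X n)) (π : Pn n) (ω : X n → Fin 9) :
    mv g (π, ω) = (mvP g π, fun y => ω (g⁻¹ y)) := rfl

/-- Action on the pointer only. -/
def ptr : Perm (Pn n) →* Perm (Om n) where
  toFun σ := Equiv.prodCongr σ (Equiv.refl _)
  map_one' := by refine Equiv.ext ?_; rintro ⟨π, ω⟩; rfl
  map_mul' g h := by refine Equiv.ext ?_; rintro ⟨π, ω⟩; rfl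

@[simp] lemma ptr_apply (σ : Perm (Pn n)) (π : Pn n) (ω : X n → Fin 9) :
    ptr σ (π, ω) = (σ π, ω) := rfl

/-- Controlled recolouring. -/
def lmp (F : Pn n → X n → Fin 9) : Perm (Om n) where
  toFun s := (s.1, s.2 + F s.1)
  invFun s := (s.1, s.2 - F s.1)
  left_inv s := by simp
  right_inv s := by simp

@[simp] lemma lmp_apply (F : Pn n → X n → Fin 9) (π : Pn n) (ω : X n → Fin 9) :
    lmp F (π, ω) = (π, ω + F π) := rfl

lemma lmp_zero : lmp (0 : Pn n → X n → Fin 9) = 1 := by
  refine Equiv.ext ?_; rintro ⟨π, ω⟩; simp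

lemma lmp_add (F F' : Pn n → X n → Fin 9) : lmp (F + F') = lmp F * lmp F' := by
  refine Equiv.ext ?_; rintro ⟨π, ω⟩
  simp only [lmp_apply, Perm.mul_apply, Pi.add_apply, Prod.mk.injEq, true_and]; abel

lemma lmp_nsmul (k : ℕ) (F : Pn n → X n → Fin 9) : lmp (k • F) = lmp F ^ k := by
  induction k with
  | zero => simp [lmp_zero]
  | succ k ih => rw [succ_nsmul, lmp_add, ih, pow_succ]

lemma lmp_neg (F : Pn n → X n → Fin 9) : lmp (-F) = (lmp F)⁻¹ := by
  rw [eq_inv_iff_mul_eq_one, ← lmp_add, neg_add_cancel, lmp_zero]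

/-- Constant colourings. -/
def iota : Pn n × Fin 9 ↪ Om n where
  toFun s := (s.1, fun _ => s.2)
  inj' := by
    rintro ⟨π, j⟩ ⟨π', j'⟩ h
    obtain ⟨h1, h2⟩ := Prod.mk.inj h
    exact Prod.ext h1 (congrFun h2 (ep n true))

lemma iota_apply (π : Pn n) (j : Fin 9) : iota (π, j) = (π, fun _ => j) := rfl

/-- Action on constant states only. -/
noncomputable def cst : Perm (Pn n × Fin 9) →* Perm (Om n) := viaEmbeddingHom iota

lemma cst_iota (q : Perm (Pn n × Fin 9)) (s : Pn n × Fin 9) : cst q (iota s) = iota (q s) :=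
  viaEmbedding_apply _ _ _

lemma cst_not (q : Perm (Pn n × Fin 9)) (s : Om n) (h : s ∉ Set.range iota) : cst q s = s :=
  viaEmbedding_apply_of_notMem _ _ _ h

lemma via_swap {α β : Type} [DecidableEq α] [DecidableEq β] (ι : α ↪ β) (a b : α) :
    viaEmbeddingHom ι (swap a b) = swap (ι a) (ι b) := by
  ext x
  rw [viaEmbeddingHom_apply]
  by_cases hx : x ∈ Set.range ι
  · obtain ⟨y, rfl⟩ := hx
    rw [viaEmbedding_apply, ι.injective.map_swap]
  · rw [viaEmbedding_apply_of_notMem _ _ _ hx, swap_apply_of_ne_of_ne]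
    · rintro rfl; exact hx ⟨_, rfl⟩
    · rintro rfl; exact hx ⟨_, rfl⟩

/-- The base point. -/
def x2 (n : ℕ) : X n := ep n true
/-- The recolouring site. -/
def x1 (n : ℕ) : X n := ep n false
/-- First pointer site. -/
def u1 (n : ℕ) : Pn n := (false, x2 n)
/-- Second pointer site. -/
def u2 (n : ℕ) : Pn n := (false, act n L.a (x2 n))
/-- Third pointer site. -/
def u3 (n : ℕ) : Pn n := (true, x2 n)

lemma u12 : u1 n ≠ u2 n := fun h => act_a_ne n _ (Prod.mk.inj h).2.symm
lemma u13 : u1 n ≠ u3 n := fun h => Bool.false_ne_true (Prod.mk.inj h).1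
lemma u23 : u2 n ≠ u3 n := fun h => Bool.false_ne_true (Prod.mk.inj h).1

/-- The pointer three-cycle. -/
def sig (n : ℕ) : Perm (Pn n) := swap (u1 n) (u2 n) * swap (u1 n) (u3 n)

lemma sig_three : (sig n).IsThreeCycle := isThreeCycle_swap_mul_swap_same u12 u13 u23

/-- Eleven special constant states. -/
def eps (n : ℕ) : Fin 9 ⊕ Bool ↪ Pn n × Fin 9 where
  toFun := Sum.elim (fun j => (u1 n, j)) (fun β => (bif β then u3 n else u2 n, 0))
  inj' := by
    have h12 := @u12 n
    have h13 := @u13 n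
    have h23 := @u23 n
    rintro (j | β) (j' | β') h
    · simpa using h
    · cases β' <;> simp_all
    · cases β <;> simp_all [eq_comm]
    · cases β <;> cases β' <;> simp_all [eq_comm]

/-- Model nine-cycle. -/
def k0 : Perm (Fin 9 ⊕ Bool) := Equiv.sumCongr (Equiv.addRight 1) (Equiv.refl _)
/-- Model three-cycle. -/
def r0 : Perm (Fin 9 ⊕ Bool) := swap (Sum.inl 0) (Sum.inr false) * swap (Sum.inl 0) (Sum.inr true)

lemma k0_pow : k0 ^ 9 = 1 := by decide +kernel
lemma k0r0_pow : (k0 * r0) ^ 11 = 1 := by decide +kernel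

/-- The nine-cycle on constant states. -/
noncomputable def kap0 (n : ℕ) : Perm (Pn n × Fin 9) := viaEmbeddingHom (eps n) k0
/-- The three-cycle on white states. -/
noncomputable def rho0 (n : ℕ) : Perm (Pn n × Fin 9) := viaEmbeddingHom (eps n) r0

lemma rho0_eq : rho0 n = swap (u1 n, 0) (u2 n, 0) * swap (u1 n, 0) (u3 n, 0) := by
  rw [rho0, r0, map_mul, via_swap, via_swap]; rfl

lemma rho_eq : cst (rho0 n) = swap (u1 n, 0) (u2 n, 0) * swap (u1 n, 0) (u3 n, 0) := by
  rw [rho0_eq, map_mul, cst, via_swap, via_swap]; rfl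

lemma rho_three : (cst (rho0 n)).IsThreeCycle := by
  rw [rho_eq]
  exact isThreeCycle_swap_mul_swap_same (fun h => u12 (Prod.mk.inj h).1)
    (fun h => u13 (Prod.mk.inj h).1) (fun h => u23 (Prod.mk.inj h).1)

lemma kap0_u1 (j : Fin 9) : kap0 n (u1 n, j) = (u1 n, j + 1) :=
  viaEmbedding_apply k0 (eps n) (Sum.inl j)

lemma kap0_ne (π : Pn n) (h : π ≠ u1 n) (j : Fin 9) : kap0 n (π, j) = (π, j) := by
  by_cases hx : (π, j) ∈ Set.range (eps n)
  · obtain ⟨y | y, hy⟩ := hx
    · exact absurd (Prod.mk.inj hy).1.symm h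
    · rw [← hy]; exact viaEmbedding_apply k0 (eps n) (Sum.inr y)
  · exact viaEmbedding_apply_of_notMem _ _ _ hx

/-- The controlled recolouring pattern at a site. -/
def pat (π : Pn n) (q : X n) : Pn n → X n → Fin 9 := Pi.single π (Pi.single q 1)

/-- Rooted parts of the generators. -/
noncomputable def root (n : ℕ) : Fin 9 → Perm (Om n) :=
  ![1, mv (gen n L.a), mv (gen n L.b), mv (gen n L.c), mv (gen n L.d), ptr (sig n),
    lmp (pat (false, x1 n) (x1 n)), cst (rho0 n), cst (kap0 n)]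

lemma sign_of_odd {α : Type} [Fintype α] [DecidableEq α] {g : Perm α} {k : ℕ} (hk : Odd k)
    (h : g ^ k = 1) : g ∈ alternatingGroup α := by
  rw [mem_alternatingGroup]
  have := congrArg sign h
  rw [map_pow, map_one] at this
  rcases Int.units_eq_one_or (sign g) with h1 | h1
  · exact h1
  · rw [h1, hk.neg_one_pow] at this; exact absurd this (by decide)

lemma mv_even (g : Perm (X n)) : mv g ∈ alternatingGroup (Om n) := by
  rw [mem_alternatingGroup]
  rw [sign_eq_sign_of_equiv (mv g) (Equiv.prodCongrRight fun _ : Bool => Equiv.prodCongr g (mvC g))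
    (Equiv.prodAssoc _ _ _) (by rintro ⟨⟨β, p⟩, ω⟩; rfl), sign_prodCongrRight]
  simp

lemma kap_pow : cst (kap0 n) ^ 9 = 1 := by
  rw [← map_pow, kap0, ← map_pow, k0_pow, map_one, map_one]

lemma kaprho_pow : (cst (kap0 n) * cst (rho0 n)) ^ 11 = 1 := by
  rw [← map_mul, ← map_pow, kap0, rho0, ← map_mul, ← map_pow, k0r0_pow, map_one, map_one]

lemma root_even (j : Fin 9) : root n j ∈ alternatingGroup (Om n) := by
  fin_cases j
  · exact one_mem _
  · exact mv_even _
  · exact mv_even _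
  · exact mv_even _
  · exact mv_even _
  · refine sign_of_odd (k := 3) (by decide) ?_
    change ptr (sig n) ^ 3 = 1
    rw [← map_pow, ← sig_three.orderOf, pow_orderOf_eq_one, map_one]
  · refine sign_of_odd (k := 9) (by decide) ?_
    change lmp _ ^ 9 = 1
    rw [← lmp_nsmul, ← lmp_zero]
    congr 1
    funext π y
    simp only [Pi.smul_apply, Pi.zero_apply]
    generalize pat _ _ π y = z
    revert z; decide
  · exact rho_three.mem_alternatingGroup
  · exact sign_of_odd (k := 9) (by decide) kap_pow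

lemma card_X (n : ℕ) : 2 ≤ Fintype.card (X n) :=
  Fintype.one_lt_card_iff_nontrivial.2 ⟨_, _, ep_ne n⟩

lemma card_Pn : 4 ≤ Fintype.card (Pn n) := by
  have := card_X n
  simp only [Fintype.card_prod, Fintype.card_bool]; omega

lemma card_Om : 36 ≤ Fintype.card (Om n) := by
  have h1 := @card_Pn n
  have h2 : 9 ≤ Fintype.card (X n → Fin 9) := by
    have := card_X n
    simp only [Fintype.card_fun, Fintype.card_fin]
    calc 9 = 9 ^ 1 := by norm_num
      _ ≤ _ := Nat.pow_le_pow_right (by norm_num) (by omega)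
  rw [Fintype.card_prod]
  nlinarith

lemma mv_conj_ptr (g : Perm (X n)) (σ : Perm (Pn n)) :
    mv g * ptr σ * (mv g)⁻¹ = ptr (mvP g * σ * (mvP g)⁻¹) := by
  rw [mul_inv_eq_iff_eq_mul]
  refine Equiv.ext ?_; rintro ⟨π, ω⟩
  simp only [Perm.mul_apply, mv_apply, ptr_apply, Perm.coe_inv, Equiv.symm_apply_apply]

lemma mv_conj_pat (g : Perm (X n)) (β : Bool) (p q : X n) :
    mv g * lmp (pat (β, p) q) * (mv g)⁻¹ = lmp (pat (β, g p) (g q)) := by
  rw [mul_inv_eq_iff_eq_mul]
  refine Equiv.ext ?_; rintro ⟨⟨β', p'⟩, ω⟩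
  simp only [Perm.mul_apply, lmp_apply, mv_apply, mvP_apply, Prod.mk.injEq, true_and]
  funext y
  simp only [Pi.add_apply, pat]
  congr 1
  by_cases h : (β', p') = (β, p)
  · obtain ⟨rfl, rfl⟩ := Prod.mk.inj h
    simp only [Pi.single_eq_same, Pi.single_apply, Perm.inv_eq_iff_eq]
  · rw [Pi.single_eq_of_ne h, Pi.single_eq_of_ne]
    · rfl
    · intro h'; apply h
      obtain ⟨rfl, h2⟩ := Prod.mk.inj h'
      rw [g.injective h2]

lemma ptr_conj_pat (σ : Perm (Pn n)) (π : Pn n) (q : X n) :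
    ptr σ * lmp (pat π q) * (ptr σ)⁻¹ = lmp (pat (σ π) q) := by
  rw [mul_inv_eq_iff_eq_mul]
  refine Equiv.ext ?_; rintro ⟨π', ω⟩
  simp only [Perm.mul_apply, lmp_apply, ptr_apply, Prod.mk.injEq, true_and, pat]
  congr 1
  by_cases h : π' = π
  · subst h; simp
  · rw [Pi.single_eq_of_ne h, Pi.single_eq_of_ne (fun h' => h (σ.injective h'))]

theorem alt_le (E : Subgroup (Perm (Om n))) (hE : ∀ j : Fin 9, j ≠ 8 → root n j ∈ E) :
    alternatingGroup (Om n) ≤ E := by
  have hgen : ∀ s, mv (gen n s) ∈ E := by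
    intro s
    cases s
    · exact hE 1 (by decide)
    · exact hE 2 (by decide)
    · exact hE 3 (by decide)
    · exact hE 4 (by decide)
  have hev : ∀ w, mv (ev n w) ∈ E := by
    intro w
    induction w with
    | nil => simp
    | cons s w ih => rw [ev_cons, map_mul]; exact E.mul_mem (hgen s) ih
  have hsig : ptr (sig n) ∈ E := hE 5 (by decide)
  have hT : lmp (pat (false, x1 n) (x1 n)) ∈ E := hE 6 (by decide)
  have hrho : cst (rho0 n) ∈ E := hE 7 (by decide)
  let EP : Subgroup (Perm (Pn n)) := E.comap ptr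
  have hnorm : ∀ w, ∀ γ ∈ EP, mvP (ev n w) * γ * (mvP (ev n w))⁻¹ ∈ EP := by
    intro w γ hγ
    change ptr _ ∈ E
    rw [← mv_conj_ptr]
    exact E.mul_mem (E.mul_mem (hev w) hγ) (E.inv_mem (hev w))
  have l13 : Lk EP (u1 n) (u3 n) := by
    have := lk_apply (E := EP) hsig sig_three (u1 n)
    rwa [sig, Perm.mul_apply, swap_apply_left, swap_apply_of_ne_of_ne u13.symm u23.symm] at this
  have l32 : Lk EP (u3 n) (u2 n) := by
    have := lk_apply (E := EP) hsig sig_three (u3 n)
    rwa [sig, Perm.mul_apply, swap_apply_right, swap_apply_left] at this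
  have lw : ∀ w, Lk EP (u1 n) (false, ev n w (x2 n)) := by
    intro w
    induction w with
    | nil => exact Lk.refl _ _
    | cons s w ih =>
      have h1 := ih.conj (mvP (ev n [s])) (hnorm [s])
      simp only [u1, mvP_apply] at h1
      rw [← Perm.mul_apply, ← ev_append] at h1
      refine Lk.trans ?_ h1
      rw [ev_cons_apply]
      by_cases hs : s = L.a
      · subst hs; exact l13.trans l32
      · have : act n s (ev n [] (x2 n)) = x2 n := kfix_ep n true s hs
        rw [this]; exact Lk.refl _ _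
  have lall : ∀ π, Lk EP (u1 n) π := by
    rintro ⟨β, p⟩
    obtain ⟨w, rfl⟩ := Grig.trans n (x2 n) p
    cases β
    · exact lw w
    · exact (lw w).trans (l13.conj (mvP (ev n w)) (hnorm w))
  have hP : alternatingGroup (Pn n) ≤ EP :=
    alt_le_of_lk EP hsig sig_three fun p q => (lall p).symm.trans (lall q)
  have hpat : ∀ π q, lmp (pat π q) ∈ E := by
    intro π q
    obtain ⟨w, rfl⟩ := Grig.trans n (x1 n) q
    have h1 : lmp (pat (false, ev n w (x1 n)) (ev n w (x1 n))) ∈ E := by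
      rw [← mv_conj_pat]
      exact E.mul_mem (E.mul_mem (hev w) hT) (E.inv_mem (hev w))
    obtain ⟨g, hg, hg1, -⟩ := alt_two_trans card_Pn
      (p := (false, ev n w (x1 n))) (q := (true, ev n w (x1 n))) (p' := π) (q' := (!π.1, π.2))
      (by simp) (by obtain ⟨β, p⟩ := π; simp)
    rw [← hg1, ← ptr_conj_pat]
    exact E.mul_mem (E.mul_mem (hP hg) h1) (E.inv_mem (hP hg))
  have hlmp : ∀ F, lmp F ∈ E := by
    intro F
    have hF : F = ∑ π, ∑ q, (F π q).val • pat π q := by
      funext π q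
      simp [pat, Finset.sum_apply, Pi.single_apply, ite_apply]
      generalize F π q = z
      revert z; decide
    rw [hF]
    refine Finset.sum_induction _ (fun F => lmp F ∈ E)
      (fun a b ha hb => by rw [lmp_add]; exact E.mul_mem ha hb) (by rw [lmp_zero]; exact E.one_mem) ?_
    intro π _
    refine Finset.sum_induction _ (fun F => lmp F ∈ E)
      (fun a b ha hb => by rw [lmp_add]; exact E.mul_mem ha hb) (by rw [lmp_zero]; exact E.one_mem) ?_
    intro q _
    rw [lmp_nsmul]
    exact E.pow_mem (hpat π q) _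
  have hcE : ∀ g ∈ E, ∀ γ ∈ E, g * γ * g⁻¹ ∈ E :=
    fun g hg γ hγ => E.mul_mem (E.mul_mem hg hγ) (E.inv_mem hg)
  have m13 : Lk E (u1 n, 0) (u3 n, 0) := by
    have := lk_apply (E := E) hrho rho_three (u1 n, 0)
    rwa [rho_eq, Perm.mul_apply, swap_apply_left, swap_apply_of_ne_of_ne
      (fun h => u13 (Prod.mk.inj h).1.symm) (fun h => u23 (Prod.mk.inj h).1.symm)] at this
  have m2 : ∀ ω ω', Lk E (u1 n, ω) (u3 n, ω') := by
    intro ω ω'
    have := m13.conj (lmp (Pi.single (u1 n) ω + Pi.single (u3 n) ω')) (hcE _ (hlmp _))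
    simpa [Pi.single_eq_of_ne u13, Pi.single_eq_of_ne u13.symm] using this
  have m3 : ∀ π ω, Lk E (u1 n, 0) (π, ω) := by
    intro π ω
    by_cases h : π = u1 n
    · subst h; exact (m2 0 0).trans (m2 ω 0).symm
    · obtain ⟨g, hg, hg1, hg2⟩ := alt_two_trans card_Pn (u13 (n := n)) (Ne.symm h)
      have := (m2 0 ω).conj (ptr g) (hcE _ (hP hg))
      simpa [hg1, hg2] using this
  exact alt_le_of_lk E hrho rho_three fun p q => (m3 p.1 p.2).symm.trans (m3 q.1 q.2)

end Pool.Agent.H794Z.Gad
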