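import Pool.Agent.H794Z.Gadget

set_option autoImplicit false
set_option linter.unusedSectionVars false
open Pointwise Equiv Equiv.Perm
open scoped commutatorElement

namespace Pool.Agent.H794Z.Gad
open Grig Alt

variable {n : ℕ} {Λ : Type} [Group Λ]

lemma mem_of_single {Y : Type} [DecidableEq Y] (K : Subgroup (Y → Λ))
    (h : ∀ p μ, Pi.mulSingle p μ ∈ K) (s : Finset Y) :
    ∀ f : Y → Λ, (∀ y, y ∉ s → f y = 1) → f ∈ K := by
  induction s using Finset.induction_on with
  | empty =>
    intro f hf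
    have : f = 1 := funext fun y => hf y (by simp)
    rw [this]; exact K.one_mem
  | insert a s _ ih =>
    intro f hf
    have : f = Function.update f a 1 * Pi.mulSingle a (f a) := by
      funext y
      by_cases hy : y = a
      · subst hy; simp
      · simp [hy]
    rw [this]
    refine K.mul_mem (ih _ fun y hy => ?_) (h _ _)
    by_cases hya : y = a
    · subst hya; simp
    · rw [Function.update_of_ne hya]; exact hf y (by simp [hy, hya])

/-- The potential attached to a particle position. -/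
def Phi (lam : Fin 9 → Λ) (y : X n) : Wr Λ (Om n) := SW.bs fun s => lam (s.2 y)

/-- The generators. -/
noncomputable def gens (n : ℕ) (lam : Fin 9 → Λ) (j : Fin 9) : Wr Λ (Om n) :=
  if j = 8 then Phi lam (x2 n) * SW.rt (root n j) * (Phi lam (x2 n))⁻¹ else SW.rt (root n j)

lemma gens_top (lam : Fin 9 → Λ) (j : Fin 9) : (gens n lam j).top = root n j := by
  unfold gens; split_ifs <;> simp [Phi]

lemma gens_zero (lam : Fin 9 → Λ) : gens n lam 0 = 1 := by
  rw [gens, if_neg (by decide)]; exact map_one _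

lemma gens_ne (lam : Fin 9 → Λ) {j : Fin 9} (h : j ≠ 8) : gens n lam j = SW.rt (root n j) :=
  if_neg h

lemma gens_map {Λ' : Type} [Group Λ'] (φ : Λ →* Λ') (lam : Fin 9 → Λ) (j : Fin 9) :
    SW.mapA φ (gens n lam j) = gens n (fun i => φ (lam i)) j := by
  unfold gens
  split_ifs
  · ext s <;> simp [Phi]
  · ext s <;> simp

lemma rt_mv_Phi (lam : Fin 9 → Λ) (g : Perm (X n)) (y : X n) :
    SW.rt (mv g) * Phi lam y = Phi lam (g y) * SW.rt (mv g) := by
  refine SW.ext (funext fun s => ?_) ?_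
  · obtain ⟨π, ω⟩ := s
    simp only [Phi, SW.mul_fn, SW.rt_fn, SW.rt_top, SW.bs_fn, one_mul, mul_one, ← map_inv,
      Perm.smul_def, mv_apply, inv_inv]
  · simp [Phi]

lemma rt_Phi_of (lam : Fin 9 → Λ) (e : Perm (Om n)) (y : X n)
    (h : ∀ s, lam ((e s).2 y) = lam (s.2 y)) :
    SW.rt e * Phi lam y = Phi lam y * SW.rt e := by
  refine SW.ext (funext fun s => ?_) ?_
  · simp only [Phi, SW.mul_fn, SW.rt_fn, SW.rt_top, SW.bs_fn, one_mul, mul_one, Perm.smul_def]
    rw [← h]; simp
  · simp [Phi]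

lemma rho_snd (s : Om n) : (cst (rho0 n) s).2 = s.2 := by
  have : ∀ (p q : Pn n) (s : Om n), (swap (p, (0 : X n → Fin 9)) (q, 0) s).2 = s.2 := by
    intro p q s
    rw [swap_apply_def]
    split_ifs with h1 h2
    · rw [h1]
    · rw [h2]
    · rfl
  rw [rho_eq, Perm.mul_apply, this, this]

lemma gens_Phi (lam : Fin 9 → Λ) {j : Fin 9} (hj : 5 ≤ j.val) (y : X n) (hy : y ≠ x1 n) :
    gens n lam j * Phi lam y = Phi lam y * SW.rt (root n j) := by
  fin_cases j
  all_goals first | (exfalso; revert hj; decide) | skip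
  · exact rt_Phi_of lam _ y fun s => rfl
  · refine rt_Phi_of lam _ y ?_
    rintro ⟨π, ω⟩
    change lam ((ω + pat (false, x1 n) (x1 n) π) y) = _
    congr 1
    simp only [Pi.add_apply, pat, add_eq_left]
    by_cases h : π = (false, x1 n)
    · subst h; simp [Pi.single_eq_of_ne hy]
    · simp [Pi.single_eq_of_ne h]
  · refine rt_Phi_of lam _ y fun s => ?_
    change lam ((cst (rho0 n) s).2 y) = _
    rw [rho_snd]
  · change Phi lam (x2 n) * SW.rt (cst (kap0 n)) * (Phi lam (x2 n))⁻¹ * Phi lam y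
      = Phi lam y * SW.rt (cst (kap0 n))
    refine SW.ext (funext fun s => ?_) ?_
    · simp only [Phi, SW.mul_fn, SW.rt_fn, SW.rt_top, SW.bs_fn, one_mul, mul_one, Perm.smul_def,
        SW.mul_top, SW.bs_top, SW.inv_fn, SW.inv_top, inv_one, Perm.coe_one, id]
      by_cases hs : s ∈ Set.range iota
      · obtain ⟨t, rfl⟩ := hs
        rw [← map_inv, cst_iota]
        simp [iota]
      · rw [← map_inv, cst_not _ _ hs]; simp
    · simp [Phi]

lemma alt_mem (lam : Fin 9 → Λ) (K : Subgroup (Wr Λ (Om n))) (hK : ∀ j, gens n lam j ∈ K)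
    {e : Perm (Om n)} (he : e ∈ alternatingGroup (Om n)) : SW.rt e ∈ K :=
  alt_le (K.comap SW.rt) (fun j hj => by
    have := hK j
    rwa [gens_ne lam hj] at this) he

lemma bs_single_conj (e : Perm (Om n)) (p : Om n) (μ : Λ) :
    (SW.rt e : Wr Λ (Om n)) * SW.bs (Pi.mulSingle p μ) * (SW.rt e)⁻¹
      = SW.bs (Pi.mulSingle (e p) μ) := by
  rw [SW.rt_mul_bs]
  congr 1
  funext s
  simp only [Perm.smul_def, Pi.mulSingle_apply, Perm.inv_eq_iff_eq]

theorem base_mem (lam : Fin 9 → Λ) (h0 : lam 0 = 1) (hgen : Subgroup.closure (Set.range lam) = ⊤)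
    (hperf : commutator Λ = ⊤) (K : Subgroup (Wr Λ (Om n))) (hK : ∀ j, gens n lam j ∈ K)
    (f : Om n → Λ) : SW.bs f ∈ K := by
  classical
  let K0 : Subgroup (Om n → Λ) := K.comap SW.bs
  have hconj : ∀ e ∈ alternatingGroup (Om n), ∀ f ∈ K0, (fun s => f (e⁻¹ s)) ∈ K0 := by
    intro e he f hf
    have := K.mul_mem (K.mul_mem (alt_mem lam K hK he) hf) (K.inv_mem (alt_mem lam K hK he))
    rwa [SW.rt_mul_bs] at this
  let f0 : Om n → Λ := fun s => lam (s.2 (x2 n)) * (lam (((cst (kap0 n))⁻¹ s).2 (x2 n)))⁻¹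
  have hf0 : f0 ∈ K0 := by
    have := K.mul_mem (hK 8) (K.inv_mem (alt_mem lam K hK (root_even 8)))
    change SW.bs f0 ∈ K
    convert this using 1
    change _ = Phi lam (x2 n) * SW.rt (cst (kap0 n)) * (Phi lam (x2 n))⁻¹ * (SW.rt (cst (kap0 n)))⁻¹
    ext s <;> simp [Phi, f0, Perm.smul_def]
  have hf0u : ∀ j : Fin 9, f0 (iota (u1 n, j + 1)) = lam (j + 1) * (lam j)⁻¹ := by
    intro j
    have : (cst (kap0 n))⁻¹ (iota (u1 n, j + 1)) = iota (u1 n, j) := by
      rw [Perm.inv_eq_iff_eq, cst_iota, kap0_u1]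
    simp only [f0, this]; rfl
  have hf0n : ∀ s : Om n, s.1 ≠ u1 n → f0 s = 1 := by
    intro s hs
    have : (cst (kap0 n))⁻¹ s = s := by
      rw [Perm.inv_eq_iff_eq]
      by_cases h : s ∈ Set.range iota
      · obtain ⟨⟨π, j⟩, rfl⟩ := h
        rw [cst_iota, kap0_ne π hs]
      · rw [cst_not _ _ h]
    simp only [f0, this, mul_inv_cancel]
  let M : Set Λ := {μ | ∀ p q : Om n, p ≠ q → Pi.mulSingle p μ * Pi.mulSingle q μ⁻¹ ∈ K0}
  have hM : ∀ j : Fin 9, lam (j + 1) * (lam j)⁻¹ ∈ M := by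
    intro j p q hpq
    set μ := lam (j + 1) * (lam j)⁻¹ with hμ
    let b : Om n := iota (u1 n, j + 1)
    let y : Om n := (u2 n, 0)
    let z : Om n := (u3 n, 0)
    have hby : b ≠ y := fun h => u12 (Prod.mk.inj h).1
    have hbz : b ≠ z := fun h => u13 (Prod.mk.inj h).1
    have hyz : y ≠ z := fun h => u23 (Prod.mk.inj h).1
    have h3 := isThreeCycle_swap_mul_swap_same hby hbz hyz
    have h1 := K0.mul_mem hf0 (K0.inv_mem (hconj _ h3.inv.mem_alternatingGroup _ hf0))
    have h2 : Pi.mulSingle b μ * Pi.mulSingle y μ⁻¹ ∈ K0 := by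
      convert h1 using 1
      funext s
      simp only [Pi.mul_apply, Pi.inv_apply, inv_inv, Perm.mul_apply]
      by_cases hb : s = b
      · subst hb
        rw [swap_apply_left, swap_apply_of_ne_of_ne hbz.symm hyz.symm, hf0n z u13.symm, hf0u,
          Pi.mulSingle_eq_same, Pi.mulSingle_eq_of_ne hby]
        simp [hμ]
      by_cases hy : s = y
      · subst hy
        rw [swap_apply_of_ne_of_ne hby.symm hyz, swap_apply_right, hf0n y u12.symm, hf0u,
          Pi.mulSingle_eq_same, Pi.mulSingle_eq_of_ne hby.symm]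
      by_cases hz : s = z
      · subst hz
        rw [swap_apply_right, swap_apply_left, hf0n y u12.symm, hf0n z u13.symm,
          Pi.mulSingle_eq_of_ne hb, Pi.mulSingle_eq_of_ne hy]
        simp
      · rw [swap_apply_of_ne_of_ne hb hz, swap_apply_of_ne_of_ne hb hy,
          Pi.mulSingle_eq_of_ne hb, Pi.mulSingle_eq_of_ne hy]
        simp
    obtain ⟨g, hg, rfl, rfl⟩ := alt_two_trans (le_trans (by norm_num) card_Om) hby hpq
    convert hconj g hg _ h2 using 1
    funext s
    simp only [Pi.mul_apply, Pi.mulSingle_apply, Perm.inv_eq_iff_eq]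
  have hMgen : Subgroup.closure M = ⊤ := by
    rw [eq_top_iff, ← hgen, Subgroup.closure_le]
    have step : ∀ j : Fin 9, lam j ∈ Subgroup.closure M → lam (j + 1) ∈ Subgroup.closure M := by
      intro j hj
      have := Subgroup.mul_mem _ (Subgroup.subset_closure (hM j)) hj
      simpa using this
    have a0 : lam 0 ∈ Subgroup.closure M := by rw [h0]; exact one_mem _
    have a1 := step _ a0
    have a2 := step _ a1
    have a3 := step _ a2
    have a4 := step _ a3
    have a5 := step _ a4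
    have a6 := step _ a5
    have a7 := step _ a6
    have a8 := step _ a7
    rintro _ ⟨j, rfl⟩
    fin_cases j <;> assumption
  have hsingle : ∀ (p : Om n) (μ : Λ), Pi.mulSingle p μ ∈ K0 := by
    intro p
    obtain ⟨q, q', hq, hq', hqq⟩ : ∃ q q' : Om n, p ≠ q ∧ p ≠ q' ∧ q ≠ q' := by
      by_cases h1 : p.1 = u1 n
      · exact ⟨(u2 n, 0), (u3 n, 0), fun h => u12 (h1.symm.trans (congrArg Prod.fst h)),
          fun h => u13 (h1.symm.trans (congrArg Prod.fst h)), fun h => u23 (Prod.mk.inj h).1⟩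
      · exact ⟨(u1 n, 0), (u1 n, 1), fun h => h1 (congrArg Prod.fst h),
          fun h => h1 (congrArg Prod.fst h),
          fun h => absurd (congrFun (Prod.mk.inj h).2 (x2 n)) (show ¬ ((0 : Fin 9) = 1) by decide)⟩
    let N : Subgroup Λ := K0.comap (MonoidHom.mulSingle (fun _ : Om n => Λ) p)
    have hN : ∀ μ ∈ M, ∀ ν ∈ N, μ * ν * μ⁻¹ ∈ N ∧ μ⁻¹ * ν * μ ∈ N := by
      intro μ hμ ν hν
      have h1 := hμ p q hq
      have hν' : Pi.mulSingle p ν ∈ K0 := hν
      constructor
      · change Pi.mulSingle p _ ∈ K0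
        convert K0.mul_mem (K0.mul_mem h1 hν') (K0.inv_mem h1) using 1
        funext s
        simp only [Pi.mul_apply, Pi.inv_apply, Pi.mulSingle_apply]
        split_ifs with a1 a2 <;> simp_all
      · change Pi.mulSingle p _ ∈ K0
        convert K0.mul_mem (K0.mul_mem (K0.inv_mem h1) hν') h1 using 1
        funext s
        simp only [Pi.mul_apply, Pi.inv_apply, Pi.mulSingle_apply]
        split_ifs with a1 a2 <;> simp_all
    have hnorm : N.Normal := by
      rw [← Subgroup.normalizer_eq_top_iff, eq_top_iff, ← hMgen, Subgroup.closure_le]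
      intro μ hμ
      rw [SetLike.mem_coe, Subgroup.mem_normalizer_iff]
      intro ν
      refine ⟨fun h => (hN μ hμ ν h).1, fun h => ?_⟩
      simpa [mul_assoc] using (hN μ hμ _ h).2
    have := commutator_le_of_gen hMgen N (by
      intro μ hμ ν hν
      have h1 := hμ p q hq
      have h2 := hν p q' hq'
      change Pi.mulSingle p _ ∈ K0
      convert K0.mul_mem (K0.mul_mem (K0.mul_mem h1 h2) (K0.inv_mem h1)) (K0.inv_mem h2) using 1
      funext s
      simp only [Pi.mul_apply, Pi.inv_apply, Pi.mulSingle_apply]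
      split_ifs with a1 a2 a3 <;> simp_all)
    intro μ
    exact this (by rw [hperf]; trivial)
  exact mem_of_single K0 hsingle Finset.univ f (by simp)

section
variable {Γ : Type} [Group Γ] (lam : Fin 9 → Λ) (T : Fin 9 → Γ)
  (hT : Subgroup.closure (Set.range T) = ⊤) (ε : Γ →* Wr Λ (Om n)) (hε : Function.Injective ε)
  (hεT : ∀ j, ε (T j) = gens n lam j)
include hT hε hεT

theorem normal_top (N : Subgroup Γ) [hN : N.Normal]
    (h : ∃ e ∈ alternatingGroup (Om n), e ≠ 1 ∧ ∃ x ∈ N, ε x = SW.rt e) : N = ⊤ := by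
  have hr : ∀ e ∈ alternatingGroup (Om n), ∃ x, ε x = SW.rt e := fun e he =>
    alt_mem lam ε.range (fun j => ⟨T j, hεT j⟩) he
  let M : Subgroup (alternatingGroup (Om n)) :=
    (N.map ε).comap (SW.rt.comp (alternatingGroup (Om n)).subtype)
  have hM : M.Normal := by
    refine ⟨?_⟩
    rintro e ⟨x, hx, he⟩ g
    obtain ⟨y, hy⟩ := hr g g.2
    refine ⟨y * x * y⁻¹, hN.conj_mem x hx y, ?_⟩
    simp only [map_mul, map_inv, hy, he]
    rfl
  have hs := alternatingGroup.isSimpleGroup (α := Om n)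
    (by rw [Nat.card_eq_fintype_card]; exact le_trans (by norm_num) card_Om)
  have hMt : M = ⊤ := by
    refine hM.eq_bot_or_eq_top.resolve_left fun hb => ?_
    obtain ⟨e, he, he1, x, hx, hxe⟩ := h
    have : (⟨e, he⟩ : alternatingGroup (Om n)) ∈ M := ⟨x, hx, hxe⟩
    rw [hb, Subgroup.mem_bot] at this
    exact he1 (congrArg Subtype.val this)
  have hj : ∀ j : Fin 9, j ≠ 8 → T j ∈ N := by
    intro j hj
    have : (⟨root n j, root_even j⟩ : alternatingGroup (Om n)) ∈ M := by rw [hMt]; trivial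
    obtain ⟨x, hx, hxe⟩ := this
    have : x = T j := hε (by rw [hεT, gens_ne lam hj]; exact hxe)
    rwa [← this]
  have h8 : T 8 ∈ N := by
    have e8 : gens n lam 8 = Phi lam (x2 n) * SW.rt (cst (kap0 n)) * (Phi lam (x2 n))⁻¹ := rfl
    have e7 : gens n lam 7 = Phi lam (x2 n) * SW.rt (cst (rho0 n)) * (Phi lam (x2 n))⁻¹ := by
      rw [eq_mul_inv_iff_mul_eq]
      exact gens_Phi lam (by decide) _ (ep_ne n).symm
    have p9 : T 8 ^ 9 = 1 := hε (by
      rw [map_pow, hεT, e8, conj_pow, ← map_pow, kap_pow]; simp)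
    have p11 : (T 8 * T 7) ^ 11 = 1 := hε (by
      rw [map_pow, map_mul, hεT, hεT, e8, e7, conj_mul, conj_pow, ← map_mul, ← map_pow, kaprho_pow]
      simp)
    have q7 : QuotientGroup.mk' N (T 7) = 1 := (QuotientGroup.eq_one_iff _).2 (hj 7 (by decide))
    have q9 := congrArg (QuotientGroup.mk' N) p9
    have q11 := congrArg (QuotientGroup.mk' N) p11
    rw [map_pow, map_one] at q9
    rw [map_pow, map_mul, q7, mul_one, map_one] at q11
    rw [← QuotientGroup.eq_one_iff]
    change QuotientGroup.mk' N (T 8) = 1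
    have := pow_gcd_eq_one.2 ⟨q9, q11⟩
    simpa using this
  rw [eq_top_iff, ← hT, Subgroup.closure_le]
  rintro _ ⟨j, rfl⟩
  by_cases h : j = 8
  · subst h; exact h8
  · exact hj j h

theorem normal_top_rho (N : Subgroup Γ) [N.Normal] (h : T 7 ∈ N) : N = ⊤ :=
  normal_top lam T hT ε hε hεT N ⟨_, rho_three.mem_alternatingGroup, rho_three.ne_one, T 7, h, by
    rw [hεT, gens_ne lam (by decide)]; rfl⟩

theorem perfect : commutator Γ = ⊤ := by
  have hr : ∀ e ∈ alternatingGroup (Om n), ∃ x, ε x = SW.rt e := fun e he =>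
    alt_mem lam ε.range (fun j => ⟨T j, hεT j⟩) he
  have h5 : 5 ≤ Nat.card (Om n) := by
    rw [Nat.card_eq_fintype_card]; exact le_trans (by norm_num) card_Om
  obtain ⟨g, h, hgh⟩ := IsThreeCycle.mem_commutatorSet_alternatingGroup
    (g := ⟨_, (@rho_three n).mem_alternatingGroup⟩) h5 rho_three
  obtain ⟨x, hx⟩ := hr g g.2
  obtain ⟨y, hy⟩ := hr h h.2
  refine normal_top lam T hT ε hε hεT _
    ⟨_, rho_three.mem_alternatingGroup, rho_three.ne_one, ⁅x, y⁆,
      Subgroup.commutator_mem_commutator (Subgroup.mem_top _) (Subgroup.mem_top _), ?_⟩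
  rw [map_commutatorElement, hx, hy, ← map_commutatorElement]
  exact congrArg (fun z : alternatingGroup (Om n) => SW.rt z.1) hgh

omit hT hε in
lemma T7_ne : T 7 ≠ 1 := by
  intro h
  have := congrArg SW.top (hεT 7)
  rw [h, map_one, gens_top] at this
  exact (@rho_three n).ne_one this.symm

end

end Pool.Agent.H794Z.Gad
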