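import Pool.Agent.H794Z.Count

set_option autoImplicit false
set_option linter.unusedSectionVars false
open Pointwise Equiv Equiv.Perm

namespace Pool.Agent.H794Z.Gad
open Grig Alt

/-- The ambient iterated wreath product. -/
abbrev GG (n : ℕ) (Λ Z : Type) := Wr (Wr Λ (Om n)) Z

variable {n : ℕ} {Λ G A Z : Type} [Group Λ] [Group G] [Group A] [Fintype A] [Fintype Z]
  [DecidableEq Z]

/-- Elements with trivial sections. -/
def FF (n : ℕ) (Λ Z : Type) [Group Λ] : Subgroup (GG n Λ Z) where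
  carrier := {γ | ∀ z s, (γ.fn z).fn s = 1}
  one_mem' := fun _ _ => rfl
  mul_mem' := by
    intro a b ha hb z s
    simp only [SW.mul_fn, ha z, hb _ _, mul_one]
  inv_mem' := by
    intro a ha z s
    simp only [SW.inv_fn, ha _ _, inv_one]

/-- The diagonal potential. -/
def Phat (lam : Fin 9 → Λ) (y : X n) : GG n Λ Z := SW.bs fun _ => Phi lam y

/-- The base cosets. -/
def oo (Z : Type) (lam : Fin 9 → Λ) (y : X n) : GG n Λ Z ⧸ FF n Λ Z := QuotientGroup.mk (Phat lam y)

lemma smul_oo_iff (lam : Fin 9 → Λ) (γ δ : GG n Λ Z) (y' : X n) :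
    γ • (QuotientGroup.mk δ : GG n Λ Z ⧸ FF n Λ Z) = oo Z lam y' ↔
      (Phat lam y')⁻¹ * (γ * δ) ∈ FF n Λ Z := by
  rw [oo, MulAction.Quotient.smul_mk, eq_comm, QuotientGroup.eq, smul_eq_mul]

lemma smul_oo_of (lam : Fin 9 → Λ) (γ : GG n Λ Z) (y y' : X n)
    (h : ∀ z, ∃ e, γ.fn z * Phi lam y = Phi lam y' * SW.rt e) :
    γ • oo Z lam y = oo Z lam y' := by
  rw [oo, smul_oo_iff]
  intro z s
  obtain ⟨e, he⟩ := h z
  have : ((Phat lam y')⁻¹ * (γ * Phat lam y) : GG n Λ Z).fn z = SW.rt e := by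
    simp [Phat, he]
  rw [this]; rfl

lemma eq_of_smul_oo (lam : Fin 9 → Λ) (γ γ' : GG n Λ Z) (x y : X n)
    (h : γ • oo Z lam x = oo Z lam y) (h' : γ' • oo Z lam x = oo Z lam y) (ht : γ.top = γ'.top)
    (hz : ∀ z, (γ.fn z).top = (γ'.fn z).top) : γ = γ' := by
  rw [oo, smul_oo_iff] at h h'
  refine SW.ext (funext fun z => SW.ext (funext fun s => ?_) (hz z)) ht
  have e1 := h z s
  have e2 := h' z s
  simp only [Phat, Phi, SW.mul_fn, SW.inv_fn, SW.bs_fn, SW.bs_top, SW.inv_top, inv_one, one_smul,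
    hz z] at e1 e2
  rw [← e2] at e1
  exact mul_right_cancel (mul_left_cancel e1)

section
variable (lam : Fin 9 → Λ) (E : G →* GG n Λ Z) (o2 : GG n Λ Z ⧸ FF n Λ Z)

open Classical in
/-- A lamp supported on a coset. -/
noncomputable def lamp (η : GG n Λ Z ⧸ FF n Λ Z) (a : A) : G → A :=
  fun h => if E h • η = oo Z lam (x2 n) then a else 1

/-- Moving generators. -/
def TypM (s : L) (u : SW A G G) : Prop :=
  (∀ h, u.fn h = 1) ∧ E u.top = SW.bs fun _ => SW.rt (mv (gen n s))

/-- Local elements. -/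
def LocG (γ : GG n Λ Z) : Prop :=
  (∀ y, y ≠ x1 n → γ • oo Z lam y = oo Z lam y) ∧ ∀ z, (γ.fn z).top ∈ LocSet n

/-- Local generators. -/
def TypL (u : SW A G G) : Prop :=
  LocG lam (E u.top) ∧ ((∀ h, u.fn h = 1) ∨
    (u.top = 1 ∧ ∃ a, u.fn = lamp lam E (oo Z lam (x2 n)) a ∨ u.fn = lamp lam E o2 a))

/-- Typed generators. -/
def Typ (u : SW A G G) (m : List L) : Prop :=
  (∃ s, m = [s] ∧ TypM E s u) ∨ (m = [L.a, L.a] ∧ TypL lam E o2 u)

lemma ev_aa : ev n [L.a, L.a] = 1 := by
  rw [ev_cons, ev_cons, ev_nil, mul_one, gen_mul_self]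

lemma typ_smul {u : SW A G G} {m : List L} (h : Typ lam E o2 u m) (y : X n) (hy : y ≠ x1 n) :
    E u.top • oo Z lam y = oo Z lam (ev n m y) := by
  rcases h with ⟨s, rfl, h⟩ | ⟨rfl, h⟩
  · refine smul_oo_of lam _ _ _ fun z => ⟨mv (gen n s), ?_⟩
    rw [h.2, SW.bs_fn, rt_mv_Phi, ev_cons, ev_nil, mul_one]
  · rw [ev_aa]; exact h.1.1 y hy

lemma list_smul (l : List (SW A G G × List L)) (hl : ∀ t ∈ l, Typ lam E o2 t.1 t.2)
    (hlen : (l.flatMap Prod.snd).length ≤ n) :
    E (l.map Prod.fst).prod.top • oo Z lam (x2 n) = oo Z lam (ev n (l.flatMap Prod.snd) (x2 n)) := by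
  induction l with
  | nil => simp
  | cons t l ih =>
    simp only [List.flatMap_cons, List.length_append] at hlen
    rw [List.map_cons, List.prod_cons, SW.mul_top, map_mul, mul_smul,
      ih (fun t ht => hl t (by simp [ht])) (by omega), List.flatMap_cons, ev_append]
    refine typ_smul lam E o2 (hl t (by simp)) _ fun h => ?_
    have := far n (l.flatMap Prod.snd).reverse (by
      rw [ev_reverse, Perm.inv_eq_iff_eq]; exact h.symm)
    rw [List.length_reverse] at this
    omega

/-- Lamp configurations of short words. -/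
def LS (A2 : Finset (X n)) : Set (G → A) :=
  {f | ∃ l1 l2 : GG n Λ Z ⧸ FF n Λ Z → A,
    (∀ η, η ∉ oo Z lam '' A2 → l1 η = 1 ∧ l2 η = 1) ∧
    ∀ h, f h = l1 (E h • oo Z lam (x2 n)) * l2 (E h • o2)}

/-- The set of elements with given moving part and inverted orbits. -/
def Cell (g : Perm (X n)) (A1 A2 : Finset (X n)) : Set (SW A G G) :=
  {w | (∀ z, ((E w.top).fn z).top * (mv g)⁻¹ ∈ Nf A1 A2) ∧
    E w.top • oo Z lam (x2 n) = oo Z lam (g (x2 n)) ∧ w.fn ∈ LS lam E o2 A2}

lemma mem_cell (hsep : ∀ (h : G) (y y' : X n),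
      ¬ (E h • oo Z lam (x2 n) = oo Z lam y ∧ E h • o2 = oo Z lam y'))
    {A1 A2 : Finset (X n)} (hd : Disjoint A1 A2)
    (l : List (SW A G G × List L)) (hl : ∀ t ∈ l, Typ lam E o2 t.1 t.2)
    (hlen : (l.flatMap Prod.snd).length ≤ n)
    (h1 : ∀ y, Pt n (l.flatMap Prod.snd) (x1 n) y → y ∈ A1)
    (h2 : ∀ y, Pt n (l.flatMap Prod.snd) (x2 n) y → y ∈ A2) :
    (l.map Prod.fst).prod ∈ Cell lam E o2 (ev n (l.flatMap Prod.snd)) A1 A2 := by
  classical
  refine ⟨?_, list_smul lam E o2 l hl hlen, ?_⟩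
  · induction l using List.reverseRecOn with
    | nil => intro z; simpa using one_mem_Nf A1 A2
    | append_singleton l t ih =>
      simp only [List.flatMap_append, List.flatMap_cons, List.flatMap_nil, List.append_nil,
        List.length_append] at hlen h1 h2 ⊢
      have mono : ∀ x y, Pt n (l.flatMap Prod.snd) x y → Pt n (l.flatMap Prod.snd ++ t.2) x y := by
        rintro x y ⟨w1, w2, h, rfl⟩
        exact ⟨w1, w2 ++ t.2, by rw [h, List.append_assoc], rfl⟩
      have ih' := ih (fun t ht => hl t (by simp [ht])) (by omega) (fun y h => h1 y (mono _ _ h))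
        (fun y h => h2 y (mono _ _ h))
      intro z
      simp only [List.map_append, List.map_cons, List.map_nil, List.prod_append, List.prod_cons,
        List.prod_nil, mul_one, SW.mul_top, map_mul, SW.mul_fn, ev_append]
      rcases hl t (by simp) with ⟨s, hs, h⟩ | ⟨hs, h⟩
      · rw [h.2, hs, ev_cons, ev_nil, mul_one]
        simpa [mul_assoc] using ih' z
      · rw [hs] at h2
        have := mul_loc hd (ih' z) (ev n (l.flatMap Prod.snd))
          (h1 _ ⟨_, _, rfl, rfl⟩) (h2 _ ⟨_, _, rfl, rfl⟩)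
          (h2 _ ⟨l.flatMap Prod.snd ++ [L.a], [L.a], by simp, by rw [ev_append]; rfl⟩)
          (h.1.2 ((E (l.map Prod.fst).prod.top).top⁻¹ • z))
        rw [hs, ev_aa]
        simpa [mul_assoc] using this
  · induction l using List.reverseRecOn with
    | nil => exact ⟨fun _ => 1, fun _ => 1, fun _ _ => ⟨rfl, rfl⟩, fun h => by simp⟩
    | append_singleton l t ih =>
      simp only [List.flatMap_append, List.flatMap_cons, List.flatMap_nil, List.append_nil,
        List.length_append] at hlen h1 h2 ⊢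
      have mono : ∀ x y, Pt n (l.flatMap Prod.snd) x y → Pt n (l.flatMap Prod.snd ++ t.2) x y := by
        rintro x y ⟨w1, w2, h, rfl⟩
        exact ⟨w1, w2 ++ t.2, by rw [h, List.append_assoc], rfl⟩
      obtain ⟨l1, l2, hs, hf⟩ := ih (fun t ht => hl t (by simp [ht])) (by omega)
        (fun y h => h1 y (mono _ _ h)) (fun y h => h2 y (mono _ _ h))
      have hb := list_smul lam E o2 l (fun t ht => hl t (by simp [ht])) (by omega)
      simp only [List.map_append, List.map_cons, List.map_nil, List.prod_append, List.prod_cons,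
        List.prod_nil, mul_one]
      set w := (l.map Prod.fst).prod
      set y0 := ev n (l.flatMap Prod.snd) (x2 n)
      have hy0 : y0 ∈ A2 := h2 _ ⟨_, _, rfl, rfl⟩
      have triv : (∀ h, t.1.fn h = 1) → (w * t.1).fn ∈ LS lam E o2 A2 := fun ht =>
        ⟨l1, l2, hs, fun h => by rw [SW.mul_fn, ht, mul_one, hf]⟩
      have key : ∀ (η : GG n Λ Z ⧸ FF n Λ Z) (h : G),
          E (w.top⁻¹ • h) • η = oo Z lam (x2 n) ↔ E h • η = oo Z lam y0 := by
        intro η h
        rw [smul_eq_mul, map_mul, mul_smul, map_inv, inv_smul_eq_iff, hb]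
      rcases hl t (by simp) with ⟨s, _, h⟩ | ⟨_, _, h | ⟨_, a, h | h⟩⟩
      · exact triv h.1
      · exact triv h
      · refine ⟨Function.update l1 (oo Z lam y0) (l1 (oo Z lam y0) * a), l2, ?_, fun g => ?_⟩
        · intro η hη
          refine ⟨?_, (hs η hη).2⟩
          rw [Function.update_of_ne (fun h => hη ⟨y0, hy0, h.symm⟩)]; exact (hs η hη).1
        · rw [SW.mul_fn, hf, h, lamp]
          split_ifs with hc <;> rw [key] at hc
          · have : l2 (E g • o2) = 1 := by
              refine (hs _ ?_).2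
              rintro ⟨y', _, hy'⟩
              exact hsep g y0 y' ⟨hc, hy'.symm⟩
            rw [this, hc, Function.update_self, mul_one, mul_one]
          · rw [Function.update_of_ne hc, mul_one]
      · refine ⟨l1, Function.update l2 (oo Z lam y0) (l2 (oo Z lam y0) * a), ?_, fun g => ?_⟩
        · intro η hη
          refine ⟨(hs η hη).1, ?_⟩
          rw [Function.update_of_ne (fun h => hη ⟨y0, hy0, h.symm⟩)]; exact (hs η hη).2
        · rw [SW.mul_fn, hf, h, lamp]
          split_ifs with hc <;> rw [key] at hc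
          · rw [hc, Function.update_self, mul_assoc]
          · rw [Function.update_of_ne hc, mul_one]

lemma LS_bound (A2 : Finset (X n)) :
    (LS lam E o2 A2 : Set (G → A)).Finite ∧
      (LS lam E o2 A2 : Set (G → A)).ncard ≤ Fintype.card A ^ (2 * A2.card) := by
  classical
  let O : Finset (GG n Λ Z ⧸ FF n Λ Z) := A2.image (oo Z lam)
  let ex : (O → A) → GG n Λ Z ⧸ FF n Λ Z → A := fun f η => if h : η ∈ O then f ⟨η, h⟩ else 1
  let Ψ : (O → A) × (O → A) → G → A :=
    fun p h => ex p.1 (E h • oo Z lam (x2 n)) * ex p.2 (E h • o2)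
  have hsub : (LS lam E o2 A2 : Set (G → A)) ⊆ (Finset.univ.image Ψ : Finset (G → A)) := by
    rintro f ⟨l1, l2, hs, hf⟩
    refine Finset.mem_coe.2 (Finset.mem_image.2 ⟨(fun η => l1 η, fun η => l2 η), by simp, ?_⟩)
    funext h
    have e1 : ∀ η, ex (fun η => l1 η) η = l1 η := by
      intro η
      simp only [ex]
      split_ifs with hc
      · rfl
      · exact ((hs η (by simpa [O] using hc)).1).symm
    have e2 : ∀ η, ex (fun η => l2 η) η = l2 η := by
      intro η
      simp only [ex]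
      split_ifs with hc
      · rfl
      · exact ((hs η (by simpa [O] using hc)).2).symm
    simp only [Ψ, e1, e2, hf]
  refine ⟨(Finset.finite_toSet _).subset hsub, ?_⟩
  refine (Set.ncard_le_ncard hsub (Finset.finite_toSet _)).trans ?_
  rw [Set.ncard_coe_finset]
  refine Finset.card_image_le.trans ?_
  have hO : O.card ≤ A2.card := Finset.card_image_le
  have hA : 1 ≤ Fintype.card A := Fintype.card_pos
  simp only [Finset.card_univ, Fintype.card_prod, Fintype.card_fun, Fintype.card_coe, ← pow_add]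
  exact Nat.pow_le_pow_right hA (by omega)

lemma cell_bound (hE : Function.Injective E) (g : Perm (X n)) (A1 A2 : Finset (X n)) (M : ℕ)
    (hM : 1 ≤ M) (h1 : A1.card ≤ M) (h2 : A2.card ≤ M) :
    (Cell lam E o2 g A1 A2 : Set (SW A G G)).Finite ∧
    (Cell lam E o2 g A1 A2 : Set (SW A G G)).ncard ≤
      Fintype.card Z ^ Fintype.card Z * ((18 * M) ^ (21 * M)) ^ Fintype.card Z *
        Fintype.card A ^ (2 * M) := by
  classical
  obtain ⟨hf, hc⟩ := LS_bound (A := A) lam E o2 A2
  let N : Finset (Perm (Om n)) := (Set.toFinite (Nf A1 A2)).toFinset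
  have hN : N.card ≤ (18 * M) ^ (21 * M) := by
    rw [← Set.ncard_eq_toFinset_card]; exact ncard_Nf A1 A2 M hM h1 h2
  let T : Finset (Perm Z × (Z → Perm (Om n)) × (G → A)) :=
    Finset.univ ×ˢ (Fintype.piFinset fun _ => N) ×ˢ hf.toFinset
  let Ψ : SW A G G → Perm Z × (Z → Perm (Om n)) × (G → A) :=
    fun w => ((E w.top).top, fun z => ((E w.top).fn z).top * (mv g)⁻¹, w.fn)
  have hmap : ∀ w ∈ (Cell lam E o2 g A1 A2 : Set (SW A G G)), Ψ w ∈ (T : Set _) := by
    intro w hw
    simp only [T, Ψ, Finset.coe_product, Set.mem_prod, Finset.coe_univ, Set.mem_univ, true_and,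
      Finset.mem_coe, Fintype.mem_piFinset, Set.Finite.mem_toFinset, N]
    exact ⟨hw.1, hw.2.2⟩
  have hinj : Set.InjOn Ψ (Cell lam E o2 g A1 A2 : Set (SW A G G)) := by
    intro w hw w' hw' h
    simp only [Ψ, Prod.mk.injEq] at h
    refine SW.ext h.2.2 (hE (eq_of_smul_oo lam _ _ _ _ hw.2.1 hw'.2.1 h.1 fun z => ?_))
    exact mul_right_cancel (congrFun h.2.1 z)
  refine ⟨Set.Finite.of_injOn hmap hinj T.finite_toSet, ?_⟩
  refine (Set.ncard_le_ncard_of_injOn Ψ hmap hinj T.finite_toSet).trans ?_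
  rw [Set.ncard_coe_finset, Finset.card_product, Finset.card_product, Fintype.card_piFinset,
    Finset.prod_const, Finset.card_univ, Finset.card_univ, mul_assoc]
  refine Nat.mul_le_mul ?_ (Nat.mul_le_mul (Nat.pow_le_pow_left hN _) ?_)
  · rw [Fintype.card_perm]; exact Nat.factorial_le_pow _
  · rw [← Set.ncard_eq_toFinset_card _ hf]
    exact hc.trans (Nat.pow_le_pow_right Fintype.card_pos (by omega))

end

theorem ball_bound (n0 k : ℕ) (lam : Fin 9 → Λ) (E : G →* GG (n0 + k) Λ Z)
    (hE : Function.Injective E) (o2 : GG (n0 + k) Λ Z ⧸ FF (n0 + k) Λ Z)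
    (hsep : ∀ (h : G) (y y' : X (n0 + k)),
      ¬ (E h • oo Z lam (x2 _) = oo Z lam y ∧ E h • o2 = oo Z lam y'))
    (U : Set (SW A G G)) (hU : ∀ u ∈ U, ∃ m, Typ lam E o2 u m) (R m M : ℕ) (hR : 4 * R ≤ n0 + k)
    (hm : 5 ^ k * (16 * R) + 6 * 12 ^ k ≤ 6 ^ k * m) (hM : 2 * m + 2 * 2 ^ k ≤ M) :
    (U ^ R).Finite ∧ (U ^ R).ncard ≤ 10 ^ 2 ^ k * 5 ^ m * (Fintype.card Z ^ Fintype.card Z *
      ((18 * M) ^ (21 * M)) ^ Fintype.card Z * Fintype.card A ^ (2 * M)) := by
  classical
  obtain ⟨T, hT1, hT2, hT3⟩ := codes k m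
  let B : Set (X (n0 + k)) := {y | ∃ w : List L, w.length ≤ 2 * R ∧ ev _ w (x2 _) = y}
  let gc : Code k → Perm (X (n0 + k)) := fun c =>
    if h : ∃ w, enc k w = c then ev _ h.choose else 1
  let C : Code k → Set (SW A G G) := fun c =>
    Cell lam E o2 (gc c) ((dec n0 k c).filter fun y => y ∉ B) ((dec n0 k c).filter fun y => y ∈ B)
  have hM1 : 1 ≤ M := by
    have : 1 ≤ 2 ^ k := Nat.one_le_two_pow
    omega
  have hC : ∀ c ∈ T, (C c).Finite ∧ (C c).ncard ≤ Fintype.card Z ^ Fintype.card Z *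
      ((18 * M) ^ (21 * M)) ^ Fintype.card Z * Fintype.card A ^ (2 * M) := by
    intro c hc
    have h1 := card_dec n0 k c
    have h2 := hT3 c hc
    exact cell_bound lam E o2 hE _ _ _ M hM1 ((Finset.card_filter_le _ _).trans (by omega))
      ((Finset.card_filter_le _ _).trans (by omega))
  have hsub : U ^ R ⊆ ⋃ c ∈ T, C c := by
    intro w hw
    obtain ⟨l, hl1, hl2, rfl⟩ := (mem_pow_iff_list U R w).1 hw
    choose! f hf using hU
    let l' : List (SW A G G × List L) := l.map fun u => (u, f u)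
    have e1 : l'.map Prod.fst = l := by simp [l', Function.comp_def]
    have e2 : ∀ t ∈ l', Typ lam E o2 t.1 t.2 := by
      intro t ht
      obtain ⟨u, hu, rfl⟩ := List.mem_map.1 ht
      exact hf u (hl2 u hu)
    have e3 : ∀ l'' : List (SW A G G × List L), (∀ t ∈ l'', Typ lam E o2 t.1 t.2) →
        (l''.flatMap Prod.snd).length ≤ 2 * l''.length := by
      intro l'' h
      induction l'' with
      | nil => simp
      | cons t r ih =>
        have := ih fun t ht => h t (by simp [ht])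
        have h3 : t.2.length ≤ 2 := by
          rcases h t (by simp) with ⟨s, hs, _⟩ | ⟨hs, _⟩ <;> simp [hs]
        simp only [List.flatMap_cons, List.length_append, List.length_cons]; omega
    have e4 : (l'.flatMap Prod.snd).length ≤ 2 * R := by
      have := e3 l' e2
      simpa [l', hl1] using this
    set v := l'.flatMap Prod.snd with hv
    have hsz : size k (enc k v) ≤ m := by
      have a1 := size_enc k v
      have a2 := wt_le v
      have a3 : 5 ^ k * wt v ≤ 5 ^ k * (16 * R) := Nat.mul_le_mul_left _ (by omega)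
      have a4 : 6 ^ k * size k (enc k v) ≤ 6 ^ k * m := by nlinarith [Nat.zero_le (6 ^ k)]
      exact Nat.le_of_mul_le_mul_left a4 (by positivity)
    simp only [Set.mem_iUnion]
    refine ⟨enc k v, hT1 _ hsz, ?_⟩
    have hg : gc (enc k v) = ev _ v := by
      have hex : ∃ w, enc k w = enc k v := ⟨v, rfl⟩
      simp only [gc, dif_pos hex]
      exact ev_eq_of_enc n0 k _ _ hex.choose_spec
    simp only [C, hg]
    rw [← e1]
    refine mem_cell lam E o2 hsep ?_ l' e2 (by rw [← hv]; omega) ?_ ?_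
    · rw [Finset.disjoint_filter]; tauto
    · intro y hy
      refine Finset.mem_filter.2 ⟨mem_dec n0 k false v y hy, ?_⟩
      rintro ⟨w', hw', h⟩
      obtain ⟨w1, w2, h12, rfl⟩ := hy
      have := far (n0 + k) (w'.reverse ++ w1) (by
        rw [ev_append, ev_reverse, Perm.mul_apply, Perm.inv_eq_iff_eq]; exact h.symm)
      have h5 : w1.length ≤ v.length := by rw [hv, h12]; simp
      simp only [List.length_append, List.length_reverse] at this
      omega
    · intro y hy
      refine Finset.mem_filter.2 ⟨mem_dec n0 k true v y hy, ?_⟩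
      obtain ⟨w1, w2, h12, rfl⟩ := hy
      have h5 : w1.length ≤ v.length := by rw [hv, h12]; simp
      exact ⟨w1, by omega, rfl⟩
  have hfin : (⋃ c ∈ T, C c).Finite := Set.Finite.biUnion T.finite_toSet fun c hc => (hC c hc).1
  refine ⟨hfin.subset hsub, (Set.ncard_le_ncard hsub hfin).trans ?_⟩
  refine (Finset.set_ncard_biUnion_le T C).trans ?_
  refine (Finset.sum_le_card_nsmul _ _ _ fun c hc => (hC c hc).2).trans ?_
  rw [smul_eq_mul]
  exact Nat.mul_le_mul_right _ hT2

end Pool.Agent.H794Z.Gad
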