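import Mathlib

set_option autoImplicit false

namespace Pool.Agent.H794Z.Gad

lemma expo (z k t : ℕ) (t1 : 1 ≤ t) : 4 * t + 3 * (22 * t) +
    (z * z + (11 + 2 * k) * (21 * (46 * t)) * z + 6 * (2 * (46 * t))) ≤
    (622 + z * z + 10626 * z) * (k + 1) * t := by
  have i1 : z * z ≤ z * z * ((k + 1) * t) := Nat.le_mul_of_pos_right _ (by positivity)
  nlinarith [Nat.zero_le (k * t), Nat.zero_le (k * t * z)]

set_option maxHeartbeats 400000 in
lemma numeric (z : ℕ) (b : ℝ) (hb : 1 < b) : ∃ k m M : ℕ,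
    5 ^ k * (16 * 4 ^ k) + 6 * 12 ^ k ≤ 6 ^ k * m ∧ 2 * m + 2 * 2 ^ k ≤ M ∧
    ((10 ^ 2 ^ k * 5 ^ m * (z ^ z * ((18 * M) ^ (21 * M)) ^ z * 60 ^ (2 * M)) : ℕ) : ℝ)
      ≤ b ^ 4 ^ k := by
  obtain ⟨c, hc⟩ : ∃ c : ℕ, c = 622 + z * z + 10626 * z := ⟨_, rfl⟩
  have hlog : 0 < Real.log b := Real.log_pos hb
  have h2 : 0 < Real.log 2 := Real.log_pos (by norm_num)
  have ht : Filter.Tendsto (fun k : ℕ => (2 * c * Real.log 2) * ((k : ℝ) * (5 / 6) ^ k + (5 / 6) ^ k))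
      Filter.atTop (nhds ((2 * c * Real.log 2) * (0 + 0))) :=
    ((tendsto_self_mul_const_pow_of_lt_one (by norm_num) (by norm_num)).add
      (tendsto_pow_atTop_nhds_zero_of_lt_one (by norm_num) (by norm_num))).const_mul _
  obtain ⟨k, hk⟩ := (ht.eventually (gt_mem_nhds (by simpa using hlog))).exists
  obtain ⟨t, htdef⟩ : ∃ t : ℕ, t = 10 ^ k / 3 ^ k + 1 := ⟨_, rfl⟩
  have p3 : 0 < 3 ^ k := by positivity
  have a1 : 10 ^ k ≤ 3 ^ k * t := by
    have := Nat.div_add_mod (10 ^ k) (3 ^ k)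
    have := Nat.mod_lt (10 ^ k) p3
    rw [htdef]; nlinarith
  have a2 : 3 ^ k * t ≤ 2 * 10 ^ k := by
    have := Nat.mul_div_le (10 ^ k) (3 ^ k)
    have : 3 ^ k ≤ 10 ^ k := Nat.pow_le_pow_left (by norm_num) k
    rw [htdef]; nlinarith
  have a3 : 2 ^ k ≤ t := by
    have : 3 ^ k * 2 ^ k ≤ 10 ^ k := by
      rw [← mul_pow]; exact Nat.pow_le_pow_left (by norm_num) k
    exact Nat.le_of_mul_le_mul_left (this.trans a1) p3
  have a4 : t ≤ 2 * 4 ^ k := by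
    have : 10 ^ k ≤ 3 ^ k * 4 ^ k := by
      rw [← mul_pow]; exact Nat.pow_le_pow_left (by norm_num) k
    exact Nat.le_of_mul_le_mul_left (by nlinarith) p3
  have t1 : 1 ≤ t := htdef ▸ Nat.le_add_left _ _
  refine ⟨k, 22 * t, 46 * t, ?_, by omega, ?_⟩
  · have e1 : 5 ^ k * 4 ^ k = 2 ^ k * 10 ^ k := by rw [← mul_pow, ← mul_pow]; norm_num
    have e2 : 6 ^ k = 2 ^ k * 3 ^ k := by rw [← mul_pow]; norm_num
    have e3 : 12 ^ k ≤ 2 ^ k * 10 ^ k := by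
      rw [← mul_pow]; exact Nat.pow_le_pow_left (by norm_num) k
    have e4 : 2 ^ k * 10 ^ k ≤ 2 ^ k * (3 ^ k * t) := Nat.mul_le_mul_left _ a1
    rw [e2]; nlinarith
  · have b1 : 10 ^ 2 ^ k ≤ 2 ^ (4 * t) := by
      rw [pow_mul]
      exact (Nat.pow_le_pow_left (by norm_num) _).trans (Nat.pow_le_pow_right (by norm_num) a3)
    have b2 : 5 ^ (22 * t) ≤ 2 ^ (3 * (22 * t)) := by
      rw [pow_mul 2]; exact Nat.pow_le_pow_left (by norm_num) _
    have b3 : z ^ z ≤ 2 ^ (z * z) := by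
      rw [pow_mul]; exact Nat.pow_le_pow_left Nat.lt_two_pow_self.le _
    have b4 : ((18 * (46 * t)) ^ (21 * (46 * t))) ^ z ≤ 2 ^ ((11 + 2 * k) * (21 * (46 * t)) * z) := by
      rw [pow_mul 2, pow_mul 2]
      refine Nat.pow_le_pow_left (Nat.pow_le_pow_left ?_ _) _
      rw [pow_add, pow_mul]; norm_num; omega
    have b5 : 60 ^ (2 * (46 * t)) ≤ 2 ^ (6 * (2 * (46 * t))) := by
      rw [pow_mul 2]; exact Nat.pow_le_pow_left (by norm_num) _
    have b6 : 10 ^ 2 ^ k * 5 ^ (22 * t) * (z ^ z * ((18 * (46 * t)) ^ (21 * (46 * t))) ^ z *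
        60 ^ (2 * (46 * t))) ≤ 2 ^ (c * (k + 1) * t) := by
      refine (Nat.mul_le_mul (Nat.mul_le_mul b1 b2) (Nat.mul_le_mul (Nat.mul_le_mul b3 b4) b5)).trans ?_
      rw [← pow_add, ← pow_add, ← pow_add, ← pow_add]
      exact Nat.pow_le_pow_right (by norm_num) (hc ▸ expo z k t t1)
    refine (Nat.cast_le.2 b6).trans ?_
    push_cast
    rw [← Real.log_le_log_iff (by positivity) (by positivity), Real.log_pow, Real.log_pow]
    push_cast
    have r1 : (t : ℝ) ≤ 2 * (5 / 6) ^ k * 4 ^ k := by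
      have : (3 : ℝ) ^ k * t ≤ 2 * 10 ^ k := by exact_mod_cast a2
      have e : (10 : ℝ) ^ k = 3 ^ k * ((5 / 6) ^ k * 4 ^ k) := by
        rw [← mul_pow, ← mul_pow]; norm_num
      rw [e] at this
      have p : (0 : ℝ) < 3 ^ k := by positivity
      nlinarith
    have p4 : (0 : ℝ) < 4 ^ k := by positivity
    calc (c : ℝ) * (k + 1) * t * Real.log 2 ≤ c * (k + 1) * (2 * (5 / 6) ^ k * 4 ^ k) * Real.log 2 := by
          gcongr
      _ = 4 ^ k * ((2 * c * Real.log 2) * ((k : ℝ) * (5 / 6) ^ k + (5 / 6) ^ k)) := by ring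
      _ ≤ 4 ^ k * Real.log b := by gcongr

end Pool.Agent.H794Z.Gad
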