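import Pool.Agent.H794Z.Lamp

set_option autoImplicit false
set_option linter.unusedSectionVars false
open Pointwise Equiv Equiv.Perm

namespace Pool.Agent.H794Z

/-- The restricted regular wreath product. -/
def LL (A G : Type) [Group A] [Group G] : Subgroup (SW A G G) where
  carrier := {w | (Function.mulSupport w.fn).Finite}
  one_mem' := by
    change (Function.mulSupport fun _ : G => (1 : A)).Finite
    simp
  mul_mem' := by
    intro a b ha hb
    refine (ha.union (hb.image fun x => a.top * x)).subset ?_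
    intro x hx
    by_contra hc
    simp only [Set.mem_union, not_or, Function.mem_mulSupport, not_not, Set.mem_image, not_exists,
      not_and] at hc
    apply hx
    have : b.fn (a.top⁻¹ * x) = 1 := by
      by_contra h
      exact hc.2 _ h (by simp)
    simp [hc.1, this]
  inv_mem' := by
    intro a ha
    refine (ha.image fun x => a.top⁻¹ * x).subset ?_
    intro x hx
    exact ⟨a.top * x, by simpa using hx, by simp⟩

/-- The inclusion of the top group. -/
def inl (A G : Type) [Group A] [Group G] : G →* LL A G :=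
  (SW.rt : G →* SW A G G).codRestrict _ fun g => by
    change (Function.mulSupport fun _ : G => (1 : A)).Finite
    simp

lemma LL_top {A G : Type} [Group A] [Group G] (K : Subgroup (LL A G))
    (h1 : ∀ g, inl A G g ∈ K) [DecidableEq G]
    (h2 : ∀ a : A, SW.bs (Pi.mulSingle (1 : G) a) ∈ K.map (LL A G).subtype) : K = ⊤ := by
  let K0 : Subgroup (G → A) := (K.map (LL A G).subtype).comap SW.bs
  have hr : ∀ g : G, (SW.rt g : SW A G G) ∈ K.map (LL A G).subtype := fun g => ⟨_, h1 g, rfl⟩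
  have hs : ∀ (g : G) (a : A), Pi.mulSingle g a ∈ K0 := by
    intro g a
    have := Subgroup.mul_mem _ (Subgroup.mul_mem _ (hr g) (h2 a)) (Subgroup.inv_mem _ (hr g))
    rw [SW.rt_mul_bs] at this
    change (SW.bs _ : SW A G G) ∈ K.map (LL A G).subtype
    convert this using 2
    funext x
    simp only [Pi.mulSingle_apply, smul_eq_mul, inv_mul_eq_one, eq_comm]
  rw [eq_top_iff]
  intro w _
  have hw : w.1.fn ∈ K0 := Gad.mem_of_single K0 hs w.2.toFinset _ (by simp)
  have := (K.map (LL A G).subtype).mul_mem hw (hr w.1.top)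
  rw [SW.bs_mul_rt] at this
  obtain ⟨w', hw', h⟩ := this
  rwa [← Subtype.ext h]

namespace Gad
open Grig Alt

variable {n : ℕ} {Λ G A Z : Type} [Group Λ] [Group G] [Group A] [Fintype A] [Fintype Z]
  [DecidableEq Z]

lemma finite_trans (δ : GG n Λ Z) (η : GG n Λ Z ⧸ FF n Λ Z) :
    {γ : GG n Λ Z | γ • (QuotientGroup.mk δ : GG n Λ Z ⧸ FF n Λ Z) = η}.Finite := by
  refine Set.Finite.of_injOn (f := fun γ : GG n Λ Z => (γ.top, fun z => (γ.fn z).top))
    (t := Set.univ) (fun _ _ => trivial) ?_ Set.finite_univ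
  intro γ hγ γ' hγ' h
  obtain ⟨h1, h2⟩ := Prod.mk.inj h
  have h3 : γ • (QuotientGroup.mk δ : GG n Λ Z ⧸ FF n Λ Z) = γ' • QuotientGroup.mk δ :=
    hγ.trans hγ'.symm
  rw [MulAction.Quotient.smul_mk, MulAction.Quotient.smul_mk, QuotientGroup.eq] at h3
  have h4 : (γ • δ)⁻¹ * γ' • δ = 1 := by
    refine SW.ext (funext fun z => SW.ext (funext fun s => h3 z s) ?_) ?_
    · have := fun z => congrFun h2 z
      simp [this, h1]
    · simp [h1]
  rw [inv_mul_eq_one, smul_eq_mul, smul_eq_mul] at h4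
  exact mul_right_cancel h4

lemma typ_inv (lam : Fin 9 → Λ) (E : G →* GG n Λ Z) (o2 : GG n Λ Z ⧸ FF n Λ Z) {u : SW A G G}
    {m : List L} (h : Typ lam E o2 u m) : Typ lam E o2 u⁻¹ m := by
  rcases h with ⟨s, hs, h⟩ | ⟨hs, h⟩
  · refine Or.inl ⟨s, hs, fun x => by simp [h.1], ?_⟩
    rw [SW.inv_top, map_inv, h.2, ← map_inv]
    congr 1
    funext z
    rw [Pi.inv_apply, ← map_inv, ← map_inv, gen_inv]
  · refine Or.inr ⟨hs, ⟨fun y hy => ?_, fun z => ?_⟩, ?_⟩
    · rw [SW.inv_top, map_inv, inv_smul_eq_iff, h.1.1 y hy]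
    · rw [SW.inv_top, map_inv, SW.inv_fn, SW.inv_top]
      rcases h.1.2 ((E u.top).top • z) with h | ⟨j, hj, h | h⟩
      · rw [h]; exact Or.inl inv_one
      · rw [h]; exact Or.inr ⟨j, hj, Or.inr rfl⟩
      · rw [h]; exact Or.inr ⟨j, hj, Or.inl (inv_inv _)⟩
    · rcases h.2 with h | ⟨ht, a, h | h⟩
      · exact Or.inl fun x => by simp [h]
      · refine Or.inr ⟨by simp [ht], a⁻¹, Or.inl ?_⟩
        funext x
        simp only [SW.inv_fn, ht, one_smul, h, lamp]
        split_ifs <;> simp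
      · refine Or.inr ⟨by simp [ht], a⁻¹, Or.inr ?_⟩
        funext x
        simp only [SW.inv_fn, ht, one_smul, h, lamp]
        split_ifs <;> simp

lemma locG_of (lam : Fin 9 → Λ) (γ : GG n Λ Z)
    (h : ∀ z, γ.fn z = 1 ∨ ∃ j : Fin 9, 5 ≤ j.val ∧ γ.fn z = gens n lam j) : LocG lam γ := by
  refine ⟨fun y hy => smul_oo_of lam γ y y fun z => ?_, fun z => ?_⟩
  · rcases h z with h | ⟨j, hj, h⟩
    · exact ⟨1, by simp [h]⟩
    · exact ⟨_, by rw [h, gens_Phi lam hj y hy]⟩
  · rcases h z with h | ⟨j, hj, h⟩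
    · exact Or.inl (by simp [h])
    · exact Or.inr ⟨j, hj, Or.inl (by rw [h, gens_top])⟩

theorem ball_bound' (n0 k : ℕ) (hn : n0 + k = n) (lam : Fin 9 → Λ) (E : G →* GG n Λ Z)
    (hE : Function.Injective E) (o2 : GG n Λ Z ⧸ FF n Λ Z)
    (hsep : ∀ (h : G) (y y' : X n),
      ¬ (E h • oo Z lam (x2 _) = oo Z lam y ∧ E h • o2 = oo Z lam y'))
    (U : Set (SW A G G)) (hU : ∀ u ∈ U, ∃ m, Typ lam E o2 u m) (R m M : ℕ) (hR : 4 * R ≤ n)
    (hm : 5 ^ k * (16 * R) + 6 * 12 ^ k ≤ 6 ^ k * m) (hM : 2 * m + 2 * 2 ^ k ≤ M) :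
    (U ^ R).Finite ∧ (U ^ R).ncard ≤ 10 ^ 2 ^ k * 5 ^ m * (Fintype.card Z ^ Fintype.card Z *
      ((18 * M) ^ (21 * M)) ^ Fintype.card Z * Fintype.card A ^ (2 * M)) := by
  subst hn
  exact ball_bound n0 k lam E hE o2 hsep U hU R m M hR hm hM

theorem thin (n0 k : ℕ) (hn : n0 + k = n) [Infinite Λ] [Nonempty Z] (lam : Fin 9 → Λ) {Γ : Type} [Group Γ]
    (T : Fin 9 → Γ) (hT : Subgroup.closure (Set.range T) = ⊤) (ε : Γ →* Wr Λ (Om n))
    (hε : Function.Injective ε) (hεT : ∀ j, ε (T j) = gens _ lam j)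
    (hfull : ∀ f, SW.bs f ∈ ε.range) (e : G →* Wr Γ Z) (he : Function.Injective e)
    (hfull' : ∀ f, SW.bs f ∈ e.range) (hA : commutator A = ⊤)
    (R m M : ℕ) (hR : 4 * R ≤ n)
    (hm : 5 ^ k * (16 * R) + 6 * 12 ^ k ≤ 6 ^ k * m) (hM : 2 * m + 2 * 2 ^ k ≤ M) (B : ℕ)
    (hB : 10 ^ 2 ^ k * 5 ^ m * (Fintype.card Z ^ Fintype.card Z *
      ((18 * M) ^ (21 * M)) ^ Fintype.card Z * Fintype.card A ^ (2 * M)) ≤ B) :
    (∃ S : Set (LL A G), S.Finite ∧ Subgroup.closure S = ⊤ ∧ (sy S ^ R).ncard ≤ B) ∧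
      (sy (Set.range T) ^ R).ncard ≤ B := by
  classical
  let E : G →* GG n Λ Z := (SW.mapA ε).comp e
  have hE : Function.Injective E := (SW.mapA_injective ε hε).comp he
  let Bad : Set Λ := Set.range fun p : Fin 9 × Fin 9 => (lam p.1)⁻¹ * lam p.2
  obtain ⟨ψ, hψ, hψB⟩ : ∃ ψ : Z × Om n → Λ, Function.Injective ψ ∧ ∀ p, ψ p ∉ Bad := by
    have hinf : (Badᶜ).Infinite := (Set.finite_range _).infinite_compl
    let f := hinf.natEmbedding
    let g := Fintype.equivFin (Z × Om n)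
    exact ⟨fun p => f (g p), fun p q h => g.injective (Fin.ext (f.injective (Subtype.ext h))),
      fun p => (f (g p)).2⟩
  let Ψ : GG n Λ Z := SW.bs fun z => SW.bs fun s => ψ (z, s)
  let o2 : GG n Λ Z ⧸ FF n Λ Z := QuotientGroup.mk (Phat lam (x2 n) * Ψ)
  obtain ⟨v, hv⟩ : ∃ v : G, E v • oo Z lam (x2 n) = o2 := by
    choose γ hγ using fun z => hfull fun s => lam (s.2 (x2 n)) * ψ (z, s) * (lam (s.2 (x2 n)))⁻¹
    obtain ⟨v, hv⟩ := hfull' γ
    refine ⟨v, ?_⟩
    rw [oo, MulAction.Quotient.smul_mk, smul_eq_mul]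
    congr 1
    refine SW.ext (funext fun z => SW.ext (funext fun s => ?_) ?_) ?_ <;>
      simp [E, hv, hγ, Phat, Phi, Ψ]
  have hsep : ∀ (h : G) (y y' : X n),
      ¬ (E h • oo Z lam (x2 n) = oo Z lam y ∧ E h • o2 = oo Z lam y') := by
    rintro h y y' ⟨h1, h2⟩
    replace h1 := (smul_oo_iff lam _ _ _).1 h1
    rw [smul_oo_iff] at h2
    obtain ⟨z⟩ := ‹Nonempty Z›
    let s : Om n := (u1 n, 0)
    have e1 := h1 z s
    have e2 := h2 z s
    simp only [Phat, Phi, Ψ, SW.mul_fn, SW.inv_fn, SW.bs_fn, SW.bs_top, SW.inv_top, inv_one,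
      one_smul, inv_mul_eq_one] at e1 e2
    refine hψB ((E h).top⁻¹ • z, ((E h).fn z).top⁻¹ • s) ⟨(s.2 y, s.2 y'), ?_⟩
    simp only
    rw [e2, ← mul_assoc (((E h).fn z).fn s), ← e1, inv_mul_cancel_left]
  have htriv : ∀ h : G, E h • oo Z lam (x2 n) = oo Z lam (x2 n) → E h • o2 = o2 → h = 1 := by
    intro h h1 h2
    have h1' := h1
    replace h1 := (smul_oo_iff lam _ _ _).1 h1
    rw [MulAction.Quotient.smul_mk, eq_comm, QuotientGroup.eq, smul_eq_mul] at h2
    have key : ∀ z s, (((E h).top⁻¹ • z, ((E h).fn z).top⁻¹ • s) : Z × Om n) = (z, s) := by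
      intro z s
      have e1 := h1 z s
      have e2 := h2 z s
      simp only [Phat, Phi, Ψ, SW.mul_fn, SW.inv_fn, SW.bs_fn, SW.bs_top, SW.inv_top, inv_one,
        one_smul, inv_mul_eq_one, SW.mul_top, mul_one] at e1 e2
      apply hψ
      rw [← mul_assoc, ← e1] at e2
      exact (mul_left_cancel e2).symm
    apply hE
    rw [map_one]
    refine eq_of_smul_oo lam _ _ _ _ h1' (one_smul _ _) ?_ fun z => ?_
    · rw [SW.one_top, ← inv_eq_one]
      ext z
      exact (Prod.mk.inj (key z (u1 n, 0))).1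
    · rw [SW.one_fn, SW.one_top, ← inv_eq_one]
      exact Equiv.ext fun s => (Prod.mk.inj (key z s)).2
  have hfin : ∀ (δ : GG n Λ Z) (a : A),
      (SW.bs (lamp lam E (QuotientGroup.mk δ) a) : SW A G G) ∈ LL A G := by
    intro δ a
    refine ((finite_trans δ (oo Z lam (x2 n))).preimage hE.injOn).subset ?_
    intro h hh
    by_contra hc
    exact hh (if_neg hc)
  let l1 : A → LL A G := fun a => ⟨_, hfin (Phat lam (x2 n)) a⟩
  let l2 : A → LL A G := fun a => ⟨_, hfin (Phat lam (x2 n) * Ψ) a⟩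
  let SG : Set G := e ⁻¹' (Set.range (fun j => SW.bs fun _ => T j) ∪ Set.range SW.rt ∪
    Set.range fun z => SW.bs (Pi.mulSingle z (T 7)))
  have hSGfin : SG.Finite :=
    (((Set.finite_range _).union (Set.finite_range _)).union (Set.finite_range _)).preimage he.injOn
  have hSG : Subgroup.closure SG = ⊤ := by
    let K' := (Subgroup.closure SG).map e
    have hin : ∀ w ∈ e.range, w ∈ Set.range (fun j => SW.bs fun _ => T j) ∪ Set.range SW.rt ∪
        Set.range (fun z => SW.bs (Pi.mulSingle z (T 7))) → w ∈ K' := by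
      rintro _ ⟨g, rfl⟩ h
      exact ⟨g, Subgroup.subset_closure h, rfl⟩
    have hdiag : ∀ γ : Γ, SW.bs (fun _ : Z => γ) ∈ K' := by
      intro γ
      have : Subgroup.closure (Set.range T) ≤
          K'.comap (SW.bs.comp (Pi.constMonoidHom Z Γ)) := by
        rw [Subgroup.closure_le]
        rintro _ ⟨j, rfl⟩
        exact hin _ (hfull' _) (Or.inl (Or.inl ⟨j, rfl⟩))
      exact this (by rw [hT]; trivial)
    have hs : ∀ (z : Z) (γ : Γ), Pi.mulSingle z γ ∈ K'.comap SW.bs := by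
      intro z γ
      let N : Subgroup Γ := (K'.comap SW.bs).comap (MonoidHom.mulSingle (fun _ : Z => Γ) z)
      have hN : N.Normal := by
        refine ⟨fun a ha g => ?_⟩
        have := K'.mul_mem (K'.mul_mem (hdiag g) ha) (K'.inv_mem (hdiag g))
        rw [← map_inv, ← map_mul, ← map_mul] at this
        change SW.bs _ ∈ K'
        convert this using 2
        funext z'
        simp only [MonoidHom.mulSingle_apply, Pi.mul_apply, Pi.inv_apply, Pi.mulSingle_apply]
        split_ifs <;> simp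
      have := normal_top_rho lam T hT ε hε hεT N (hin _ (hfull' _) (Or.inr ⟨z, rfl⟩))
      have h2 : γ ∈ N := by rw [this]; trivial
      exact h2
    rw [eq_top_iff]
    intro g _
    have h1 : SW.bs (e g).fn ∈ K' := mem_of_single (K'.comap SW.bs) hs Finset.univ _ (by simp)
    have h2 : SW.rt (e g).top ∈ K' := by
      refine hin _ ?_ (Or.inl (Or.inr ⟨_, rfl⟩))
      have := e.range.mul_mem (e.range.inv_mem (hfull' (e g).fn)) ⟨g, rfl⟩
      convert this using 1
      rw [eq_inv_mul_iff_mul_eq, SW.bs_mul_rt]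
    have := K'.mul_mem h1 h2
    rw [SW.bs_mul_rt] at this
    obtain ⟨g', hg', h⟩ := this
    rwa [← he h]
  let S : Set (LL A G) := inl A G '' SG ∪ Set.range l1 ∪ Set.range l2
  have hSfin : S.Finite := ((hSGfin.image _).union (Set.finite_range _)).union (Set.finite_range _)
  have hS : Subgroup.closure S = ⊤ := by
    have h1 : ∀ g, inl A G g ∈ Subgroup.closure S := by
      intro g
      have : Subgroup.closure SG ≤ (Subgroup.closure S).comap (inl A G) := by
        rw [Subgroup.closure_le]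
        intro g hg
        exact Subgroup.subset_closure (Or.inl (Or.inl ⟨g, hg, rfl⟩))
      exact this (by rw [hSG]; trivial)
    refine LL_top _ h1 fun a => ?_
    let K := (Subgroup.closure S).map (LL A G).subtype
    let N : Subgroup A := (K.comap SW.bs).comap (MonoidHom.mulSingle (fun _ : G => A) 1)
    have : commutator A ≤ N := by
      rw [commutator_def, Subgroup.commutator_le]
      intro a _ b _
      have a1 : SW.bs (lamp lam E (oo Z lam (x2 n)) a) ∈ K :=
        ⟨l1 a, Subgroup.subset_closure (Or.inl (Or.inr ⟨a, rfl⟩)), rfl⟩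
      have a2 : SW.bs (lamp lam E o2 b) ∈ K :=
        ⟨l2 b, Subgroup.subset_closure (Or.inr ⟨b, rfl⟩), rfl⟩
      have a3 : SW.rt v ∈ K := ⟨inl A G v, h1 v, rfl⟩
      have a4 := K.mul_mem (K.mul_mem a3 a2) (K.inv_mem a3)
      rw [SW.rt_mul_bs] at a4
      have a5 := K.mul_mem (K.mul_mem (K.mul_mem a1 a4) (K.inv_mem a1)) (K.inv_mem a4)
      rw [← map_inv, ← map_inv, ← map_mul, ← map_mul, ← map_mul] at a5
      change SW.bs _ ∈ K
      convert a5 using 2
      funext h
      have hk : E (v⁻¹ • h) • o2 = oo Z lam (x2 n) ↔ E h • o2 = o2 := by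
        rw [smul_eq_mul, map_mul, mul_smul, map_inv, inv_smul_eq_iff, hv]
      simp only [MonoidHom.mulSingle_apply, Pi.mul_apply, Pi.inv_apply, Pi.mulSingle_apply, lamp,
        hk, commutatorElement_def]
      by_cases c1 : h = 1
      · subst c1; simp
      · by_cases c2 : E h • oo Z lam (x2 n) = oo Z lam (x2 n)
        · have c3 : ¬ E h • o2 = o2 := fun c3 => c1 (htriv h c2 c3)
          simp [c1, c3]
        · simp [c1, c2]
    exact this (by rw [hA]; trivial)
  let U0 : Set (SW A G G) := (LL A G).subtype '' sy S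
  have hone : LocG lam (E 1) := locG_of lam _ fun z => Or.inl (by simp)
  have hS0 : ∀ u ∈ S, ∃ m, Typ lam E o2 u.1 m := by
    rintro u ((⟨g, hg, rfl⟩ | ⟨a, rfl⟩) | ⟨a, rfl⟩)
    · have hl : LocG lam (E g) → ∃ m, Typ lam E o2 (inl A G g).1 m :=
        fun h => ⟨_, Or.inr ⟨rfl, h, Or.inl fun _ => rfl⟩⟩
      rcases hg with (⟨j, hj⟩ | ⟨π, hπ⟩) | ⟨z, hz⟩
      · have hEg : E g = SW.bs fun _ => gens n lam j := by
          refine SW.ext (funext fun z => ?_) ?_ <;> simp [E, ← hj, hεT]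
        have hm : ∀ s, gens n lam j = SW.rt (mv (gen n s)) → ∃ m, Typ lam E o2 (inl A G g).1 m :=
          fun s hs => ⟨[s], Or.inl ⟨s, rfl, fun _ => rfl, by rw [← hs]; exact hEg⟩⟩
        by_cases h5 : 5 ≤ j.val
        · exact hl (locG_of lam _ fun z => Or.inr ⟨j, h5, by rw [hEg]; rfl⟩)
        · fin_cases j
          all_goals first | (exfalso; revert h5; decide) | skip
          · exact hl (locG_of lam _ fun z => Or.inl (by rw [hEg]; exact gens_zero lam))
          · exact hm L.a rfl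
          · exact hm L.b rfl
          · exact hm L.c rfl
          · exact hm L.d rfl
      · exact hl (locG_of lam _ fun z => Or.inl (by simp [E, ← hπ]))
      · refine hl (locG_of lam _ fun z' => ?_)
        by_cases hzz : z' = z
        · exact Or.inr ⟨7, by decide, by simp [E, ← hz, hzz, hεT]⟩
        · exact Or.inl (by simp [E, ← hz, hzz])
    · exact ⟨_, Or.inr ⟨rfl, hone, Or.inr ⟨rfl, a, Or.inl rfl⟩⟩⟩
    · exact ⟨_, Or.inr ⟨rfl, hone, Or.inr ⟨rfl, a, Or.inr rfl⟩⟩⟩
  have hU0 : ∀ u ∈ U0, ∃ m, Typ lam E o2 u m := by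
    rintro _ ⟨u, (hu | hu) | hu, rfl⟩
    · exact hS0 u hu
    · obtain ⟨m, hm⟩ := hS0 _ hu
      exact ⟨m, by simpa using typ_inv lam E o2 hm⟩
    · rw [Set.mem_singleton_iff] at hu
      subst hu
      exact ⟨_, Or.inr ⟨rfl, hone, Or.inl fun _ => rfl⟩⟩
  obtain ⟨hf, hb⟩ := ball_bound' n0 k hn lam E hE o2 hsep U0 hU0 R m M hR hm hM
  have transfer : ∀ {H : Type} [Group H] (φ : H →* SW A G G) (V : Set H), Function.Injective φ →
      (∀ x ∈ V, φ x ∈ U0) → (V ^ R).ncard ≤ B := by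
    intro H _ φ V hφ hV
    refine le_trans ?_ (hb.trans hB)
    refine Set.ncard_le_ncard_of_injOn φ (fun x hx => ?_) hφ.injOn hf
    simpa using map_mem_pow φ (L := 1) (by simpa using hV) hx
  refine ⟨⟨S, hSfin, hS, transfer (LL A G).subtype _ Subtype.val_injective
    fun x hx => ⟨x, hx, rfl⟩⟩, ?_⟩
  choose d hd using fun γ : Γ => hfull' fun _ => γ
  let d' : Γ →* G := MonoidHom.mk' d fun a b => he (by
    rw [map_mul, hd, hd, hd, ← map_mul]; rfl)
  have hd' : Function.Injective d' := by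
    intro a b h
    have := congrArg e h
    obtain ⟨z⟩ := ‹Nonempty Z›
    change e (d a) = e (d b) at this
    rw [hd, hd] at this
    exact congrArg (fun w => w.fn z) this
  refine transfer ((LL A G).subtype.comp ((inl A G).comp d')) _ ?_ ?_
  · intro a b h
    exact hd' (congrArg SW.top h)
  · have hj : ∀ j, inl A G (d' (T j)) ∈ S :=
      fun j => Or.inl (Or.inl ⟨_, Or.inl (Or.inl ⟨j, (hd _).symm⟩), rfl⟩)
    rintro x ((⟨j, rfl⟩ | hx) | hx)
    · exact ⟨_, subset_sy _ (hj j), rfl⟩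
    · obtain ⟨j, hj'⟩ := hx
      refine ⟨_, inv_mem_sy (subset_sy _ (hj j)), ?_⟩
      rw [hj']; simp
    · rw [Set.mem_singleton_iff] at hx
      subst hx
      exact ⟨1, one_mem_sy _, by simp⟩

end Gad

end Pool.Agent.H794Z
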