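import Pool.Agent.H794Z.Transfer
import Pool.Agent.H794Z.Numeric

set_option autoImplicit false
set_option linter.unusedSectionVars false
open Pointwise Equiv Equiv.Perm

namespace Pool.Agent.H794Z.Gad
open Grig Alt

/-- Groups with nine marked elements. -/
structure MG where
  carrier : Type
  grp : Group carrier
  T : Fin 9 → carrier

instance (M : MG) : Group M.carrier := M.grp

/-- The finite iterated wreath products. -/
noncomputable def tower (lev : ℕ → ℕ) : ℕ → ℕ → MG
  | 0, _ => ⟨PUnit, inferInstance, fun _ => 1⟩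
  | d + 1, i => ⟨Wr (tower lev d (i + 1)).carrier (Om (lev i)), inferInstance,
      gens (lev i) (tower lev d (i + 1)).T⟩

/-- The product of the finite stages. -/
abbrev Big (lev : ℕ → ℕ) (i : ℕ) : Type := ∀ d, (tower lev d i).carrier

/-- One coordinate of the wreath recursion. -/
noncomputable def Jd (lev : ℕ → ℕ) (i : ℕ) :
    ∀ d, Wr (Big lev (i + 1)) (Om (lev i)) →* (tower lev d i).carrier
  | 0 => 1
  | d + 1 => (SW.mapA (Pi.evalMonoidHom (fun d => (tower lev d (i + 1)).carrier) d) :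
      Wr (Big lev (i + 1)) (Om (lev i)) →* Wr (tower lev d (i + 1)).carrier (Om (lev i)))

lemma J_inj (lev : ℕ → ℕ) (i : ℕ) : Function.Injective (MonoidHom.pi (Jd lev i)) := by
  intro u v h
  refine SW.ext (funext fun x => funext fun d => ?_) ?_
  · exact congrArg (fun w : Wr (tower lev d (i + 1)).carrier (Om (lev i)) => w.fn x)
      (congrFun h (d + 1))
  · exact congrArg (fun w : Wr (tower lev 0 (i + 1)).carrier (Om (lev i)) => w.top)
      (congrFun h 1)

lemma J_gens (lev : ℕ → ℕ) (i : ℕ) (j : Fin 9) :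
    MonoidHom.pi (Jd lev i) (gens (lev i) (fun j d => (tower lev d (i + 1)).T j) j)
      = fun d => (tower lev d i).T j := by
  funext d
  cases d with
  | zero => rfl
  | succ d => exact gens_map (Pi.evalMonoidHom (fun d => (tower lev d (i + 1)).carrier) d) _ j

theorem exists_tower (lev : ℕ → ℕ) : ∃ (Λ : ℕ → Type) (_ : ∀ i, Group (Λ i))
    (T : ∀ i, Fin 9 → Λ i) (ε : ∀ i, Λ i →* Wr (Λ (i + 1)) (Om (lev i))),
    (∀ i, Subgroup.closure (Set.range (T i)) = ⊤) ∧ (∀ i, Function.Injective (ε i)) ∧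
      ∀ i j, ε i (T i j) = gens _ (T (i + 1)) j := by
  let Tt : ∀ i, Fin 9 → Big lev i := fun i j d => (tower lev d i).T j
  let Lam : ∀ i, Subgroup (Big lev i) := fun i => Subgroup.closure (Set.range (Tt i))
  let T : ∀ i, Fin 9 → Lam i := fun i j => ⟨Tt i j, Subgroup.subset_closure ⟨j, rfl⟩⟩
  have key : ∀ i, ∃ ε : Lam i →* Wr (Lam (i + 1)) (Om (lev i)), Function.Injective ε ∧
      ∀ j, ε (T i j) = gens _ (T (i + 1)) j := by
    intro i
    let J' : Wr (Lam (i + 1)) (Om (lev i)) →* Big lev i :=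
      (MonoidHom.pi (Jd lev i)).comp (SW.mapA (Lam (i + 1)).subtype)
    have hJ : Function.Injective J' :=
      (J_inj lev i).comp (SW.mapA_injective _ Subtype.val_injective)
    have hg : ∀ j, J' (gens _ (T (i + 1)) j) = Tt i j := by
      intro j
      change MonoidHom.pi (Jd lev i) (SW.mapA _ _) = _
      rw [gens_map]
      exact J_gens lev i j
    have hle : Lam i ≤ J'.range := by
      rw [Subgroup.closure_le]
      rintro _ ⟨j, rfl⟩
      exact ⟨_, hg j⟩
    refine ⟨(MonoidHom.ofInjective hJ).symm.toMonoidHom.comp (Subgroup.inclusion hle),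
      (MonoidHom.ofInjective hJ).symm.injective.comp (Subgroup.inclusion_injective hle), fun j => ?_⟩
    change (MonoidHom.ofInjective hJ).symm _ = _
    rw [MulEquiv.symm_apply_eq]
    exact Subtype.ext (hg j).symm
  choose ε h1 h2 using key
  refine ⟨fun i => Lam i, fun i => inferInstance, T, ε, fun i => ?_, h1, h2⟩
  have := Subgroup.closure_preimage_eq_top (Set.range (Tt i))
  rw [← this]
  congr 1
  ext x
  constructor
  · rintro ⟨j, rfl⟩; exact ⟨j, rfl⟩
  · rintro ⟨j, hj⟩; exact ⟨j, Subtype.ext hj⟩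

/-- Flattening an iterated wreath product. -/
def flat (Λ Ω Z : Type) [Group Λ] : Wr (Wr Λ Ω) Z →* Wr Λ (Z × Ω) where
  toFun u := ⟨fun p => (u.fn p.1).fn p.2,
    { toFun := fun p => (u.top p.1, (u.fn (u.top p.1)).top p.2)
      invFun := fun p => (u.top⁻¹ p.1, (u.fn p.1).top⁻¹ p.2)
      left_inv := fun p => by simp
      right_inv := fun p => by simp }⟩
  map_one' := rfl
  map_mul' u v := by
    refine SW.ext (funext fun p => rfl) (Equiv.ext fun p => ?_)
    simp [Perm.smul_def]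

lemma flat_inj (Λ Ω Z : Type) [Group Λ] [Nonempty Ω] : Function.Injective (flat Λ Ω Z) := by
  rw [injective_iff_map_eq_one]
  intro u hu
  have h1 : ∀ z s, (u.fn z).fn s = 1 := fun z s => congrArg (fun w => w.fn (z, s)) hu
  have h2 : ∀ z s, (u.top z, (u.fn (u.top z)).top s) = (z, s) := fun z s =>
    congrArg (fun w => w.top (z, s)) hu
  have h3 : ∀ z, u.top z = z := fun z => (Prod.mk.inj (h2 z (Classical.arbitrary Ω))).1
  refine SW.ext (funext fun z => SW.ext (funext fun s => h1 z s) (Equiv.ext fun s => ?_))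
    (Equiv.ext h3)
  have := (Prod.mk.inj (h2 z s)).2
  rwa [h3] at this

lemma rate_mono {G : Type} [Group G] {U : Set G} {c c' : ℝ} (h : Rate U c) (hc : 0 ≤ c)
    (hcc : c ≤ c') : Rate U c' := by
  obtain ⟨C, hC⟩ := h
  have hC0 : 0 ≤ C := by
    have := hC 0
    simp only [pow_zero, mul_one] at this
    exact le_trans (by positivity) this
  exact ⟨C, fun n => (hC n).trans (by gcongr)⟩

section
variable {lev : ℕ → ℕ} {Λ : ℕ → Type} [∀ i, Group (Λ i)] (T : ∀ i, Fin 9 → Λ i)
  (ε : ∀ i, Λ i →* Wr (Λ (i + 1)) (Om (lev i)))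
  (hT : ∀ i, Subgroup.closure (Set.range (T i)) = ⊤) (hε : ∀ i, Function.Injective (ε i))
  (hεT : ∀ i j, ε i (T i j) = gens _ (T (i + 1)) j)
include hT hε hεT

lemma tower_full (i : ℕ) (f : Om (lev i) → Λ (i + 1)) : SW.bs f ∈ (ε i).range :=
  base_mem (T (i + 1)) (hε _ (by rw [hεT, gens_zero, map_one])) (hT _)
    (perfect _ _ (hT _) _ (hε _) (hεT _)) (ε i).range (fun j => ⟨T i j, hεT i j⟩) f

lemma tower_infinite (i : ℕ) : Infinite (Λ i) := by
  have key : ∀ N i, Finite (Λ i) → Nat.card (Λ i) ≤ N → False := by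
    intro N
    induction N with
    | zero =>
      intro i hf h
      have := Nat.card_pos (α := Λ i)
      omega
    | succ N ih =>
      intro i hf h
      choose g hg using tower_full T ε hT hε hεT i
      have gi : Function.Injective g := by
        intro f f' h
        have := hg f
        rw [h, hg] at this
        exact (congrArg SW.fn this).symm
      have hf1 : Finite (Om (lev i) → Λ (i + 1)) := Finite.of_injective g gi
      have hf2 : Finite (Λ (i + 1)) :=
        Finite.of_injective (fun (x : Λ (i + 1)) (_ : Om (lev i)) => x)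
          fun x y h => congrFun h (u1 _, 0)
      refine ih (i + 1) hf2 ?_
      have h1 := Nat.card_le_card_of_injective g gi
      rw [Nat.card_fun] at h1
      have : Nontrivial (Λ (i + 1)) := ⟨⟨_, _, T7_ne _ _ _ (hεT (i + 1))⟩⟩
      have h2 : 1 < Nat.card (Λ (i + 1)) := Finite.one_lt_card
      have h3 : 1 < Nat.card (Om (lev i)) := by
        rw [Nat.card_eq_fintype_card]; exact lt_of_lt_of_le (by norm_num) card_Om
      have := Nat.pow_lt_pow_right h2 h3
      rw [pow_one] at this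
      omega
  by_contra h
  rw [not_infinite_iff_finite] at h
  exact key _ i h le_rfl

lemma tower_flat (seq : ℕ → ℕ) (h0 : seq 0 = 1)
    (hs : ∀ i, seq (i + 1) = seq i * Fintype.card (Om (lev i))) (i : ℕ) :
    ∃ (Z : Type) (_ : Fintype Z) (_ : DecidableEq Z) (_ : Nonempty Z), Fintype.card Z = seq i ∧
      ∃ e : Λ 0 →* Wr (Λ i) Z, Function.Injective e ∧ ∀ f, SW.bs f ∈ e.range := by
  induction i with
  | zero =>
    refine ⟨Unit, inferInstance, inferInstance, inferInstance, by simp [h0],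
      SW.bs.comp (MonoidHom.pi fun _ => MonoidHom.id _), fun x y h => ?_, fun f => ⟨f (), rfl⟩⟩
    exact congrArg (fun w => w.fn ()) h
  | succ i ih =>
    obtain ⟨Z, i1, i2, i3, hc, e, he, hf⟩ := ih
    have : Nonempty (Om (lev i)) := ⟨(u1 _, 0)⟩
    refine ⟨Z × Om (lev i), inferInstance, inferInstance, inferInstance,
      by rw [Fintype.card_prod, hc, hs],
      (flat _ _ _).comp ((SW.mapA (ε i)).comp e),
      (flat_inj _ _ _).comp ((SW.mapA_injective _ (hε i)).comp he), fun f => ?_⟩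
    choose γ hγ using fun z => tower_full T ε hT hε hεT i fun s => f (z, s)
    obtain ⟨v, hv⟩ := hf γ
    refine ⟨v, ?_⟩
    change flat _ _ _ (SW.mapA (ε i) (e v)) = _
    rw [hv]
    refine SW.ext (funext fun p => ?_) (Equiv.ext fun p => ?_)
    · change (ε i (γ p.1)).fn p.2 = _
      rw [hγ]; rfl
    · change (p.1, (ε i (γ p.1)).top p.2) = _
      rw [hγ]; rfl

lemma tower_rate (d : ℕ) : ∀ c c' : ℝ, 1 ≤ c → c < c' → Rate (sy (Set.range (T d))) c →
    Rate (sy (Set.range (T 0))) (c' ^ 18 ^ d) := by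
  induction d with
  | zero =>
    intro c c' h1 h2 h
    exact rate_mono h (by linarith) (by simpa using h2.le)
  | succ d ih =>
    intro c c' h1 h2 h
    have := rate_transfer (T (d + 1)) (T d) (ε d) (hε d) (hεT d) (c' := (c + c') / 2)
      (by linarith) (by linarith) (by linarith) h
    have := ih _ (c' ^ 18) (one_le_pow₀ (by linarith))
      (pow_lt_pow_left₀ (by linarith) (by linarith) (by norm_num)) this
    rwa [← pow_mul, ← pow_succ'] at this

end

lemma rate_all {G : Type} [Group G] {S : Set G} (hS : S.Finite) (hgen : Subgroup.closure S = ⊤)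
    (h : ∀ c : ℝ, 1 < c → Rate (sy S) c) (V : Set G) (hV : V.Finite) (c : ℝ) (hc : 1 < c) :
    Rate V c := by
  obtain ⟨L, hL⟩ := exists_uniform_pow hV (one_mem_sy S) fun u _ =>
    exists_mem_pow (by rw [hgen]; trivial)
  have h1 : 1 < c ^ (((L + 1 : ℕ) : ℝ)⁻¹) := Real.one_lt_rpow hc (by positivity)
  have h2 : (c ^ (((L + 1 : ℕ) : ℝ)⁻¹)) ^ (L + 1) = c :=
    Real.rpow_inv_natCast_pow (by linarith) (by omega)
  generalize c ^ (((L + 1 : ℕ) : ℝ)⁻¹) = b at h1 h2
  obtain ⟨C, hC⟩ := h b h1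
  have hC0 : 0 ≤ C := by
    have := hC 0
    simp only [pow_zero, mul_one] at this
    exact le_trans (by positivity) this
  refine ⟨C, fun n => ?_⟩
  have h3 : (V ^ n).ncard ≤ (sy S ^ (L * n)).ncard :=
    Set.ncard_le_ncard (fun g hg => map_mem_pow (MonoidHom.id G) hL hg) (fin_pow (sy_finite hS) _)
  calc ((V ^ n).ncard : ℝ) ≤ (sy S ^ (L * n)).ncard := by exact_mod_cast h3
    _ ≤ C * b ^ (L * n) := hC _
    _ ≤ C * c ^ n := by
      rw [pow_mul, ← h2]
      gcongr
      · exact h1.le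
      · omega

theorem main_group : ∃ (G : Type) (_ : Group G), Infinite G ∧
    (∃ T : Fin 9 → G, Subgroup.closure (Set.range T) = ⊤) ∧
    (∀ V : Set G, V.Finite → ∀ c : ℝ, 1 < c → Rate V c) ∧
    ∀ c : ℝ, 1 < c → ∃ S : Set (LL (alternatingGroup (Fin 5)) G), S.Finite ∧
      Subgroup.closure S = ⊤ ∧ ∃ R : ℕ, ((sy S ^ R).ncard : ℝ) < c ^ R := by
  classical
  have hb : ∀ i : ℕ, ∃ b b' : ℝ, 1 < b ∧ b < b' ∧ b' ^ 18 ^ i = 1 + 1 / ((i : ℝ) + 1) := by
    intro i
    have h0 : (1 : ℝ) < 1 + 1 / ((i : ℝ) + 1) := lt_add_of_pos_right _ (by positivity)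
    have h1 : 1 < (1 + 1 / ((i : ℝ) + 1)) ^ (((18 ^ i : ℕ) : ℝ)⁻¹) :=
      Real.one_lt_rpow h0 (by positivity)
    exact ⟨(1 + (1 + 1 / ((i : ℝ) + 1)) ^ (((18 ^ i : ℕ) : ℝ)⁻¹)) / 2, _, by linarith, by linarith,
      Real.rpow_inv_natCast_pow (by linarith) (by positivity)⟩
  choose b b' hb1 hb2 hb3 using hb
  choose kk mm MM n1 n2 n3 using fun (z i : ℕ) => numeric z (b i) (hb1 i)
  let seq : ℕ → ℕ := fun i => Nat.rec 1
    (fun i s => s * Fintype.card (Om (4 ^ (kk s i + 1) + kk s i))) i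
  let lev : ℕ → ℕ := fun i => 4 ^ (kk (seq i) i + 1) + kk (seq i) i
  obtain ⟨Λ, inst, T, ε, hT, hε, hεT⟩ := exists_tower lev
  have hA : commutator (alternatingGroup (Fin 5)) = ⊤ :=
    commutator_alternatingGroup_eq_top (by simp)
  have hcA : Fintype.card (alternatingGroup (Fin 5)) = 60 := by
    rw [card_alternatingGroup]; rfl
  have key : ∀ i, (∃ S : Set (LL (alternatingGroup (Fin 5)) (Λ 0)), S.Finite ∧
      Subgroup.closure S = ⊤ ∧ ((sy S ^ 4 ^ kk (seq i) i).ncard : ℝ) ≤ b i ^ 4 ^ kk (seq i) i) ∧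
      ((sy (Set.range (T i)) ^ 4 ^ kk (seq i) i).ncard : ℝ) ≤ b i ^ 4 ^ kk (seq i) i := by
    intro i
    obtain ⟨Z, i1, i2, i3, hc, e, he, hf⟩ := tower_flat T ε hT hε hεT seq rfl (fun _ => rfl) i
    have := tower_infinite T ε hT hε hεT (i + 1)
    obtain ⟨⟨S, s1, s2, s3⟩, s4⟩ := thin (4 ^ (kk (seq i) i + 1)) (kk (seq i) i) (n := lev i) rfl
      (T (i + 1)) (T i) (hT i) (ε i) (hε i) (hεT i) (tower_full T ε hT hε hεT i) e he hf hA
      (4 ^ kk (seq i) i) (mm (seq i) i) (MM (seq i) i)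
      (by rw [← pow_succ']; exact Nat.le_add_right _ _) (n1 _ _) (n2 _ _) _ le_rfl
    rw [hc, hcA] at s3 s4
    exact ⟨⟨S, s1, s2, (Nat.cast_le.2 s3).trans (n3 _ _)⟩, (Nat.cast_le.2 s4).trans (n3 _ _)⟩
  have small : ∀ c : ℝ, 1 < c → ∃ i : ℕ, 1 + 1 / ((i : ℝ) + 1) < c := by
    intro c hc
    obtain ⟨i, hi⟩ := exists_nat_one_div_lt (sub_pos.2 hc)
    exact ⟨i, by linarith⟩
  refine ⟨Λ 0, inst 0, tower_infinite T ε hT hε hεT 0, ⟨T 0, hT 0⟩,
    rate_all (Set.finite_range _) (hT 0) fun c hc => ?_, fun c hc => ?_⟩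
  · obtain ⟨i, hi⟩ := small c hc
    have r1 := rate_of_ball (sy_finite (Set.finite_range _)) (one_mem_sy _) (hb1 i).le
      (by positivity) (key i).2
    have r2 := tower_rate T ε hT hε hεT i _ _ (hb1 i).le (hb2 i) r1
    rw [hb3] at r2
    exact rate_mono r2 (by positivity) hi.le
  · obtain ⟨i, hi⟩ := small c hc
    obtain ⟨S, s1, s2, s3⟩ := (key i).1
    refine ⟨S, s1, s2, _, s3.trans_lt (pow_lt_pow_left₀ ?_ (by linarith [hb1 i]) (by positivity))⟩
    have : b' i ≤ b' i ^ 18 ^ i := le_self_pow₀ (by linarith [hb1 i, hb2 i]) (by positivity)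
    linarith [hb2 i, hb3 i]

end Pool.Agent.H794Z.Gad
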