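import Pool.Agent.H794Z.Thin

set_option autoImplicit false
set_option linter.unusedSectionVars false
open Pointwise Equiv Equiv.Perm

namespace Pool.Agent.H794Z.Gad
open Grig Alt

section Transfer
variable {n : ℕ} {Λ : Type} [Group Λ]

/-- Total length of the sections is at most `m`. -/
def Tot (U : Set Λ) (w : Wr Λ (Om n)) (m : ℕ) : Prop :=
  ∃ ℓ : Om n → ℕ, ∑ s, ℓ s ≤ m ∧ ∀ s, w.fn s ∈ U ^ ℓ s

lemma Tot.mul {U : Set Λ} {w w' : Wr Λ (Om n)} {m m' : ℕ} (h : Tot U w m) (h' : Tot U w' m') :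
    Tot U (w * w') (m + m') := by
  obtain ⟨ℓ, h1, h2⟩ := h
  obtain ⟨ℓ', h1', h2'⟩ := h'
  refine ⟨fun s => ℓ s + ℓ' (w.top⁻¹ s), ?_, fun s => mul_mem_pow (h2 s) (h2' _)⟩
  rw [Finset.sum_add_distrib, Equiv.sum_comp w.top⁻¹ ℓ']
  omega

lemma Tot.inv {S : Set Λ} {w : Wr Λ (Om n)} {m : ℕ} (h : Tot (sy S) w m) : Tot (sy S) w⁻¹ m := by
  obtain ⟨ℓ, h1, h2⟩ := h
  refine ⟨fun s => ℓ (w.top s), ?_, fun s => inv_mem_pow (fun _ => inv_mem_sy) (h2 _)⟩
  rwa [Equiv.sum_comp w.top ℓ]

lemma tot_rt (U : Set Λ) (e : Perm (Om n)) (m : ℕ) : Tot U (SW.rt e) m :=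
  ⟨fun _ => 0, by simp, fun s => by simp⟩

lemma tot_gens (lam : Fin 9 → Λ) (j : Fin 9) : Tot (sy (Set.range lam)) (gens n lam j) 18 := by
  classical
  by_cases hj : j = 8
  swap
  · rw [gens_ne lam hj]; exact tot_rt _ _ _
  subst hj
  let D : Finset (Om n) := Finset.univ.image fun j : Fin 9 => iota (u1 n, j)
  refine ⟨fun s => if s ∈ D then 2 else 0, ?_, fun s => ?_⟩
  · rw [← Finset.sum_filter, Finset.sum_const, smul_eq_mul]
    have : (Finset.univ.filter fun s => s ∈ D).card ≤ 9 := by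
      rw [Finset.filter_univ_mem]
      exact Finset.card_image_le.trans (by simp)
    omega
  · have e : (gens n lam 8).fn s
        = lam (s.2 (x2 n)) * (lam (((cst (kap0 n))⁻¹ s).2 (x2 n)))⁻¹ := by
      change (Phi lam (x2 n) * SW.rt (cst (kap0 n)) * (Phi lam (x2 n))⁻¹).fn s = _
      simp [Phi, Perm.smul_def]
    rw [e]
    simp only
    split_ifs with hs
    · rw [pow_two]
      exact Set.mul_mem_mul (subset_sy _ ⟨_, rfl⟩) (inv_mem_sy (subset_sy _ ⟨_, rfl⟩))
    · have : (cst (kap0 n))⁻¹ s = s := by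
        rw [Perm.inv_eq_iff_eq]
        by_cases h : s ∈ Set.range iota
        · obtain ⟨⟨π, j⟩, rfl⟩ := h
          rw [cst_iota, kap0_ne π]
          rintro rfl
          exact hs (Finset.mem_image.2 ⟨j, by simp, rfl⟩)
        · rw [cst_not _ _ h]
      rw [this]; simp

lemma rate_transfer (lam : Fin 9 → Λ) {Γ : Type} [Group Γ] (T : Fin 9 → Γ)
    (ε : Γ →* Wr Λ (Om n)) (hε : Function.Injective ε) (hεT : ∀ j, ε (T j) = gens n lam j)
    {c c' : ℝ} (hc : 0 < c) (hcc : c < c') (hc' : 1 ≤ c') (h : Rate (sy (Set.range lam)) c) :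
    Rate (sy (Set.range T)) (c' ^ 18) := by
  classical
  obtain ⟨C, hC⟩ := h
  set U := sy (Set.range lam) with hU
  have hUf : U.Finite := sy_finite (Set.finite_range _)
  have hU1 : (1 : Λ) ∈ U := one_mem_sy _
  have hVf : (sy (Set.range T)).Finite := sy_finite (Set.finite_range _)
  have hC0 : 0 ≤ C := by
    have := hC 0
    simp only [pow_zero, mul_one] at this
    exact le_trans (by positivity) this
  have tot : ∀ (r : ℕ) (g : Γ), g ∈ sy (Set.range T) ^ r → Tot U (ε g) (18 * r) := by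
    intro r
    induction r with
    | zero =>
      intro g hg
      rw [pow_zero, Set.mem_one] at hg
      subst hg
      rw [map_one, ← map_one SW.rt]; exact tot_rt _ _ _
    | succ r ih =>
      intro g hg
      rw [pow_succ] at hg
      obtain ⟨a, ha, b, hb, rfl⟩ := hg
      rw [map_mul, Nat.mul_succ]
      refine (ih a ha).mul ?_
      rcases hb with (⟨j, rfl⟩ | ⟨j, hj⟩) | hb
      · rw [hεT]; exact tot_gens lam j
      · have : ε b = (gens n lam j)⁻¹ := by rw [← hεT, hj]; simp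
        rw [this]; exact (tot_gens lam j).inv
      · rw [Set.mem_singleton_iff] at hb
        subst hb
        rw [map_one, ← map_one SW.rt]; exact tot_rt _ _ _
  let len : Λ → ℕ := fun x => sInf {k | x ∈ U ^ k}
  let q : ℝ := c / c'
  have hc0 : 0 < c' := by linarith
  have hq0 : 0 ≤ q := by positivity
  have hq1 : q < 1 := (div_lt_one hc0).2 hcc
  have inner : ∀ N : ℕ, ∑ x ∈ (fin_pow hUf N).toFinset, (c' ^ len x)⁻¹ ≤ C * (1 - q)⁻¹ := by
    intro N
    rw [← Finset.sum_fiberwise_of_maps_to (t := Finset.range (N + 1)) (g := len) (by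
      intro x hx
      rw [Finset.mem_range, Nat.lt_succ_iff]
      exact Nat.sInf_le (by simpa using hx))]
    calc _ ≤ ∑ k ∈ Finset.range (N + 1), C * q ^ k := by
          refine Finset.sum_le_sum fun k _ => ?_
          rw [Finset.sum_congr rfl (g := fun _ => (c' ^ k)⁻¹) (by
            intro x hx; rw [(Finset.mem_filter.1 hx).2]), Finset.sum_const, nsmul_eq_mul]
          have : ((((fin_pow hUf N).toFinset.filter fun x => len x = k).card : ℕ) : ℝ)
              ≤ (U ^ k).ncard := by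
            rw [Set.ncard_eq_toFinset_card _ (fin_pow hUf k)]
            refine Nat.cast_le.2 (Finset.card_le_card fun x hx => ?_)
            obtain ⟨h1, rfl⟩ := Finset.mem_filter.1 hx
            rw [Set.Finite.mem_toFinset]
            exact Nat.sInf_mem (s := {k | x ∈ U ^ k}) ⟨N, by simpa using h1⟩
          calc _ ≤ C * c ^ k * (c' ^ k)⁻¹ := by gcongr; exact this.trans (hC k)
            _ = C * q ^ k := by simp only [q, div_pow]; ring
      _ ≤ C * (1 - q)⁻¹ := by
          rw [← Finset.mul_sum]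
          gcongr
          rw [← tsum_geometric_of_lt_one hq0 hq1]
          exact (summable_geometric_of_lt_one hq0 hq1).sum_le_tsum _ fun _ _ => by positivity
  refine ⟨Fintype.card (Perm (Om n)) * (C * (1 - q)⁻¹) ^ Fintype.card (Om n), fun r => ?_⟩
  let B := (fin_pow hVf r).toFinset
  let P := (fin_pow hUf (18 * r)).toFinset
  let wgt : (Om n → Λ) → ℝ := fun f => ∏ s, (c' ^ len (f s))⁻¹
  have e1 : ∀ g ∈ B, ((c' ^ 18) ^ r)⁻¹ ≤ wgt (ε g).fn ∧ ∀ s, (ε g).fn s ∈ P := by
    intro g hg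
    obtain ⟨ℓ, h1, h2⟩ := tot r g (by simpa [B] using hg)
    constructor
    · simp only [wgt]
      rw [Finset.prod_inv_distrib, Finset.prod_pow_eq_pow_sum, ← pow_mul]
      refine inv_anti₀ (by positivity) (pow_le_pow_right₀ hc' ?_)
      exact (Finset.sum_le_sum fun s _ => Nat.sInf_le (h2 s)).trans h1
    · intro s
      simp only [P, Set.Finite.mem_toFinset]
      exact Set.pow_subset_pow_right hU1
        ((Finset.single_le_sum (fun _ _ => Nat.zero_le _) (Finset.mem_univ s)).trans h1) (h2 s)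
  have e2 : ∑ g ∈ B, wgt (ε g).fn ≤
      ∑ t ∈ (Finset.univ : Finset (Perm (Om n))) ×ˢ (Fintype.piFinset fun _ : Om n => P),
        wgt t.2 := by
    rw [← Finset.sum_image (s := B) (g := fun g => ((ε g).top, (ε g).fn))
      (f := fun t : Perm (Om n) × (Om n → Λ) => wgt t.2) (by
        intro g _ g' _ h
        exact hε (SW.ext (Prod.mk.inj h).2 (Prod.mk.inj h).1))]
    refine Finset.sum_le_sum_of_subset_of_nonneg ?_ fun _ _ _ => by positivity
    intro t ht
    obtain ⟨g, hg, rfl⟩ := Finset.mem_image.1 ht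
    simpa using (e1 g hg).2
  rw [Finset.sum_product] at e2
  simp only [wgt, ← Finset.prod_univ_sum, Finset.prod_const, Finset.sum_const, Finset.card_univ,
    nsmul_eq_mul] at e2
  have e3 : (B.card : ℝ) * ((c' ^ 18) ^ r)⁻¹ ≤ ∑ g ∈ B, wgt (ε g).fn := by
    rw [← nsmul_eq_mul, ← Finset.sum_const]
    exact Finset.sum_le_sum fun g hg => (e1 g hg).1
  have e4 : (∑ x ∈ P, (c' ^ len x)⁻¹) ^ Fintype.card (Om n) ≤ (C * (1 - q)⁻¹) ^ Fintype.card (Om n) :=
    pow_le_pow_left₀ (Finset.sum_nonneg fun _ _ => by positivity) (inner _) _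
  rw [Set.ncard_eq_toFinset_card _ (fin_pow hVf r), ← div_le_iff₀ (by positivity), div_eq_mul_inv]
  refine e3.trans (e2.trans ?_)
  gcongr
  first
    | exact e4
    | (rw [← Finset.prod_univ_sum (fun _ => P) (fun _ x => (c' ^ len x)⁻¹), Finset.prod_const,
        Finset.card_univ]; exact e4)

end Transfer

end Pool.Agent.H794Z.Gad
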